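import Mathlib
import Pool.Agent.Lib_helper88.NC.Defs

set_option autoImplicit false

namespace Pool.Agent.PATH.NC

open Finset Pool.Agent.PENT Pool.Agent.PENT.EQ

variable {k : ℕ}

theorem na1_dE (u : Vec k) (i : ℕ) (h1 : 1 ≤ i) (h2 : i ≤ k) :
    dE u i = (dt (u ⟨i - 1, by omega⟩) (u ⟨i, by omega⟩)).natAbs := by
  unfold dE
  rw [dif_pos ⟨h1, h2⟩]

theorem na1_first {p : Prm k} {X : ℕ} {u : Vec k} (hu : GP p X u) (hc : 0 < p.c1)
    (j : Fin (k + 1)) (h1 : j.val = 1) : (nm (u j) : ℝ) ≤ (X : ℝ) ^ p.ep / p.c1 := by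
  have hk : 1 ≤ k := by have := j.isLt; omega
  have hs := hu.sep 0 j (by rw [Fin.lt_def, h1]; exact Nat.one_pos)
  have e0 : (⟨1 - 1, by omega⟩ : Fin (k + 1)) = 0 := rfl
  have e1 : (⟨1, by omega⟩ : Fin (k + 1)) = j := Fin.ext h1.symm
  have hd : dE u 1 = ((u j).2).natAbs := by
    rw [na1_dE u 1 le_rfl hk, e0, e1, hu.first]
    simp [dt]
  have hh := hu.e1.hi
  rw [hd] at hh
  rw [hu.first] at hs
  have e2 : dt ((1 : ℤ), (0 : ℤ)) (u j) = (u j).2 := by simp [dt]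
  have e3 : nm ((1 : ℤ), (0 : ℤ)) = 1 := rfl
  rw [e2, e3, Int.cast_one, one_mul] at hs
  have h3 : ((u j).2 : ℝ) ≤ (((u j).2.natAbs : ℕ) : ℝ) := by
    rw [Nat.cast_natAbs, Int.cast_abs]
    exact le_abs_self _
  rw [le_div_iff₀ hc]
  linarith

theorem na1_last {p : Prm k} {X : ℕ} {u : Vec k} (hu : GP p X u) (hc : 0 < p.c1)
    (j : Fin (k + 1)) (h1 : j.val + 1 = k) : (nm (u j) : ℝ) ≤ (X : ℝ) ^ p.ep / p.c1 := by
  have hk : 1 ≤ k := by omega
  have hs := hu.sep j (Fin.last k) (by rw [Fin.lt_def, Fin.val_last]; omega)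
  have e0 : (⟨k - 1, by omega⟩ : Fin (k + 1)) = j := Fin.ext (by simp only; omega)
  have e1 : (⟨k, by omega⟩ : Fin (k + 1)) = Fin.last k := rfl
  have hd : dE u k = ((u j).1).natAbs := by
    rw [na1_dE u k hk le_rfl, e0, e1, hu.last]
    simp [dt]
  have hh := hu.e2.hi
  rw [hd] at hh
  rw [hu.last] at hs
  have e2 : dt (u j) ((0 : ℤ), (1 : ℤ)) = (u j).1 := by simp [dt]
  have e3 : nm ((0 : ℤ), (1 : ℤ)) = 1 := rfl
  rw [e2, e3, Int.cast_one, mul_one] at hs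
  have h3 : ((u j).1 : ℝ) ≤ (((u j).1.natAbs : ℕ) : ℝ) := by
    rw [Nat.cast_natAbs, Int.cast_abs]
    exact le_abs_self _
  rw [le_div_iff₀ hc]
  linarith

/-- all coordinates -/
theorem na1_coord {p : Prm k} {X : ℕ} {u : Vec k} (hu : GP p X u) (hc : 0 < p.c1) (B : ℝ)
    (hB1 : 1 ≤ B) (hB2 : (X : ℝ) ^ p.ep / p.c1 ≤ B)
    (hB3 : ∀ j : Fin (k + 1), 2 ≤ j.val → j.val + 2 ≤ k → (X : ℝ) ^ (p.e j + p.ew) ≤ B)
    (j : Fin (k + 1)) : |((u j).1 : ℝ)| ≤ B ∧ |((u j).2 : ℝ)| ≤ B := by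
  by_cases h0 : j.val = 0
  · have : j = 0 := Fin.ext h0
    rw [this, hu.first]
    simp only [Int.cast_one, abs_one, Int.cast_zero, abs_zero]
    exact ⟨hB1, zero_le_one.trans hB1⟩
  by_cases hk : j.val = k
  · have : j = Fin.last k := Fin.ext hk
    rw [this, hu.last]
    simp only [Int.cast_one, abs_one, Int.cast_zero, abs_zero]
    exact ⟨zero_le_one.trans hB1, hB1⟩
  have hlt := j.isLt
  have hpos := hu.pos j (by omega) (by omega)
  have hnm : (nm (u j) : ℝ) ≤ B := by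
    by_cases h1 : j.val = 1
    · exact (na1_first hu hc j h1).trans hB2
    by_cases h2 : j.val + 1 = k
    · exact (na1_last hu hc j h2).trans hB2
    · exact (hu.upp j (by omega) (by omega)).trans (hB3 j (by omega) (by omega))
  have a1 : (0 : ℝ) < (u j).1 := by exact_mod_cast hpos.1
  have a2 : (0 : ℝ) < (u j).2 := by exact_mod_cast hpos.2
  have e : (nm (u j) : ℝ) = (u j).1 + (u j).2 := by
    unfold nm
    push_cast
    rfl
  rw [abs_of_pos a1, abs_of_pos a2]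
  constructor <;> linarith

/-- NA1: finiteness. -/
theorem GP_finite (p : Prm k) (hc : 0 < p.c1) (X : ℕ) : {u : Vec k | GP p X u}.Finite := by
  set B : ℝ := 1 + (X : ℝ) ^ p.ep / p.c1 + ∑ j : Fin (k + 1), (X : ℝ) ^ (p.e j + p.ew) with hB
  have hn1 : 0 ≤ (X : ℝ) ^ p.ep / p.c1 :=
    div_nonneg (Real.rpow_nonneg (Nat.cast_nonneg _) _) hc.le
  have hn2 : ∀ j : Fin (k + 1), 0 ≤ (X : ℝ) ^ (p.e j + p.ew) := fun j =>
    Real.rpow_nonneg (Nat.cast_nonneg _) _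
  have hn3 : 0 ≤ ∑ j : Fin (k + 1), (X : ℝ) ^ (p.e j + p.ew) :=
    Finset.sum_nonneg fun j _ => hn2 j
  have hsub : {u : Vec k | GP p X u} ⊆ ↑(Fintype.piFinset (fun _ : Fin (k + 1) =>
      (Icc (-⌈B⌉) ⌈B⌉) ×ˢ (Icc (-⌈B⌉) ⌈B⌉))) := by
    intro u hu
    have hu' : GP p X u := hu
    rw [Finset.mem_coe, Fintype.mem_piFinset]
    intro j
    have h1 := na1_coord hu' hc B (by linarith) (by linarith) (fun j _ _ => by
      have := Finset.single_le_sum (f := fun j : Fin (k + 1) => (X : ℝ) ^ (p.e j + p.ew))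
        (fun i _ => hn2 i) (Finset.mem_univ j)
      linarith) j
    have h2 : ∀ z : ℤ, |(z : ℝ)| ≤ B → -⌈B⌉ ≤ z ∧ z ≤ ⌈B⌉ := by
      intro z hz
      rw [abs_le] at hz
      have h3 := Int.le_ceil B
      constructor
      · have : (-(⌈B⌉ : ℤ) : ℝ) ≤ z := by linarith [hz.1]
        exact_mod_cast this
      · have : (z : ℝ) ≤ (⌈B⌉ : ℤ) := by linarith [hz.2]
        exact_mod_cast this
    rw [mem_product, mem_Icc, mem_Icc]
    exact ⟨h2 _ h1.1, h2 _ h1.2⟩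
  exact (Finset.finite_toSet _).subset hsub

/-- NA1 -/
theorem mem_GS {p : Prm k} (hc : 0 < p.c1) {X : ℕ} {u : Vec k} : u ∈ GS p X ↔ GP p X u := by
  unfold GS
  rw [dif_pos (GP_finite p hc X)]
  simp

end Pool.Agent.PATH.NC
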