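import Pool.Agent.Lib_helper88.NCF.NE7
import Pool.Agent.Lib_helper97.PATH.FromNC

/-!
# NC: from the inputs to the covering families (helper88)
-/

set_option autoImplicit false

namespace Pool.Agent.PATH.NC

open Finset Pool.Agent.PENT Pool.Agent.PENT.EQ Pool.Agent.PATH

/-- **PART I** of the 0-1 law, from the inputs -/
theorem part_one (k : ℕ) (hk : Even k) (hk4 : 4 ≤ k)
    (hLB : ∃ τ₀ : ℝ, 0 < τ₀ ∧ ∀ p : Prm k, p.Ok τ₀ → LB p)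
    (hUB : ∃ τ₀ : ℝ, 0 < τ₀ ∧ ∀ p : Prm k, p.Ok τ₀ → UB p)
    (hUB1 : ∃ τ₀ : ℝ, 0 < τ₀ ∧ ∀ p : Prm k, p.Ok τ₀ → UB1 p)
    (hUB2 : ∃ τ₀ : ℝ, 0 < τ₀ ∧ ∀ p : Prm k, p.Ok τ₀ → UB2 p)
    (hDG : ∀ C1 : ℝ, 1 ≤ C1 → ∃ τ₀ : ℝ, 0 < τ₀ ∧ ∀ p : Prm k, p.Ok τ₀ → DG p C1)
    (hNEG : ∀ C1 : ℝ, 1 ≤ C1 → ∃ τ₀ : ℝ, 0 < τ₀ ∧ ∀ p : Prm k, p.Ok τ₀ → NEG p C1)
    (hMAR : ∀ C1 : ℝ, 1 ≤ C1 → ∃ τ₀ : ℝ, 0 < τ₀ ∧ ∀ p : Prm k, p.Ok τ₀ → MAR p C1)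
    (hCOV : ∀ C1 : ℝ, 1 ≤ C1 → ∃ C₂ : ℝ, 0 < C₂ ∧ ∀ δ : ℝ, 0 < δ → COV δ C1 C₂)
    (δ C1 : ℝ) (hδ : 0 < δ) (hC1 : 1 ≤ C1) : Fam01 δ C1 := by
  obtain ⟨C₂, hC₂, hCOV⟩ := hCOV C1 hC1
  set δ' : ℝ := δ / 40 with hδ'
  have hδ'0 : 0 < δ' := by positivity
  obtain ⟨c, X1, hc, _, hCOV⟩ := hCOV δ' hδ'0
  obtain ⟨a1, ha1, hLB⟩ := hLB
  obtain ⟨a2, ha2, hUB⟩ := hUB
  obtain ⟨a3, ha3, hUB1⟩ := hUB1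
  obtain ⟨a4, ha4, hUB2⟩ := hUB2
  obtain ⟨a5, ha5, hDG⟩ := hDG C1 hC1
  obtain ⟨a6, ha6, hNEG⟩ := hNEG C1 hC1
  obtain ⟨a7, ha7, hMAR⟩ := hMAR C1 hC1
  obtain ⟨a8, ha8, hNC⟩ := near_const hk hk4 C1 C₂ c δ' hC1 hC₂ hc hδ'0
  obtain ⟨a9, ha9, hEND⟩ := end_mean (k := k) hk4 C1 C₂ c δ' hC1 hC₂ hc hδ'0
  set τ : ℝ := min (min (min (min a1 a2) (min a3 a4)) (min (min a5 a6) (min a7 a8)))
    (min a9 1) with hτd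
  have hτ : 0 < τ := by
    rw [hτd]
    exact lt_min (lt_min (lt_min (lt_min ha1 ha2) (lt_min ha3 ha4))
      (lt_min (lt_min ha5 ha6) (lt_min ha7 ha8))) (lt_min ha9 one_pos)
  obtain ⟨p, hp⟩ := exists_prm k hk τ hτ ((min_le_right _ _).trans (min_le_right _ _))
  have b1 : τ ≤ a1 := by rw [hτd]; simp
  have b2 : τ ≤ a2 := by rw [hτd]; simp
  have b3 : τ ≤ a3 := by rw [hτd]; simp
  have b4 : τ ≤ a4 := by rw [hτd]; simp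
  have b5 : τ ≤ a5 := by rw [hτd]; simp
  have b6 : τ ≤ a6 := by rw [hτd]; simp
  have b7 : τ ≤ a7 := by rw [hτd]; simp
  have b8 : τ ≤ a8 := by rw [hτd]; simp
  have b9 : τ ≤ a9 := by rw [hτd]; simp
  have m := fun {a : ℝ} (h : τ ≤ a) => hp.mono hτ hk4 h
  have iLB := hLB p (m b1)
  obtain ⟨P00, m', hP, _, X2, hN⟩ := hNC p (m b8) iLB (hUB p (m b2)) (hUB1 p (m b3))
    (hUB2 p (m b4)) (hDG p (m b5)) (hNEG p (m b6))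
  obtain ⟨X3, hE⟩ := hEND p (m b9)
  refine fam01_of_nc hk (by omega) hp.c10 hP hC1 hδ iLB (hMAR p (m b7)) ?_
  refine ⟨max X1 (max X2 X3), fun X hX ρ hρ1 hρ2 => ?_⟩
  simp only [ge_iff_le, max_le_iff] at hX
  obtain ⟨x1, x2, x3⟩ := hX
  obtain ⟨O, hO, hO2, hO3, hO4, hO5⟩ := hCOV X x1 ρ hρ1 hρ2
  refine ⟨O, hO, hO2, hO4, fun q hq => ?_, (hN X x2).2 O hO hO3 hO5, hE X x3 O hO hO3 hO5⟩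
  have h1 := hO hq
  unfold AW at h1
  exact (av_le_one (Finset.mem_filter.1 h1).2.1).2

end Pool.Agent.PATH.NC
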