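import Pool.Agent.Lib_helper88.NCF.NE8
import Pool.Agent.Lib_helper15.TPF.Main
import Pool.Agent.Lib_helper15.UPAF.UBM
import Pool.Agent.Lib_helper15.UPAF.DGM
import Pool.Agent.Lib_helper15.UPAF.UC4
import Pool.Agent.Lib_helper15.UPAF.UC3
import Pool.Agent.Lib_helper18.PENMF.Mar
import Pool.Agent.Lib_helper39.COVF.All

/-!
# PART I of the 0-1 law, unconditional: the covering families (helper88)
-/

set_option autoImplicit false

namespace Pool.Agent.PATH.NC

open Pool.Agent.PATH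

theorem fam01_all (δ C1 : ℝ) (hδ : 0 < δ) (hC1 : 1 ≤ C1) : Fam01 δ C1 :=
  part_one 10 (by decide) (by norm_num) TPA.LB_all UPA.UB_all UPA.UB1_all UPA.UB2_all
    UPA.DG_all PENM.neg_all (PENM.mar_all UPA.DG_all UPA.DGN_all)
    Pool.Agent.PENT.COV.cov_all δ C1 hδ hC1

end Pool.Agent.PATH.NC
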