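import Pool.Agent.Lib_helper88.NC.Defs

/-!
# NC, block NA2 (helper99)
-/

set_option autoImplicit false

namespace Pool.Agent.PATH.NC

open Finset Pool.Agent.PENT Pool.Agent.PENT.EQ

variable {k : ℕ}

theorem na2_dE (u : Vec k) (i : ℕ) (h1 : 1 ≤ i) (h2 : i ≤ k) :
    dE u i = (dt (u ⟨i - 1, by omega⟩) (u ⟨i, by omega⟩)).natAbs := by
  unfold dE
  rw [dif_pos ⟨h1, h2⟩]

/-- NA2: the vertices are primitive (a prime dividing `u_j`, `1 ≤ j ≤ k-1`, divides `d_(j-1)` and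
`d_j`, against `cop`) -/
theorem GP.prim {p : Prm k} {X : ℕ} {u : Vec k} (hu : GP p X u) (hk : 2 ≤ k) (j : Fin (k + 1)) :
    IsCoprime (u j).1 (u j).2 := by
  by_cases h0 : j = 0
  · rw [h0, hu.first]
    exact isCoprime_one_left
  by_cases hl : j = Fin.last k
  · rw [hl, hu.last]
    exact isCoprime_one_right
  have hj1 : 1 ≤ j.val := by
    rcases Nat.eq_zero_or_pos j.val with h | h
    · exact absurd (Fin.ext h) h0
    · exact h
  have hj2 : j.val + 1 ≤ k := by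
    have h := j.isLt
    have h3 : j.val ≠ k := fun h4 => hl (Fin.ext h4)
    omega
  rw [Int.isCoprime_iff_gcd_eq_one]
  have hd1 : ((Int.gcd (u j).1 (u j).2 : ℕ) : ℤ) ∣ (u j).1 := Int.gcd_dvd_left _ _
  have hd2 : ((Int.gcd (u j).1 (u j).2 : ℕ) : ℤ) ∣ (u j).2 := Int.gcd_dvd_right _ _
  have e1 : Int.gcd (u j).1 (u j).2 ∣ dE u j.val := by
    rw [na2_dE u j.val hj1 (by omega)]
    rw [← Int.natCast_dvd]
    unfold dt
    exact dvd_sub (Dvd.dvd.mul_left hd2 _) (Dvd.dvd.mul_left hd1 _)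
  have e2 : Int.gcd (u j).1 (u j).2 ∣ dE u (j.val + 1) := by
    rw [na2_dE u (j.val + 1) (by omega) hj2]
    rw [← Int.natCast_dvd]
    unfold dt
    exact dvd_sub (Dvd.dvd.mul_right hd1 _) (Dvd.dvd.mul_right hd2 _)
  have hc := hu.cop j.val (j.val + 1) hj1 (by omega) hj2
  exact Nat.dvd_one.1 (hc ▸ Nat.dvd_gcd e1 e2)

/-- NA2: the primes of `D(u)` -/
theorem GP.prime_Dall {p : Prm k} {X : ℕ} {u : Vec k} (hu : GP p X u) {l : ℕ} (hl : l.Prime)
    (h : l ∣ Dall u) : l % 4 = 1 ∧ PP X < (l : ℝ) := by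
  unfold Dall at h
  obtain ⟨i, hi, hd⟩ := (Prime.dvd_finsetProd_iff hl.prime _).1 h
  rw [mem_Icc] at hi
  exact (hu.dp i hi.1 hi.2).2 l hl hd

theorem na2_sq {f : ℕ → ℕ} (s : Finset ℕ) (h1 : ∀ i ∈ s, Squarefree (f i))
    (h2 : ∀ i ∈ s, ∀ j ∈ s, i < j → Nat.Coprime (f i) (f j)) : Squarefree (∏ i ∈ s, f i) := by
  induction s using Finset.induction_on with
  | empty => simp
  | insert a s ha ih =>
    rw [prod_insert ha]
    have hc : Nat.Coprime (f a) (∏ i ∈ s, f i) := by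
      refine Nat.Coprime.prod_right fun i hi => ?_
      rcases lt_trichotomy a i with h | h | h
      · exact h2 a (mem_insert_self a s) i (mem_insert_of_mem hi) h
      · exact absurd (h ▸ hi) ha
      · exact (h2 i (mem_insert_of_mem hi) a (mem_insert_self a s) h).symm
    rw [Nat.squarefree_mul hc]
    exact ⟨h1 a (mem_insert_self a s), ih (fun i hi => h1 i (mem_insert_of_mem hi))
      (fun i hi j hj => h2 i (mem_insert_of_mem hi) j (mem_insert_of_mem hj))⟩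

/-- NA2: `Dint u ∣ Dall u`, `Dall u = d_0 d_(k-1) Dint u`, positive and squarefree -/
theorem GP.Dall_eq {p : Prm k} {X : ℕ} {u : Vec k} (hu : GP p X u) (hk : 2 ≤ k) :
    Dall u = dE u 1 * dE u k * Dint u ∧ Squarefree (Dall u) ∧ 0 < Dall u := by
  have hsq : Squarefree (Dall u) := by
    unfold Dall
    refine na2_sq _ (fun i hi => ?_) (fun i hi j hj hij => ?_)
    · rw [mem_Icc] at hi
      exact (hu.dp i hi.1 hi.2).1
    · rw [mem_Icc] at hi hj
      exact hu.cop i j hi.1 hij hj.2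
  refine ⟨?_, hsq, Nat.pos_of_ne_zero hsq.ne_zero⟩
  unfold Dall Dint
  have e1 : Icc 1 k = insert 1 (insert k (Icc 2 (k - 1))) := by
    ext i
    simp only [mem_Icc, mem_insert]
    omega
  rw [e1, prod_insert, prod_insert, mul_assoc]
  · simp only [mem_Icc]
    omega
  · simp only [mem_Icc, mem_insert]
    omega

/-- NA2: the ends -/
theorem GP.fE_mem {p : Prm k} {X : ℕ} {u : Vec k} (hu : GP p X u) (hk : 2 ≤ k) :
    fE u ∈ Fac p X := by
  classical
  unfold Fac fE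
  have h1 : 0 < dE u 1 := Nat.pos_of_ne_zero (hu.dp 1 le_rfl (by omega)).1.ne_zero
  have h2 : 0 < dE u k := Nat.pos_of_ne_zero (hu.dp k (by omega) le_rfl).1.ne_zero
  refine mem_filter.2 ⟨mem_product.2 ⟨mem_Icc.2 ⟨h1, Nat.le_floor hu.e1.hi⟩,
    mem_Icc.2 ⟨h2, Nat.le_floor hu.e2.hi⟩⟩, hu.e1, hu.e2, hu.cop 1 k le_rfl (by omega) le_rfl⟩

end Pool.Agent.PATH.NC
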