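import Pool.Agent.Lib_helper88.NC.Defs

set_option autoImplicit false

namespace Pool.Agent.PATH.NC

open Finset Pool.Agent.PENT Pool.Agent.PENT.EQ

variable {k : ℕ}

theorem na4b_fv {l : ℤ} {q q' : ℤ × ℤ × ℤ} (h1 : l ∣ q.1 - q'.1) (h2 : l ∣ q.2.1 - q'.2.1)
    (h3 : l ∣ q.2.2 - q'.2.2) (u : ℤ × ℤ) : l ∣ fv q u ↔ l ∣ fv q' u := by
  have h : l ∣ fv q u - fv q' u := by
    have e : fv q u - fv q' u = (q.1 - q'.1) * u.1 ^ 2 + (q.2.1 - q'.2.1) * (2 * u.1 * u.2) +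
        (q.2.2 - q'.2.2) * u.2 ^ 2 := by
      unfold fv qf
      ring
    rw [e]
    exact dvd_add (dvd_add (h1.mul_right _) (h2.mul_right _)) (h3.mul_right _)
  exact (dvd_iff_dvd_of_dvd_sub h)

theorem na4b_fst {l a b : ℤ} (h : l ∣ a - b) : l ∣ a ↔ l ∣ b := dvd_iff_dvd_of_dvd_sub h

/-- NA4 -/
theorem per_Lf (p : Prm k) (X : ℕ) (u : Vec k) (l : ℕ) : Per3 l (Lf p X u l) := by
  intro q q' h1 h2 h3
  have e : ∀ w : ℤ × ℤ, ((l : ℤ) ∣ fv q w) = ((l : ℤ) ∣ fv q' w) := fun w =>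
    propext (na4b_fv h1 h2 h3 w)
  unfold Lf
  simp only [e]

theorem na4b_E1 (K : ℕ) (P Y : ℝ) (d l : ℕ) {a b : ℤ} (h : (l : ℤ) ∣ a - b) :
    E1 K P Y d l a = E1 K P Y d l b := by
  have e : ((l : ℤ) ∣ a) = ((l : ℤ) ∣ b) := propext (na4b_fst h)
  unfold E1
  simp only [e]

/-- NA4 -/
theorem per_Ef (p : Prm k) (X : ℕ) (f : ℕ × ℕ) (l : ℕ) : Per3 l (Ef p X f l) := by
  intro q q' h1 h2 h3
  unfold Ef
  rw [na4b_E1 k (PP X) (p.Y X) f.1 l h1, na4b_E1 k (PP X) (p.Y X) f.2 l h3]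

/-- NA4 -/
theorem per_PW {ι : Type} (s : Finset ι) (v : ι → ℤ × ℤ) (b : ι → ℝ) (l : ℕ) :
    Per3 l (PW s v b l) := by
  intro q q' h1 h2 h3
  have e : ∀ w : ℤ × ℤ, ((l : ℤ) ∣ fv q w) = ((l : ℤ) ∣ fv q' w) := fun w =>
    propext (na4b_fv h1 h2 h3 w)
  unfold PW
  simp only [e]

/-- NA4 -/
theorem per_Iv (p : Prm k) (X : ℕ) (u : Vec k) (l : ℕ) : Per3 l (Iv p X u l) := by
  unfold Iv
  exact per_PW _ _ _ _

theorem na4b_okf (P00 : ℕ) (u : Vec k) {q q' : ℤ × ℤ × ℤ} (h1 : (R0 P00 : ℤ) ∣ q.1 - q'.1)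
    (h2 : (R0 P00 : ℤ) ∣ q.2.1 - q'.2.1) (h3 : (R0 P00 : ℤ) ∣ q.2.2 - q'.2.2) :
    okf P00 u q = okf P00 u q' := by
  have hiff : (∀ l : ℕ, l.Prime → l % 4 = 1 → l ≤ P00 → ∀ j : Fin (k + 1), ¬ Even j.val →
      ¬ (l : ℤ) ∣ fv q (u j)) ↔ (∀ l : ℕ, l.Prime → l % 4 = 1 → l ≤ P00 →
      ∀ j : Fin (k + 1), ¬ Even j.val → ¬ (l : ℤ) ∣ fv q' (u j)) := by
    have hl : ∀ l : ℕ, l.Prime → l % 4 = 1 → l ≤ P00 → (l : ℤ) ∣ (R0 P00 : ℤ) := by
      intro l hp h4 hle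
      have h5 : l ∣ R0 P00 := by
        unfold R0
        exact Finset.dvd_prod_of_mem (fun l => l)
          (Finset.mem_filter.mpr ⟨Finset.mem_Icc.mpr ⟨hp.one_lt.le, hle⟩, hp, h4⟩)
      exact_mod_cast h5
    constructor
    · intro h l hp h4 hle j hj hd
      refine h l hp h4 hle j hj ?_
      have hl' := hl l hp h4 hle
      exact (na4b_fv (hl'.trans h1) (hl'.trans h2) (hl'.trans h3) (u j)).mpr hd
    · intro h l hp h4 hle j hj hd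
      refine h l hp h4 hle j hj ?_
      have hl' := hl l hp h4 hle
      exact (na4b_fv (hl'.trans h1) (hl'.trans h2) (hl'.trans h3) (u j)).mp hd
  by_cases hc : ∀ l : ℕ, l.Prime → l % 4 = 1 → l ≤ P00 → ∀ j : Fin (k + 1), ¬ Even j.val →
      ¬ (l : ℤ) ∣ fv q (u j)
  · have e1 : okf P00 u q = 1 := by
      unfold okf
      exact if_pos hc
    have e2 : okf P00 u q' = 1 := by
      unfold okf
      exact if_pos (hiff.mp hc)
    rw [e1, e2]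
  · have e1 : okf P00 u q = 0 := by
      unfold okf
      exact if_neg hc
    have e2 : okf P00 u q' = 0 := by
      unfold okf
      exact if_neg (fun h => hc (hiff.mpr h))
    rw [e1, e2]

/-- NA4 -/
theorem per_kap (p : Prm k) (X P00 : ℕ) (m : ℝ) (u u' : Vec k) :
    Per3 (R0 P00) (kap p X P00 m u u') := by
  intro q q' h1 h2 h3
  have hok : ∀ w : Vec k, okf P00 w q = okf P00 w q' := fun w => na4b_okf P00 w h1 h2 h3
  have hMp : ∀ f, Mp p X P00 q f = Mp p X P00 q' f := by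
    intro f
    unfold Mp gk
    simp only [hok]
  unfold kap
  rw [hok, hok, hMp, hMp]

end Pool.Agent.PATH.NC
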