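import Pool.Agent.Lib_helper88.NC.Defs

/-!
# NC, block NA8: the sum over the end factors
-/

set_option autoImplicit false

namespace Pool.Agent.PATH.NC

open Finset Pool.Agent.PENT Pool.Agent.PENT.EQ

variable {k : ℕ}

theorem na8_wdE (k : ℕ) (Y : ℝ) (j l : ℕ) : 0 ≤ wdE k Y j l ∧ wdE k Y j l ≤ 1 := by
  unfold wdE alE
  split_ifs <;> constructor <;> norm_num

theorem na8_wyV (k : ℕ) (P Y : ℝ) (j l : ℕ) : 0 ≤ wyV k P Y j l ∧ wyV k P Y j l ≤ 1 := by
  unfold wyV boV beV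
  split_ifs <;> constructor <;> norm_num

theorem na8_cm {g : ℕ → ℝ} (h : ∀ l, 0 ≤ g l) (m : ℕ) : 0 ≤ cm g m := by
  unfold cm Finsupp.prod
  exact prod_nonneg fun i _ => pow_nonneg (h i) _

open Classical in
/-- the primes of `a` in `(P, Y]` -/
noncomputable def na8S (P Y : ℝ) (a : ℕ) : Finset ℕ :=
  a.primeFactors.filter (fun l => l ≠ 2 ∧ P < (l : ℝ) ∧ (l : ℝ) ≤ Y)

/-- the weight of a divisor -/
theorem na8_term (k : ℕ) (P Y : ℝ) {a d : ℕ} (ha : a ≠ 0) (hd : Squarefree d)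
    (hp : ∀ l : ℕ, l.Prime → l ∣ d → l ≠ 2 ∧ P < (l : ℝ) ∧ (l : ℝ) ≤ Y) (hda : d ∣ a) :
    d.primeFactors ⊆ na8S P Y a ∧ cm (wdE k Y 0) d * cm (wyV k P Y 0) (a / d) ≤
      (∏ _l ∈ d.primeFactors, (3 / 8 : ℝ)) * ∏ _l ∈ na8S P Y a \ d.primeFactors, (5 / 8 : ℝ) := by
  classical
  have hsub : d.primeFactors ⊆ na8S P Y a := by
    intro l hl
    have hl1 := Nat.prime_of_mem_primeFactors hl
    have hl2 := Nat.dvd_of_mem_primeFactors hl
    simp only [na8S, mem_filter, Nat.mem_primeFactors]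
    exact ⟨⟨hl1, hl2.trans hda, ha⟩, hp l hl1 hl2⟩
  refine ⟨hsub, ?_⟩
  have h1 : cm (wdE k Y 0) d = ∏ _l ∈ d.primeFactors, (3 / 8 : ℝ) := by
    unfold cm Finsupp.prod
    rw [Nat.support_factorization]
    apply prod_congr rfl
    intro l hl
    have hl1 := Nat.prime_of_mem_primeFactors hl
    have hl2 := Nat.dvd_of_mem_primeFactors hl
    have e1 : d.factorization l = 1 := by
      apply le_antisymm
      · exact (Nat.squarefree_iff_factorization_le_one hd.ne_zero).1 hd l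
      · exact hl1.factorization_pos_of_dvd hd.ne_zero hl2
    rw [e1]
    simp only [pow_one, wdE, alE, if_pos (hp l hl1 hl2).2.2, true_or, if_true]
  have h2 : cm (wyV k P Y 0) (a / d) ≤ ∏ _l ∈ na8S P Y a \ d.primeFactors, (5 / 8 : ℝ) := by
    have had : a / d ≠ 0 := by
      have := Nat.div_pos (Nat.le_of_dvd (Nat.pos_of_ne_zero ha) hda) (Nat.pos_of_ne_zero hd.ne_zero)
      omega
    have hs2 : na8S P Y a \ d.primeFactors ⊆ (a / d).primeFactors := by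
      intro l hl
      simp only [na8S, mem_sdiff, mem_filter, Nat.mem_primeFactors] at hl
      obtain ⟨⟨⟨hl1, hl2, -⟩, -⟩, hl3⟩ := hl
      simp only [Nat.mem_primeFactors]
      refine ⟨hl1, ?_, had⟩
      have h4 : l ∣ d * (a / d) := by
        rw [Nat.mul_div_cancel' hda]
        exact hl2
      rcases (Nat.Prime.dvd_mul hl1).1 h4 with h5 | h5
      · exact absurd ⟨hl1, h5, hd.ne_zero⟩ hl3
      · exact h5
    unfold cm Finsupp.prod
    rw [Nat.support_factorization, ← prod_sdiff hs2]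
    have h5 : ∏ x ∈ (a / d).primeFactors \ (na8S P Y a \ d.primeFactors),
        wyV k P Y 0 x ^ (a / d).factorization x ≤ 1 :=
      prod_le_one (fun i _ => pow_nonneg (na8_wyV k P Y 0 i).1 _)
        fun i _ => pow_le_one₀ (na8_wyV k P Y 0 i).1 (na8_wyV k P Y 0 i).2
    have h6 : ∏ x ∈ na8S P Y a \ d.primeFactors, wyV k P Y 0 x ^ (a / d).factorization x ≤
        ∏ _l ∈ na8S P Y a \ d.primeFactors, (5 / 8 : ℝ) := by
      apply prod_le_prod (fun i _ => pow_nonneg (na8_wyV k P Y 0 i).1 _)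
      intro l hl
      have hl1 := hs2 hl
      have hv : 1 ≤ (a / d).factorization l :=
        (Nat.prime_of_mem_primeFactors hl1).factorization_pos_of_dvd had
          (Nat.dvd_of_mem_primeFactors hl1)
      simp only [na8S, mem_sdiff, mem_filter] at hl
      obtain ⟨⟨-, hl2, hl3, hl4⟩, -⟩ := hl
      have e : wyV k P Y 0 l = 5 / 8 := by
        simp only [wyV, beV, if_neg hl2, if_neg (not_le.2 hl3), if_pos hl4, true_or, if_true]
      rw [e]
      exact pow_le_of_le_one (by norm_num) (by norm_num) (by omega)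
    calc _ ≤ 1 * ∏ _l ∈ na8S P Y a \ d.primeFactors, (5 / 8 : ℝ) := by
          apply mul_le_mul h5 h6
          · exact prod_nonneg fun i _ => pow_nonneg (na8_wyV k P Y 0 i).1 _
          · norm_num
      _ = _ := one_mul _
  rw [h1]
  exact mul_le_mul_of_nonneg_left h2 (prod_nonneg fun _ _ => by norm_num)

/-- the sum over the divisors -/
theorem na8_one (k : ℕ) (P Y : ℝ) {a : ℕ} (ha : a ≠ 0) (D : Finset ℕ)
    (hD : ∀ d ∈ D, Squarefree d ∧ (∀ l : ℕ, l.Prime → l ∣ d → l ≠ 2 ∧ P < (l : ℝ) ∧ (l : ℝ) ≤ Y) ∧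
      d ∣ a) :
    ∑ d ∈ D, cm (wdE k Y 0) d * cm (wyV k P Y 0) (a / d) ≤ 1 := by
  classical
  have hinj : Set.InjOn (fun d : ℕ => d.primeFactors) (D : Set ℕ) := by
    intro d hd e he h
    have h1 := Nat.prod_primeFactors_of_squarefree (hD d hd).1
    have h2 := Nat.prod_primeFactors_of_squarefree (hD e he).1
    simp only at h
    rw [← h1, ← h2, h]
  calc ∑ d ∈ D, cm (wdE k Y 0) d * cm (wyV k P Y 0) (a / d)
      ≤ ∑ d ∈ D, (∏ _l ∈ d.primeFactors, (3 / 8 : ℝ)) *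
          ∏ _l ∈ na8S P Y a \ d.primeFactors, (5 / 8 : ℝ) := by
        apply sum_le_sum
        intro d hd
        obtain ⟨h1, h2, h3⟩ := hD d hd
        exact (na8_term k P Y ha h1 h2 h3).2
    _ = ∑ T ∈ D.image (fun d : ℕ => d.primeFactors), (∏ _l ∈ T, (3 / 8 : ℝ)) *
          ∏ _l ∈ na8S P Y a \ T, (5 / 8 : ℝ) := by
        rw [sum_image hinj]
    _ ≤ ∑ T ∈ (na8S P Y a).powerset, (∏ _l ∈ T, (3 / 8 : ℝ)) *
          ∏ _l ∈ na8S P Y a \ T, (5 / 8 : ℝ) := by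
        apply sum_le_sum_of_subset_of_nonneg
        · intro T hT
          obtain ⟨d, hd, rfl⟩ := mem_image.1 hT
          obtain ⟨h1, h2, h3⟩ := hD d hd
          exact mem_powerset.2 (na8_term k P Y ha h1 h2 h3).1
        · intro T _ _
          exact mul_nonneg (prod_nonneg fun _ _ => by norm_num) (prod_nonneg fun _ _ => by norm_num)
    _ = ∏ _l ∈ na8S P Y a, ((3 / 8 : ℝ) + 5 / 8) := (prod_add _ _ _).symm
    _ = 1 := by
        apply prod_eq_one
        intro l _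
        norm_num

/-- NA8: `∑ over all end factors ≤ 1`: `∑_{d ∣ a} al^ω(d) be^Ω(a/d) ≤ ∏_{l^v ∥ a} (be^v + al
be^(v-1)) ≤ 1` (primes in `(P, Y]`), and the same for `c` -/
theorem av_le_one {p : Prm k} {X : ℕ} {q : ℤ × ℤ × ℤ} (hq : q.1 * q.2.2 - q.2.1 ^ 2 = 1) :
    0 ≤ av p X q ∧ av p X q ≤ 1 := by
  classical
  have hA : ∀ a d : ℕ, 0 ≤ cm (wdE k (p.Y X) 0) d * cm (wyV k (PP X) (p.Y X) 0) (a / d) :=
    fun a d => mul_nonneg (na8_cm (fun l => (na8_wdE k _ _ l).1) _)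
      (na8_cm (fun l => (na8_wyV k _ _ _ l).1) _)
  have hw : ∀ f, wend p X q f = if (f.1 : ℤ) ∣ q.1 ∧ (f.2 : ℤ) ∣ q.2.2 then
      (cm (wdE k (p.Y X) 0) f.1 * cm (wyV k (PP X) (p.Y X) 0) (q.1.natAbs / f.1)) *
      (cm (wdE k (p.Y X) 0) f.2 * cm (wyV k (PP X) (p.Y X) 0) (q.2.2.natAbs / f.2)) else 0 := by
    intro f
    unfold wend
    split_ifs
    · ring
    · rfl
  have ha : q.1.natAbs ≠ 0 := by
    intro h
    rw [Int.natAbs_eq_zero] at h
    rw [h] at hq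
    nlinarith [sq_nonneg q.2.1]
  have hc : q.2.2.natAbs ≠ 0 := by
    intro h
    rw [Int.natAbs_eq_zero] at h
    rw [h] at hq
    nlinarith [sq_nonneg q.2.1]
  constructor
  · unfold av
    apply sum_nonneg
    intro f _
    rw [hw]
    split_ifs
    · exact mul_nonneg (hA _ _) (hA _ _)
    · exact le_rfl
  · set I := Icc 1 ⌊(X : ℝ) ^ p.ep⌋₊ with hI
    set D1 := I.filter (fun d => EF p X d ∧ (d : ℤ) ∣ q.1) with hD1
    set D2 := I.filter (fun d => EF p X d ∧ (d : ℤ) ∣ q.2.2) with hD2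
    have hEF : ∀ d : ℕ, EF p X d → Squarefree d ∧
        ∀ l : ℕ, l.Prime → l ∣ d → l ≠ 2 ∧ PP X < (l : ℝ) ∧ (l : ℝ) ≤ p.Y X := by
      intro d hd
      refine ⟨hd.dp.1, fun l hl hld => ⟨?_, (hd.dp.2 l hl hld).2, hd.sm l hl hld⟩⟩
      rintro rfl
      have := (hd.dp.2 2 hl hld).1
      omega
    have h1 : ∑ d ∈ D1, cm (wdE k (p.Y X) 0) d * cm (wyV k (PP X) (p.Y X) 0) (q.1.natAbs / d) ≤ 1 := by
      apply na8_one k _ _ ha
      intro d hd
      obtain ⟨-, hd1, hd2⟩ := mem_filter.1 hd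
      exact ⟨(hEF d hd1).1, (hEF d hd1).2, Int.natCast_dvd.1 hd2⟩
    have h2 : ∑ d ∈ D2, cm (wdE k (p.Y X) 0) d *
        cm (wyV k (PP X) (p.Y X) 0) (q.2.2.natAbs / d) ≤ 1 := by
      apply na8_one k _ _ hc
      intro d hd
      obtain ⟨-, hd1, hd2⟩ := mem_filter.1 hd
      exact ⟨(hEF d hd1).1, (hEF d hd1).2, Int.natCast_dvd.1 hd2⟩
    calc av p X q = ∑ f ∈ (Fac p X).filter (fun f => (f.1 : ℤ) ∣ q.1 ∧ (f.2 : ℤ) ∣ q.2.2),
          (cm (wdE k (p.Y X) 0) f.1 * cm (wyV k (PP X) (p.Y X) 0) (q.1.natAbs / f.1)) *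
          (cm (wdE k (p.Y X) 0) f.2 * cm (wyV k (PP X) (p.Y X) 0) (q.2.2.natAbs / f.2)) := by
          rw [sum_filter]
          exact sum_congr rfl fun f _ => hw f
      _ ≤ ∑ f ∈ D1 ×ˢ D2,
          (cm (wdE k (p.Y X) 0) f.1 * cm (wyV k (PP X) (p.Y X) 0) (q.1.natAbs / f.1)) *
          (cm (wdE k (p.Y X) 0) f.2 * cm (wyV k (PP X) (p.Y X) 0) (q.2.2.natAbs / f.2)) := by
          apply sum_le_sum_of_subset_of_nonneg
          · intro f hf
            obtain ⟨hf1, hf2, hf3⟩ := mem_filter.1 hf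
            obtain ⟨hf4, hf5, hf6, -⟩ := mem_filter.1 hf1
            obtain ⟨hf7, hf8⟩ := mem_product.1 hf4
            exact mem_product.2 ⟨mem_filter.2 ⟨hf7, hf5, hf2⟩, mem_filter.2 ⟨hf8, hf6, hf3⟩⟩
          · intro f _ _
            exact mul_nonneg (hA _ _) (hA _ _)
      _ = (∑ d ∈ D1, cm (wdE k (p.Y X) 0) d * cm (wyV k (PP X) (p.Y X) 0) (q.1.natAbs / d)) *
          ∑ d ∈ D2, cm (wdE k (p.Y X) 0) d *
            cm (wyV k (PP X) (p.Y X) 0) (q.2.2.natAbs / d) := by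
          rw [sum_product, sum_mul_sum]
      _ ≤ 1 * 1 := mul_le_mul h1 h2 (sum_nonneg fun d _ => hA _ d) (by norm_num)
      _ = 1 := one_mul 1

end Pool.Agent.PATH.NC
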