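import Pool.Agent.Lib_helper88.NC.Defs

/-!
# NC, block NL1: the mean (helper99)
-/

set_option autoImplicit false

namespace Pool.Agent.PATH.NC

open Finset Pool.Agent.PENT Pool.Agent.PENT.EQ

variable {k : ℕ}

/-- NL1 -/
theorem V3_pos {m : ℕ} (hm : 0 < m) : 0 < (V3 m).card := by
  rw [card_pos]
  rcases Nat.lt_or_ge m 2 with h | h
  · have h1 : m = 1 := by omega
    subst h1
    refine ⟨(0, 0, 0), ?_⟩
    unfold V3
    rw [mem_filter, mem_product, mem_product]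
    simp
  · have h2 : (2 : ℤ) ≤ m := by exact_mod_cast h
    refine ⟨(1, 0, 1), ?_⟩
    unfold V3
    rw [mem_filter, mem_product, mem_product, mem_Ico, mem_Ico]
    refine ⟨⟨⟨by norm_num, ?_⟩, ⟨le_rfl, ?_⟩, ⟨by norm_num, ?_⟩⟩, ?_⟩
    · change (1 : ℤ) < m
      omega
    · change (0 : ℤ) < m
      omega
    · change (1 : ℤ) < m
      omega
    · norm_num

/-- NL1 -/
theorem MV_mono' {m : ℕ} {h h' : ℤ × ℤ × ℤ → ℝ} (hh : ∀ v, h v ≤ h' v) :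
    MV m h ≤ MV m h' := by
  unfold MV
  exact div_le_div_of_nonneg_right (sum_le_sum fun v _ => hh v) (Nat.cast_nonneg _)

/-- NL1 -/
theorem MV_const' {m : ℕ} (hm : 0 < m) (c : ℝ) : MV m (fun _ => c) = c := by
  unfold MV
  have h : ((V3 m).card : ℝ) ≠ 0 := by
    have := V3_pos hm
    positivity
  rw [sum_const, nsmul_eq_mul]
  field_simp

/-- NL1 -/
theorem MV_add' {m : ℕ} (h h' : ℤ × ℤ × ℤ → ℝ) :
    MV m (fun v => h v + h' v) = MV m h + MV m h' := by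
  unfold MV
  rw [sum_add_distrib, add_div]

/-- NL1 -/
theorem MV_sub' {m : ℕ} (h h' : ℤ × ℤ × ℤ → ℝ) :
    MV m (fun v => h v - h' v) = MV m h - MV m h' := by
  unfold MV
  rw [sum_sub_distrib, sub_div]

/-- NL1 -/
theorem MV_smul' {m : ℕ} (c : ℝ) (h : ℤ × ℤ × ℤ → ℝ) :
    MV m (fun v => c * h v) = c * MV m h := by
  unfold MV
  rw [← mul_sum, mul_div_assoc]

/-- NL1 -/
theorem MV_sum' {m : ℕ} {ι : Type} (s : Finset ι) (h : ι → ℤ × ℤ × ℤ → ℝ) :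
    MV m (fun v => ∑ i ∈ s, h i v) = ∑ i ∈ s, MV m (h i) := by
  unfold MV
  rw [sum_comm, sum_div]

/-- NL1 -/
theorem MV_01 {m : ℕ} {h : ℤ × ℤ × ℤ → ℝ} (hh : ∀ v, 0 ≤ h v ∧ h v ≤ 1) :
    0 ≤ MV m h ∧ MV m h ≤ 1 := by
  unfold MV
  refine ⟨div_nonneg (sum_nonneg fun v _ => (hh v).1) (Nat.cast_nonneg _), ?_⟩
  refine div_le_one_of_le₀ ?_ (Nat.cast_nonneg _)
  calc ∑ v ∈ V3 m, h v ≤ ∑ v ∈ V3 m, (1 : ℝ) := sum_le_sum fun v _ => (hh v).2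
    _ = ((V3 m).card : ℝ) := by rw [sum_const, nsmul_eq_mul, mul_one]

end Pool.Agent.PATH.NC
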