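import Pool.Agent.Lib_helper88.NC.Defs
import Pool.Agent.Lib_helper88.NCF.NA1
import Pool.Agent.Lib_helper88.NCF.NA2
import Pool.Agent.Lib_helper88.NCF.NL1

/-!
# NC, block NA9: finite products and sums (helper82)
-/

set_option autoImplicit false

namespace Pool.Agent.PATH.NC

open Finset Pool.Agent.PENT Pool.Agent.PENT.EQ

variable {k : ℕ}

/-- the primes beyond `Y` have no interior factor -/
theorem na9_one (p : Prm k) (X : ℕ) (u : Vec k) {l : ℕ} (hl : l.Prime) (h2 : l ≠ 2)
    (hP : PP X < l) (hY : p.Y X < l) : MV l (Iv p X u l) = 1 := by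
  have e : Iv p X u l = fun _ => (1 : ℝ) := by
    funext q
    unfold Iv PW
    apply prod_eq_one
    intro j _
    have : wyV k (PP X) (p.Y X) j.val l = 1 := by
      unfold wyV
      rw [if_neg h2, if_neg (not_le.mpr hP), if_neg (not_le.mpr hY)]
    simp only [this, ite_self]
  rw [e]
  exact MV_const' hl.pos 1

/-- NA9: `g(u;q)` as a product over `Sall` -/
theorem gk_eq {p : Prm k} {X P00 : ℕ} (hk : 4 ≤ k) (hP : (P00 : ℝ) ≤ PP X) (hP2 : 2 ≤ P00)
    {u u' : Vec k} (hu : GP p X u) (hu' : GP p X u') (q : ℤ × ℤ × ℤ) :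
    gk p X P00 q u = okf P00 u q * ∏ l ∈ Sall p X P00 u u', gl p X u l := by
  obtain ⟨hD, -, hDpos⟩ := hu.Dall_eq (by omega)
  obtain ⟨-, -, hDpos'⟩ := hu'.Dall_eq (by omega)
  have hint : Dint u ∣ Dall u := by rw [hD]; exact dvd_mul_left _ _
  have hI0 : Dint u ≠ 0 := by
    intro h
    rw [hD, h, mul_zero] at hDpos
    exact lt_irrefl _ hDpos
  have hDD0 : Dall u * Dall u' ≠ 0 := (Nat.mul_pos hDpos hDpos').ne'
  have hpr : ∀ l ∈ Sall p X P00 u u', l.Prime := by
    intro l hl
    unfold Sall at hl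
    rw [mem_union] at hl
    rcases hl with hl | hl
    · unfold Spr at hl
      rw [mem_filter] at hl
      exact hl.2.1
    · exact Nat.prime_of_mem_primeFactors hl
  unfold gk
  congr 1
  -- the interior primes
  have h1 : (Sall p X P00 u u').filter (fun l => l ∣ Dint u) = (Dint u).primeFactors := by
    ext l
    rw [mem_filter, Nat.mem_primeFactors]
    constructor
    · rintro ⟨hl, hd⟩
      exact ⟨hpr l hl, hd, hI0⟩
    · rintro ⟨hl, hd, -⟩
      refine ⟨?_, hd⟩
      unfold Sall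
      rw [mem_union]
      right
      rw [Nat.mem_primeFactors]
      exact ⟨hl, (hd.trans hint).trans (dvd_mul_right _ _), hDD0⟩
  rw [← prod_filter_mul_prod_filter_not (Sall p X P00 u u') (fun l => l ∣ Dint u), h1]
  congr 1
  · unfold gD
    apply prod_congr rfl
    intro l hl
    have hd : l ∣ Dint u := Nat.dvd_of_mem_primeFactors hl
    unfold gl
    rw [if_pos hd]
  · -- the other primes
    have h2 : ∏ l ∈ (Sall p X P00 u u').filter (fun l => ¬ l ∣ Dint u), gl p X u l =
        ∏ l ∈ (Sall p X P00 u u').filter (fun l => ¬ l ∣ Dall u), MV l (Iv p X u l) := by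
      have hs : (Sall p X P00 u u').filter (fun l => ¬ l ∣ Dall u) ⊆
          (Sall p X P00 u u').filter (fun l => ¬ l ∣ Dint u) := by
        intro l hl
        rw [mem_filter] at hl ⊢
        exact ⟨hl.1, fun h => hl.2 (h.trans hint)⟩
      rw [← prod_subset hs]
      · apply prod_congr rfl
        intro l hl
        rw [mem_filter] at hl
        unfold gl
        rw [if_neg (fun h => hl.2 (h.trans hint)), if_neg hl.2]
      · intro l hl hl'
        rw [mem_filter] at hl hl'
        have hd : l ∣ Dall u := by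
          by_contra h
          exact hl' ⟨hl.1, h⟩
        unfold gl
        rw [if_neg hl.2, if_pos hd]
    rw [h2]
    unfold gS
    have hs : (Spr P00 (p.Y X)).filter (fun l => ¬ l ∣ Dall u) ⊆
        (Sall p X P00 u u').filter (fun l => ¬ l ∣ Dall u) := by
      intro l hl
      rw [mem_filter] at hl ⊢
      refine ⟨?_, hl.2⟩
      unfold Sall
      exact mem_union_left _ hl.1
    apply prod_subset hs
    intro l hl hl'
    rw [mem_filter] at hl hl'
    have hns : l ∉ Spr P00 (p.Y X) := fun h => hl' ⟨h, hl.2⟩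
    have hlp := hpr l hl.1
    have hm : l ∈ (Dall u * Dall u').primeFactors := by
      have := hl.1
      unfold Sall at this
      rw [mem_union] at this
      exact this.resolve_left hns
    have hd' : l ∣ Dall u' := by
      have := Nat.dvd_of_mem_primeFactors hm
      exact (hlp.dvd_mul.mp this).resolve_left hl.2
    obtain ⟨h4, hPl⟩ := hu'.prime_Dall hlp hd'
    have hYl : p.Y X < l := by
      by_contra h
      push Not at h
      apply hns
      unfold Spr
      rw [mem_filter, mem_Ioc]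
      refine ⟨⟨?_, ?_⟩, hlp, h4⟩
      · exact_mod_cast hP.trans_lt hPl
      · exact Nat.le_floor h
    exact na9_one p X u hlp (by omega) hPl hYl

/-- NA9: `a(q) = ∑ G_u(q)` -/
theorem sum_Gn {p : Prm k} {X P00 : ℕ} (hc : 0 < p.c1) (hk : 4 ≤ k) {q : ℤ × ℤ × ℤ}
    (hM : ∀ f ∈ Fac p X, 0 < Mp p X P00 q f) : ∑ u ∈ GS p X, Gn p X P00 q u = av p X q := by
  have hmap : ∀ u ∈ GS p X, fE u ∈ Fac p X := by
    intro u hu
    exact ((mem_GS hc).mp hu).fE_mem (by omega)
  rw [← sum_fiberwise_of_maps_to hmap (fun u => Gn p X P00 q u)]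
  unfold av
  apply sum_congr rfl
  intro f hf
  have h1 : ∑ u ∈ (GS p X).filter (fun u => fE u = f), Gn p X P00 q u =
      ∑ u ∈ (GS p X).filter (fun u => fE u = f),
        wend p X q f / Mp p X P00 q f * gk p X P00 q u := by
    apply sum_congr rfl
    intro u hu
    rw [mem_filter] at hu
    unfold Gn
    rw [hu.2]
    ring
  rw [h1, ← mul_sum]
  have h2 : ∑ u ∈ (GS p X).filter (fun u => fE u = f), gk p X P00 q u = Mp p X P00 q f := rfl
  rw [h2]
  exact div_mul_cancel₀ _ (hM f hf).ne'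

theorem na9_okf (P00 : ℕ) (u : Vec k) (q : ℤ × ℤ × ℤ) : 0 ≤ okf P00 u q ∧ okf P00 u q ≤ 1 := by
  unfold okf
  split_ifs <;> norm_num

/-- NA9: `kap` is what it should be for forms of determinant one -/
theorem kap_eq {p : Prm k} {X P00 : ℕ} (hc : 0 < p.c1) (hk : 4 ≤ k) {m : ℝ} (hm : 0 < m)
    {q : ℤ × ℤ × ℤ} (hM : ∀ f ∈ Fac p X, m ≤ Mp p X P00 q f) {u u' : Vec k} (hu : GP p X u)
    (hu' : GP p X u') :
    kap p X P00 m u u' q =
      m ^ 2 * (okf P00 u q * okf P00 u' q / (Mp p X P00 q (fE u) * Mp p X P00 q (fE u'))) := by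
  unfold kap
  apply min_eq_right
  have h1 := hM _ (hu.fE_mem (by omega))
  have h2 := hM _ (hu'.fE_mem (by omega))
  obtain ⟨a0, a1⟩ := na9_okf P00 u q
  obtain ⟨b0, b1⟩ := na9_okf P00 u' q
  have hM1 : 0 < Mp p X P00 q (fE u) := hm.trans_le h1
  have hM2 : 0 < Mp p X P00 q (fE u') := hm.trans_le h2
  rw [← mul_div_assoc, div_le_one (mul_pos hM1 hM2)]
  calc m ^ 2 * (okf P00 u q * okf P00 u' q) ≤ m ^ 2 * 1 :=
        mul_le_mul_of_nonneg_left (mul_le_one₀ a1 b0 b1) (sq_nonneg m)
    _ = m * m := by ring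
    _ ≤ Mp p X P00 q (fE u) * Mp p X P00 q (fE u') := mul_le_mul h1 h2 hm.le hM1.le

end Pool.Agent.PATH.NC
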