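import Pool.Agent.Lib_helper88.NC.Defs
import Pool.Agent.Lib_helper88.NCF.NA4
import Pool.Agent.Lib_helper88.NCF.NA8
import Pool.Agent.Lib_helper88.NC.Pr4

/-!
# NC, block NE1: the ends, pointwise (helper47)
-/

set_option autoImplicit false

namespace Pool.Agent.PATH.NC

open Finset Pool.Agent.PENT Pool.Agent.PENT.EQ

variable {k : ℕ}

theorem ne1_cm_mul (g : ℕ → ℝ) {m n : ℕ} (hm : m ≠ 0) (hn : n ≠ 0) :
    cm g (m * n) = cm g m * cm g n := by
  unfold cm
  rw [Nat.factorization_mul hm hn]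
  exact Finsupp.prod_add_index' (fun _ => pow_zero _) (fun _ _ _ => pow_add _ _ _)

theorem ne1_cm_prime (g : ℕ → ℝ) {l : ℕ} (hl : l.Prime) : cm g l = g l := by
  unfold cm
  rw [hl.factorization, Finsupp.prod_single_index]
  · rw [pow_one]
  · exact pow_zero _

theorem ne1_cm_prod (g : ℕ → ℝ) (T : Finset ℕ) (hT : ∀ l ∈ T, l.Prime) :
    cm g (∏ l ∈ T, l) = ∏ l ∈ T, g l := by
  classical
  induction T using Finset.induction_on with
  | empty => simp [cm]
  | insert a s ha ih =>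
    have h1 : a.Prime := hT a (Finset.mem_insert_self a s)
    have h2 : ∀ l ∈ s, l.Prime := fun l hl => hT l (Finset.mem_insert_of_mem hl)
    rw [Finset.prod_insert ha, Finset.prod_insert ha, ne1_cm_mul g h1.ne_zero
      (Finset.prod_ne_zero_iff.2 fun l hl => (h2 l hl).ne_zero), ih h2, ne1_cm_prime g h1]

/-- the weight of a subset -/
noncomputable def ne1_w (S T : Finset ℕ) : ℝ := (∏ _l ∈ T, (3 / 8 : ℝ)) * ∏ _l ∈ S \ T, (5 / 8 : ℝ)

theorem ne1_w_nonneg (S T : Finset ℕ) : 0 ≤ ne1_w S T := by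
  unfold ne1_w
  positivity

theorem ne1_sum_all (S : Finset ℕ) : ∑ T ∈ S.powerset, ne1_w S T = 1 := by
  unfold ne1_w
  rw [← Finset.prod_add]
  apply Finset.prod_eq_one
  intro l _
  norm_num

open Classical in
theorem ne1_sum_disj (S B : Finset ℕ) :
    ∑ T ∈ S.powerset, (if Disjoint T B then ne1_w S T else 0) =
      ∏ l ∈ S, if l ∈ B then (5 / 8 : ℝ) else 1 := by
  have e : ∏ l ∈ S, (if l ∈ B then (5 / 8 : ℝ) else 1) =
      ∏ l ∈ S, ((if l ∈ B then (0 : ℝ) else 3 / 8) + 5 / 8) := by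
    apply Finset.prod_congr rfl
    intro l _
    split_ifs <;> norm_num
  rw [e, Finset.prod_add]
  apply Finset.sum_congr rfl
  intro T _
  unfold ne1_w
  split_ifs with h
  · congr 1
    apply Finset.prod_congr rfl
    intro l hl
    rw [if_neg (Finset.disjoint_left.1 h hl)]
  · rw [Finset.not_disjoint_iff] at h
    obtain ⟨l, h1, h2⟩ := h
    rw [Finset.prod_eq_zero h1 (by rw [if_pos h2]), zero_mul]

/-- one side: the subsets with a product outside of the window -/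
theorem ne1_side (S : Finset ℕ) (hS : ∀ l ∈ S, l.Prime) {X : ℕ} (hX : 3 ≤ X) {em ep : ℝ}
    (hep : 0 < ep) (bad : Finset ℕ → ℝ)
    (hbad : ∀ T ⊆ S, bad T ≤ 1 ∧ ((X : ℝ) ^ em ≤ ((∏ l ∈ T, l : ℕ) : ℝ) →
      ((∏ l ∈ T, l : ℕ) : ℝ) ≤ (X : ℝ) ^ ep → bad T ≤ 0)) :
    ∑ T ∈ S.powerset, ne1_w S T * bad T ≤ (∑ l ∈ S, Real.log l) / (ep * Real.log X) +
      ∏ l ∈ S, if (X : ℝ) ^ em < l then (5 / 8 : ℝ) else 1 := by
  classical
  have hX1 : (1 : ℝ) < X := by exact_mod_cast (show 1 < X by omega)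
  have hlX : 0 < Real.log X := Real.log_pos hX1
  have hL : 0 < ep * Real.log X := mul_pos hep hlX
  have hlog : ∀ l ∈ S, 0 ≤ Real.log (l : ℝ) := fun l hl => Real.log_natCast_nonneg l
  set B := S.filter (fun l : ℕ => (X : ℝ) ^ em < (l : ℝ)) with hB
  have e1 : ∏ l ∈ S, (if (X : ℝ) ^ em < l then (5 / 8 : ℝ) else 1) =
      ∏ l ∈ S, if l ∈ B then (5 / 8 : ℝ) else 1 := by
    apply Finset.prod_congr rfl
    intro l hl
    have : l ∈ B ↔ (X : ℝ) ^ em < (l : ℝ) := by
      rw [hB, Finset.mem_filter]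
      exact ⟨fun h => h.2, fun h => ⟨hl, h⟩⟩
    simp only [this]
  have e2 : (∑ l ∈ S, Real.log l) / (ep * Real.log X) =
      ∑ T ∈ S.powerset, ne1_w S T * ((∑ l ∈ S, Real.log l) / (ep * Real.log X)) := by
    rw [← Finset.sum_mul, ne1_sum_all, one_mul]
  rw [e1, ← ne1_sum_disj, e2, ← Finset.sum_add_distrib]
  apply Finset.sum_le_sum
  intro T hT
  have hTS : T ⊆ S := Finset.mem_powerset.1 hT
  have hw := ne1_w_nonneg S T
  obtain ⟨b1, b2⟩ := hbad T hTS
  have hsum0 : 0 ≤ (∑ l ∈ S, Real.log (l : ℝ)) / (ep * Real.log X) :=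
    div_nonneg (Finset.sum_nonneg hlog) hL.le
  by_cases h1 : (X : ℝ) ^ em ≤ ((∏ l ∈ T, l : ℕ) : ℝ)
  · by_cases h2 : ((∏ l ∈ T, l : ℕ) : ℝ) ≤ (X : ℝ) ^ ep
    · have h3 := b2 h1 h2
      have h4 : ne1_w S T * bad T ≤ 0 := mul_nonpos_of_nonneg_of_nonpos hw h3
      have h5 : 0 ≤ ne1_w S T * ((∑ l ∈ S, Real.log (l : ℝ)) / (ep * Real.log X)) :=
        mul_nonneg hw hsum0
      have h6 : 0 ≤ (if Disjoint T B then ne1_w S T else 0) := by
        split_ifs
        · exact hw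
        · exact le_rfl
      linarith
    · rw [not_le] at h2
      have h3 : ep * Real.log X ≤ ∑ l ∈ S, Real.log (l : ℝ) := by
        have h4 : Real.log ((X : ℝ) ^ ep) ≤ Real.log ((∏ l ∈ T, l : ℕ) : ℝ) :=
          Real.log_le_log (Real.rpow_pos_of_pos (by linarith) _) h2.le
        rw [Real.log_rpow (by linarith), Nat.cast_prod, Real.log_prod (fun l hl => by
          exact_mod_cast (hS l (hTS hl)).ne_zero)] at h4
        exact h4.trans (Finset.sum_le_sum_of_subset_of_nonneg hTS fun l hl _ => hlog l hl)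
      have h4 : 1 ≤ (∑ l ∈ S, Real.log (l : ℝ)) / (ep * Real.log X) := by
        rw [le_div_iff₀ hL, one_mul]
        exact h3
      have h6 : 0 ≤ (if Disjoint T B then ne1_w S T else 0) := by
        split_ifs
        · exact hw
        · exact le_rfl
      have h7 : ne1_w S T * bad T ≤
          ne1_w S T * ((∑ l ∈ S, Real.log (l : ℝ)) / (ep * Real.log X)) :=
        mul_le_mul_of_nonneg_left (b1.trans h4) hw
      linarith
  · rw [not_le] at h1
    have hd : Disjoint T B := by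
      rw [Finset.disjoint_left]
      intro l hl hlB
      rw [hB, Finset.mem_filter] at hlB
      have h3 : l ≤ ∏ l ∈ T, l :=
        Nat.le_of_dvd (Finset.prod_pos fun m hm => (hS m (hTS hm)).pos) (Finset.dvd_prod_of_mem _ hl)
      have h4 : (l : ℝ) ≤ ((∏ l ∈ T, l : ℕ) : ℝ) := by exact_mod_cast h3
      linarith [hlB.2]
    rw [if_pos hd]
    have h7 : ne1_w S T * bad T ≤ ne1_w S T * 1 := mul_le_mul_of_nonneg_left b1 hw
    have h5 : 0 ≤ ne1_w S T * ((∑ l ∈ S, Real.log (l : ℝ)) / (ep * Real.log X)) :=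
      mul_nonneg hw hsum0
    linarith

theorem ne1_pr4 {A B : ℝ} {l : ℕ} : l ∈ pr4 A B ↔ l.Prime ∧ l % 4 = 1 ∧ A < (l : ℝ) ∧ (l : ℝ) ≤ B := by
  unfold pr4
  rw [Finset.mem_filter, Finset.mem_Icc]
  constructor
  · rintro ⟨⟨h1, h2⟩, h3, h4, h5⟩
    refine ⟨h3, h4, h5, ?_⟩
    have hB : 0 ≤ B := by
      by_contra hB
      rw [Nat.floor_of_nonpos (by linarith)] at h2
      omega
    exact (Nat.le_floor_iff hB).1 h2
  · rintro ⟨h3, h4, h5, h6⟩
    exact ⟨⟨h3.one_le, Nat.le_floor h6⟩, h3, h4, h5⟩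

/-- the primes of a divisor of `b ^ 2 + 1` -/
theorem ne1_mod4 {a b c : ℤ} (h : a * c - b ^ 2 = 1) {l : ℕ} (hl : l.Prime) (hla : (l : ℤ) ∣ a) :
    l = 2 ∨ l % 4 = 1 := by
  rcases hl.eq_two_or_odd with h2 | h2
  · exact Or.inl h2
  · right
    have : Fact l.Prime := ⟨hl⟩
    have h3 : l % 4 ≠ 3 := by
      apply ZMod.mod_four_ne_three_of_sq_eq_neg_one (y := (b : ZMod l))
      have h4 : ((a * c - b ^ 2 : ℤ) : ZMod l) = 1 := by
        rw [h]
        simp
      have h5 : ((a : ℤ) : ZMod l) = 0 := (ZMod.intCast_zmod_eq_zero_iff_dvd a l).2 hla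
      push_cast at h4
      rw [h5] at h4
      linear_combination -h4
    omega

/-- the weights of one end -/
theorem ne1_end {P Y : ℝ} {a b c : ℤ} (h : a * c - b ^ 2 = 1)
    (hsq : ∀ l ∈ pr4 P Y, ¬ ((l : ℤ) ^ 2) ∣ a) (S : Finset ℕ)
    (hS : ∀ l, l ∈ S ↔ l ∈ pr4 P Y ∧ (l : ℤ) ∣ a) (T : Finset ℕ) (hT : T ⊆ S) :
    (((∏ l ∈ T, l : ℕ) : ℤ) ∣ a) ∧
      cm (wdE k Y 0) (∏ l ∈ T, l) * cm (wyV k P Y 0) (a.natAbs / ∏ l ∈ T, l) = ne1_w S T := by
  classical
  have ha : a ≠ 0 := by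
    rintro rfl
    nlinarith [sq_nonneg b]
  have hA : a.natAbs ≠ 0 := Int.natAbs_ne_zero.2 ha
  have hSp : ∀ l ∈ S, l.Prime := fun l hl => (ne1_pr4.1 ((hS l).1 hl).1).1
  have hTp : ∀ l ∈ T, l.Prime := fun l hl => hSp l (hT hl)
  have hSsub : S ⊆ a.natAbs.primeFactors := by
    intro l hl
    rw [Nat.mem_primeFactors]
    exact ⟨hSp l hl, Int.natCast_dvd.1 ((hS l).1 hl).2, hA⟩
  have hdvd : (∏ l ∈ T, l) ∣ a.natAbs :=
    (Finset.prod_dvd_prod_of_subset _ _ _ (hT.trans hSsub)).trans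
      (Nat.prod_primeFactors_dvd a.natAbs)
  refine ⟨Int.natCast_dvd.2 hdvd, ?_⟩
  have hwd : ∀ l ∈ S, wdE k Y 0 l = 3 / 8 := by
    intro l hl
    have h1 := ne1_pr4.1 ((hS l).1 hl).1
    unfold wdE alE
    rw [if_pos h1.2.2.2, if_pos (Or.inl rfl)]
  have hwy : ∀ l ∈ S, wyV k P Y 0 l = 5 / 8 := by
    intro l hl
    have h1 := ne1_pr4.1 ((hS l).1 hl).1
    unfold wyV beV
    have h2 : l ≠ 2 := by
      rintro rfl
      omega
    rw [if_neg h2, if_neg (not_le.2 h1.2.2.1), if_pos h1.2.2.2, if_pos (Or.inl rfl)]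
  have hcA : cm (wyV k P Y 0) a.natAbs = ∏ _l ∈ S, (5 / 8 : ℝ) := by
    unfold cm
    rw [Finsupp.prod, Nat.support_factorization]
    symm
    rw [← Finset.prod_subset hSsub (f := fun l => wyV k P Y 0 l ^ a.natAbs.factorization l)]
    · apply Finset.prod_congr rfl
      intro l hl
      have h1 := (hS l).1 hl
      have h2 : a.natAbs.factorization l = 1 := by
        have h3 : 1 ≤ a.natAbs.factorization l :=
          (hSp l hl).dvd_iff_one_le_factorization hA |>.1 (Int.natCast_dvd.1 h1.2)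
        have h4 : ¬ 2 ≤ a.natAbs.factorization l := by
          intro h5
          have h6 := ((hSp l hl).pow_dvd_iff_le_factorization hA).2 h5
          apply hsq l h1.1
          have h7 : (((l ^ 2 : ℕ)) : ℤ) ∣ a := Int.natCast_dvd.2 h6
          push_cast at h7
          exact h7
        omega
      rw [h2, pow_one, hwy l hl]
    · intro l hl hlS
      have h1 : l.Prime := Nat.prime_of_mem_primeFactors hl
      have h2 : (l : ℤ) ∣ a := Int.natCast_dvd.2 (Nat.dvd_of_mem_primeFactors hl)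
      have h3 : wyV k P Y 0 l = 1 := by
        unfold wyV
        split_ifs with h4 h5 h6
        · rfl
        · simp [boV]
        · exfalso
          apply hlS
          rw [hS l, ne1_pr4]
          refine ⟨⟨h1, ?_, not_le.1 h5, h6⟩, h2⟩
          rcases ne1_mod4 h h1 h2 with h7 | h7
          · exact absurd h7 h4
          · exact h7
        · rfl
      rw [h3, one_pow]
  have hprod0 : (∏ l ∈ T, l) ≠ 0 := Finset.prod_ne_zero_iff.2 fun l hl => (hTp l hl).ne_zero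
  have hq0 : a.natAbs / (∏ l ∈ T, l) ≠ 0 := by
    intro h0
    apply hA
    rw [← Nat.mul_div_cancel' hdvd, h0, mul_zero]
  have e1 := ne1_cm_mul (wyV k P Y 0) hprod0 hq0
  rw [Nat.mul_div_cancel' hdvd, hcA, ne1_cm_prod _ T hTp] at e1
  have e2 : ∏ l ∈ T, wyV k P Y 0 l = ∏ _l ∈ T, (5 / 8 : ℝ) :=
    Finset.prod_congr rfl fun l hl => hwy l (hT hl)
  have e3 : ∏ l ∈ T, wdE k Y 0 l = ∏ _l ∈ T, (3 / 8 : ℝ) :=
    Finset.prod_congr rfl fun l hl => hwd l (hT hl)
  rw [e2, ← Finset.prod_sdiff hT] at e1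
  have h0 : (∏ _l ∈ T, (5 / 8 : ℝ)) ≠ 0 := by positivity
  have e4 : cm (wyV k P Y 0) (a.natAbs / ∏ l ∈ T, l) = ∏ _l ∈ S \ T, (5 / 8 : ℝ) := by
    apply mul_left_cancel₀ h0
    rw [← e1, mul_comm]
  rw [e4, ne1_cm_prod _ T hTp, e3]
  rfl

theorem ne1_conv {P Y M : ℝ} (hPM : P ≤ M) (a : ℤ) (S : Finset ℕ)
    (hS : ∀ l, l ∈ S ↔ l ∈ pr4 P Y ∧ (l : ℤ) ∣ a) :
    ∏ l ∈ pr4 M Y, (if (l : ℤ) ∣ a then (5 / 8 : ℝ) else 1) =
      ∏ l ∈ S, if M < (l : ℝ) then (5 / 8 : ℝ) else 1 := by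
  classical
  rw [← Finset.prod_filter, ← Finset.prod_filter]
  have : (pr4 M Y).filter (fun l : ℕ => (l : ℤ) ∣ a) = S.filter (fun l : ℕ => M < (l : ℝ)) := by
    ext l
    rw [Finset.mem_filter, Finset.mem_filter, hS l, ne1_pr4, ne1_pr4]
    constructor
    · rintro ⟨⟨h1, h2, h3, h4⟩, h5⟩
      exact ⟨⟨⟨h1, h2, lt_of_le_of_lt hPM h3, h4⟩, h5⟩, h3⟩
    · rintro ⟨⟨⟨h1, h2, h3, h4⟩, h5⟩, h6⟩
      exact ⟨⟨h1, h2, h6, h4⟩, h5⟩
  rw [this]

open Classical in
/-- NE1: the ends, pointwise -/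
theorem av_low {p : Prm k} {X : ℕ} (hp : p.Ok 1) (hk4 : 4 ≤ k) (hX : 3 ≤ X)
    (hP : PP X ≤ (X : ℝ) ^ p.em) {q : ℤ × ℤ × ℤ} (hq : q.1 * q.2.2 - q.2.1 ^ 2 = 1) :
    1 - av p X q ≤
      (∑ l ∈ pr4 (PP X) (p.Y X), ((if ((l : ℤ) ^ 2) ∣ q.1 then (1 : ℝ) else 0) +
        (if ((l : ℤ) ^ 2) ∣ q.2.2 then (1 : ℝ) else 0) +
        (if (l : ℤ) ∣ q.1 ∧ (l : ℤ) ∣ q.2.2 then (1 : ℝ) else 0))) +
      (∑ l ∈ pr4 (PP X) (p.Y X), ((if (l : ℤ) ∣ q.1 then Real.log l else 0) +
        (if (l : ℤ) ∣ q.2.2 then Real.log l else 0))) / (p.ep * Real.log X) +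
      ((∏ l ∈ pr4 ((X : ℝ) ^ p.em) (p.Y X), if (l : ℤ) ∣ q.1 then (5 / 8 : ℝ) else 1) +
        ∏ l ∈ pr4 ((X : ℝ) ^ p.em) (p.Y X), if (l : ℤ) ∣ q.2.2 then (5 / 8 : ℝ) else 1) := by
  have hX1 : (1 : ℝ) < X := by exact_mod_cast (show 1 < X by omega)
  have hlX : 1 < Real.log X := by
    have h1 : Real.exp 1 < X := by
      have h2 := Real.exp_one_lt_d9
      have h3 : (3 : ℝ) ≤ X := by exact_mod_cast hX
      linarith
    rw [← Real.log_exp 1]
    exact Real.log_lt_log (Real.exp_pos 1) h1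
  have hep : 0 < p.ep := by
    have h1 := hp.ew0
    have h2 := hp.ew1 ⟨2, by omega⟩ le_rfl (by simp; omega)
    have h3 := hp.even ⟨2, by omega⟩ le_rfl (by simp; omega) (by simp)
    have h4 := hp.em_ta
    have h5 := hp.ta_ep
    linarith
  have hL : 0 < p.ep * Real.log X := by positivity
  set S1 := pr4 (PP X) (p.Y X) with hS1
  have hlog : ∀ l ∈ S1, (0 : ℝ) ≤ (if (l : ℤ) ∣ q.1 then Real.log l else 0) +
      (if (l : ℤ) ∣ q.2.2 then Real.log l else 0) := by
    intro l _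
    have := Real.log_natCast_nonneg l
    split_ifs <;> linarith
  have hB0 : 0 ≤ (∑ l ∈ S1, ((if (l : ℤ) ∣ q.1 then Real.log l else 0) +
      (if (l : ℤ) ∣ q.2.2 then Real.log l else 0))) / (p.ep * Real.log X) :=
    div_nonneg (Finset.sum_nonneg hlog) hL.le
  have hC1 : 0 ≤ (∏ l ∈ pr4 ((X : ℝ) ^ p.em) (p.Y X), if (l : ℤ) ∣ q.1 then (5 / 8 : ℝ) else 1) :=
    Finset.prod_nonneg fun l _ => by split_ifs <;> norm_num
  have hC2 : 0 ≤ (∏ l ∈ pr4 ((X : ℝ) ^ p.em) (p.Y X),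
      if (l : ℤ) ∣ q.2.2 then (5 / 8 : ℝ) else 1) :=
    Finset.prod_nonneg fun l _ => by split_ifs <;> norm_num
  have hA0 : ∀ l ∈ S1, (0 : ℝ) ≤ ((if ((l : ℤ) ^ 2) ∣ q.1 then (1 : ℝ) else 0) +
        (if ((l : ℤ) ^ 2) ∣ q.2.2 then (1 : ℝ) else 0) +
        (if (l : ℤ) ∣ q.1 ∧ (l : ℤ) ∣ q.2.2 then (1 : ℝ) else 0)) := by
    intro l _
    split_ifs <;> norm_num
  have hav0 : 0 ≤ av p X q := (av_le_one hq).1
  by_cases hsq : ∃ l ∈ S1, ((l : ℤ) ^ 2) ∣ q.1 ∨ ((l : ℤ) ^ 2) ∣ q.2.2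
  · obtain ⟨l, hl, h1⟩ := hsq
    have h2 : (1 : ℝ) ≤ ((if ((l : ℤ) ^ 2) ∣ q.1 then (1 : ℝ) else 0) +
        (if ((l : ℤ) ^ 2) ∣ q.2.2 then (1 : ℝ) else 0) +
        (if (l : ℤ) ∣ q.1 ∧ (l : ℤ) ∣ q.2.2 then (1 : ℝ) else 0)) := by
      rcases h1 with h1 | h1
      · rw [if_pos h1]
        split_ifs <;> norm_num
      · rw [if_pos h1]
        split_ifs <;> norm_num
    have h3 := h2.trans (Finset.single_le_sum hA0 hl)
    linarith
  · have hsq1 : ∀ l ∈ S1, ¬ ((l : ℤ) ^ 2) ∣ q.1 := fun l hl h => hsq ⟨l, hl, Or.inl h⟩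
    have hsq2 : ∀ l ∈ S1, ¬ ((l : ℤ) ^ 2) ∣ q.2.2 := fun l hl h => hsq ⟨l, hl, Or.inr h⟩
    set SA := S1.filter (fun l : ℕ => (l : ℤ) ∣ q.1) with hSA
    set SC := S1.filter (fun l : ℕ => (l : ℤ) ∣ q.2.2) with hSC
    have mSA : ∀ l, l ∈ SA ↔ l ∈ pr4 (PP X) (p.Y X) ∧ (l : ℤ) ∣ q.1 := fun l => by
      rw [hSA, Finset.mem_filter]
    have mSC : ∀ l, l ∈ SC ↔ l ∈ pr4 (PP X) (p.Y X) ∧ (l : ℤ) ∣ q.2.2 := fun l => by
      rw [hSC, Finset.mem_filter]
    have pSA : ∀ l ∈ SA, l.Prime := fun l hl => (ne1_pr4.1 ((mSA l).1 hl).1).1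
    have pSC : ∀ l ∈ SC, l.Prime := fun l hl => (ne1_pr4.1 ((mSC l).1 hl).1).1
    have hq' : q.2.2 * q.1 - q.2.1 ^ 2 = 1 := by rw [mul_comm]; exact hq
    have endA := ne1_end (k := k) hq hsq1 SA mSA
    have endC := ne1_end (k := k) hq' hsq2 SC mSC
    -- the good pairs
    set bA : Finset ℕ → ℝ := fun T => if (X : ℝ) ^ p.em ≤ ((∏ l ∈ T, l : ℕ) : ℝ) ∧
      ((∏ l ∈ T, l : ℕ) : ℝ) ≤ (X : ℝ) ^ p.ep then 0 else 1 with hbA
    have sideA := ne1_side SA pSA hX hep (em := p.em) bA (fun T _ => ⟨by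
        rw [hbA]
        dsimp only
        split_ifs <;> norm_num, fun h1 h2 => by
        rw [hbA]
        dsimp only
        rw [if_pos ⟨h1, h2⟩]⟩)
    have sideC := ne1_side SC pSC hX hep (em := p.em) bA (fun T _ => ⟨by
        rw [hbA]
        dsimp only
        split_ifs <;> norm_num, fun h1 h2 => by
        rw [hbA]
        dsimp only
        rw [if_pos ⟨h1, h2⟩]⟩)
    set G := (SA.powerset ×ˢ SC.powerset).filter
      (fun t => ((∏ l ∈ t.1, l), (∏ l ∈ t.2, l)) ∈ Fac p X) with hG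
    have hGav : ∑ t ∈ G, ne1_w SA t.1 * ne1_w SC t.2 ≤ av p X q := by
      unfold av
      have h1 : ∑ t ∈ G, ne1_w SA t.1 * ne1_w SC t.2 =
          ∑ f ∈ G.image (fun t => ((∏ l ∈ t.1, l), (∏ l ∈ t.2, l))), wend p X q f := by
        rw [Finset.sum_image]
        · apply Finset.sum_congr rfl
          intro t ht
          rw [hG, Finset.mem_filter, Finset.mem_product, Finset.mem_powerset,
            Finset.mem_powerset] at ht
          obtain ⟨a1, a2⟩ := endA t.1 ht.1.1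
          obtain ⟨c1, c2⟩ := endC t.2 ht.1.2
          unfold wend
          dsimp only
          rw [if_pos ⟨a1, c1⟩, ← a2, ← c2]
          ring
        · intro t ht t' ht' he
          have ht1 := Finset.mem_coe.1 ht
          have ht2 := Finset.mem_coe.1 ht'
          rw [hG, Finset.mem_filter, Finset.mem_product, Finset.mem_powerset,
            Finset.mem_powerset] at ht1 ht2
          simp only [Prod.mk.injEq] at he
          have e1 : t.1 = t'.1 := by
            rw [← Nat.primeFactors_prod (fun l hl => pSA l (ht1.1.1 hl)), he.1,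
              Nat.primeFactors_prod (fun l hl => pSA l (ht2.1.1 hl))]
          have e2 : t.2 = t'.2 := by
            rw [← Nat.primeFactors_prod (fun l hl => pSC l (ht1.1.2 hl)), he.2,
              Nat.primeFactors_prod (fun l hl => pSC l (ht2.1.2 hl))]
          exact Prod.ext e1 e2
      rw [h1]
      apply Finset.sum_le_sum_of_subset_of_nonneg
      · intro f hf
        rw [Finset.mem_image] at hf
        obtain ⟨t, ht, rfl⟩ := hf
        rw [hG, Finset.mem_filter] at ht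
        exact ht.2
      · intro f _ _
        exact (wend_01 p X q f).1
    set N : ℝ := ∑ l ∈ S1, (if (l : ℤ) ∣ q.1 ∧ (l : ℤ) ∣ q.2.2 then (1 : ℝ) else 0) with hN
    have hN0 : 0 ≤ N := Finset.sum_nonneg fun l _ => by split_ifs <;> norm_num
    -- the missing pairs
    have hmiss : 1 - ∑ t ∈ G, ne1_w SA t.1 * ne1_w SC t.2 ≤
        ∑ t ∈ SA.powerset ×ˢ SC.powerset, ne1_w SA t.1 * ne1_w SC t.2 * (bA t.1 + bA t.2 + N) := by
      have h1 : (1 : ℝ) = ∑ t ∈ SA.powerset ×ˢ SC.powerset, ne1_w SA t.1 * ne1_w SC t.2 := by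
        rw [Finset.sum_product]
        dsimp only
        simp_rw [← Finset.mul_sum, ne1_sum_all, mul_one]
        rw [ne1_sum_all]
      rw [hG, Finset.sum_filter]
      nth_rw 1 [h1]
      rw [← Finset.sum_sub_distrib]
      apply Finset.sum_le_sum
      intro t ht
      rw [Finset.mem_product, Finset.mem_powerset, Finset.mem_powerset] at ht
      have hw : 0 ≤ ne1_w SA t.1 * ne1_w SC t.2 := mul_nonneg (ne1_w_nonneg _ _) (ne1_w_nonneg _ _)
      have b0 : ∀ T, 0 ≤ bA T := fun T => by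
        rw [hbA]
        dsimp only
        split_ifs <;> norm_num
      split_ifs with hF
      · rw [sub_self]
        exact mul_nonneg hw (by linarith [b0 t.1, b0 t.2])
      · rw [sub_zero]
        have h2 : 1 ≤ bA t.1 + bA t.2 + N := by
          by_cases g1 : (X : ℝ) ^ p.em ≤ ((∏ l ∈ t.1, l : ℕ) : ℝ) ∧
              ((∏ l ∈ t.1, l : ℕ) : ℝ) ≤ (X : ℝ) ^ p.ep
          · by_cases g2 : (X : ℝ) ^ p.em ≤ ((∏ l ∈ t.2, l : ℕ) : ℝ) ∧
              ((∏ l ∈ t.2, l : ℕ) : ℝ) ≤ (X : ℝ) ^ p.ep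
            · have h3 : 1 ≤ N := by
                by_contra hN1
                apply hF
                have hdis : ∀ l ∈ t.1, l ∉ t.2 := by
                  intro l h1 h2
                  apply hN1
                  have m1 := (mSA l).1 (ht.1 h1)
                  have m2 := (mSC l).1 (ht.2 h2)
                  have := Finset.single_le_sum (f := fun l : ℕ =>
                    (if (l : ℤ) ∣ q.1 ∧ (l : ℤ) ∣ q.2.2 then (1 : ℝ) else 0))
                    (fun l _ => by split_ifs <;> norm_num) m1.1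
                  rw [if_pos ⟨m1.2, m2.2⟩] at this
                  exact this
                have hEF : ∀ S' : Finset ℕ, (∀ l ∈ S', l ∈ pr4 (PP X) (p.Y X)) →
                    (X : ℝ) ^ p.em ≤ ((∏ l ∈ S', l : ℕ) : ℝ) ∧
                      ((∏ l ∈ S', l : ℕ) : ℝ) ≤ (X : ℝ) ^ p.ep →
                    EF p X (∏ l ∈ S', l) ∧ (∏ l ∈ S', l) ∈ Icc 1 ⌊(X : ℝ) ^ p.ep⌋₊ := by
                  intro S' hS' hg
                  have hpr : ∀ l ∈ S', l.Prime := fun l hl => (ne1_pr4.1 (hS' l hl)).1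
                  have hdv : ∀ l : ℕ, l.Prime → l ∣ ∏ l ∈ S', l → l ∈ S' := by
                    intro l hl hd
                    rw [← Nat.primeFactors_prod hpr, Nat.mem_primeFactors]
                    exact ⟨hl, hd, Finset.prod_ne_zero_iff.2 fun m hm => (hpr m hm).ne_zero⟩
                  refine ⟨⟨⟨?_, ?_⟩, hg.1, hg.2, ?_⟩, ?_⟩
                  · refine Finset.squarefree_prod_of_pairwise_isCoprime (fun i hi j hj hij ↦ ?_)
                      (fun i hi => (hpr i hi).prime.squarefree)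
                    exact Nat.coprime_iff_isRelPrime.1
                      ((Nat.coprime_primes (hpr i hi) (hpr j hj)).2 hij)
                  · intro l hl hd
                    have := ne1_pr4.1 (hS' l (hdv l hl hd))
                    exact ⟨this.2.1, this.2.2.1⟩
                  · intro l hl hd
                    exact (ne1_pr4.1 (hS' l (hdv l hl hd))).2.2.2
                  · rw [Finset.mem_Icc]
                    exact ⟨Finset.prod_pos fun m hm => (hpr m hm).pos, Nat.le_floor hg.2⟩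
                obtain ⟨E1, I1⟩ := hEF t.1 (fun l hl => ((mSA l).1 (ht.1 hl)).1) g1
                obtain ⟨E2, I2⟩ := hEF t.2 (fun l hl => ((mSC l).1 (ht.2 hl)).1) g2
                unfold Fac
                rw [Finset.mem_filter, Finset.mem_product]
                refine ⟨⟨I1, I2⟩, E1, E2, ?_⟩
                dsimp only
                apply Nat.Coprime.prod_left
                intro i hi
                apply Nat.Coprime.prod_right
                intro j hj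
                rw [Nat.coprime_primes (pSA i (ht.1 hi)) (pSC j (ht.2 hj))]
                rintro rfl
                exact hdis i hi hj
              linarith [b0 t.1, b0 t.2]
            · have : bA t.2 = 1 := by
                rw [hbA]
                dsimp only
                rw [if_neg g2]
              linarith [b0 t.1]
          · have : bA t.1 = 1 := by
              rw [hbA]
              dsimp only
              rw [if_neg g1]
            linarith [b0 t.2]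
        calc ne1_w SA t.1 * ne1_w SC t.2 = ne1_w SA t.1 * ne1_w SC t.2 * 1 := by ring
          _ ≤ _ := mul_le_mul_of_nonneg_left h2 hw
    have hsplit : ∑ t ∈ SA.powerset ×ˢ SC.powerset,
        ne1_w SA t.1 * ne1_w SC t.2 * (bA t.1 + bA t.2 + N) =
        ∑ T ∈ SA.powerset, ne1_w SA T * bA T + ∑ T ∈ SC.powerset, ne1_w SC T * bA T + N := by
      have h1 : ∀ t : Finset ℕ × Finset ℕ, ne1_w SA t.1 * ne1_w SC t.2 * (bA t.1 + bA t.2 + N) =
          (ne1_w SA t.1 * bA t.1) * ne1_w SC t.2 + ne1_w SA t.1 * (ne1_w SC t.2 * bA t.2) +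
            N * (ne1_w SA t.1 * ne1_w SC t.2) := fun t => by ring
      simp_rw [h1]
      rw [Finset.sum_add_distrib, Finset.sum_add_distrib, ← Finset.mul_sum,
        Finset.sum_product, Finset.sum_product, Finset.sum_product]
      dsimp only
      simp_rw [← Finset.mul_sum, ne1_sum_all, mul_one]
      rw [← Finset.sum_mul, ne1_sum_all]
      ring
    -- comparison
    have cA := ne1_conv hP q.1 SA mSA
    have cC := ne1_conv hP q.2.2 SC mSC
    have sA : ∑ l ∈ SA, Real.log (l : ℝ) = ∑ l ∈ S1, (if (l : ℤ) ∣ q.1 then Real.log l else 0) := by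
      rw [hSA, Finset.sum_filter]
    have sC : ∑ l ∈ SC, Real.log (l : ℝ) =
        ∑ l ∈ S1, (if (l : ℤ) ∣ q.2.2 then Real.log l else 0) := by
      rw [hSC, Finset.sum_filter]
    rw [cA, cC]
    rw [sA] at sideA
    rw [sC] at sideC
    have hNle : N ≤ ∑ l ∈ S1, ((if ((l : ℤ) ^ 2) ∣ q.1 then (1 : ℝ) else 0) +
        (if ((l : ℤ) ^ 2) ∣ q.2.2 then (1 : ℝ) else 0) +
        (if (l : ℤ) ∣ q.1 ∧ (l : ℤ) ∣ q.2.2 then (1 : ℝ) else 0)) := by
      rw [hN]
      apply Finset.sum_le_sum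
      intro l _
      split_ifs <;> norm_num
    have hBe : (∑ l ∈ S1, ((if (l : ℤ) ∣ q.1 then Real.log l else 0) +
        (if (l : ℤ) ∣ q.2.2 then Real.log l else 0))) / (p.ep * Real.log X) =
        (∑ l ∈ S1, (if (l : ℤ) ∣ q.1 then Real.log l else 0)) / (p.ep * Real.log X) +
        (∑ l ∈ S1, (if (l : ℤ) ∣ q.2.2 then Real.log l else 0)) / (p.ep * Real.log X) := by
      rw [Finset.sum_add_distrib, add_div]
    rw [hBe]
    rw [hsplit] at hmiss
    linarith

end Pool.Agent.PATH.NC
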