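import Pool.Agent.Lib_helper88.NC.Defs
import Pool.Agent.Lib_helper18.PENKF.PA4

set_option autoImplicit false

namespace Pool.Agent.PATH.NC

open Finset Pool.Agent.PENT Pool.Agent.PENT.EQ

/-- NL2 -/
theorem MV_line {l : ℕ} (hl : l.Prime) (h4 : l % 4 = 1) (v : ℤ × ℤ)
    (hv : ¬ ((l : ℤ) ∣ v.1 ∧ (l : ℤ) ∣ v.2)) :
    MV l (fun q => if (l : ℤ) ∣ fv q v then 1 else 0) = 2 / ((l : ℝ) + 1) := by
  have h2 : 2 < l := by
    have := hl.two_le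
    omega
  have h1 := Pool.Agent.PENK.mV_one hl h2 v hv
  rw [if_pos h4] at h1
  rw [← h1]
  show MV l (fun q => if (l : ℤ) ∣ fv q v then 1 else 0) =
    MV l (fun q => Pool.Agent.PENK.ich ((l : ℤ) ∣ fv q v))
  congr 1
  funext q
  unfold Pool.Agent.PENK.ich
  by_cases h : (l : ℤ) ∣ fv q v
  · rw [if_pos h, if_pos h]
  · rw [if_neg h, if_neg h]

/-- NL2 -/
theorem MV_line2 {l : ℕ} (hl : l.Prime) (h4 : l % 4 = 1) (v w : ℤ × ℤ)
    (hvw : ¬ (l : ℤ) ∣ dt v w) :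
    MV l (fun q => if (l : ℤ) ∣ fv q v ∧ (l : ℤ) ∣ fv q w then 1 else 0) =
      2 / ((l : ℝ) * (l + 1)) := by
  have h2 : 2 < l := by
    have := hl.two_le
    omega
  have h1 := Pool.Agent.PENK.mV_two hl h2 v w hvw
  rw [if_pos h4] at h1
  rw [← h1]
  show MV l (fun q => if (l : ℤ) ∣ fv q v ∧ (l : ℤ) ∣ fv q w then 1 else 0) =
    MV l (fun q => Pool.Agent.PENK.ich ((l : ℤ) ∣ fv q v ∧ (l : ℤ) ∣ fv q w))
  congr 1
  funext q
  unfold Pool.Agent.PENK.ich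
  by_cases h : (l : ℤ) ∣ fv q v ∧ (l : ℤ) ∣ fv q w
  · rw [if_pos h, if_pos h]
  · rw [if_neg h, if_neg h]

end Pool.Agent.PATH.NC
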