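import Pool.Agent.Lib_helper88.NC.Defs
import Pool.Agent.Lib_helper8.PENT.B.ya
import Pool.Agent.Lib_helper8.PENT.B.yb

/-! NC, block NL3 (helper8): squares -/

set_option autoImplicit false

namespace Pool.Agent.PATH.NC

open Finset Pool.Agent.PENT Pool.Agent.PENT.EQ

/-- NL3: functions modulo `l` have the same mean modulo `l ^ 2` (helper8's `MV_dvd`, block `yb`) -/
theorem MV_pow2 {l : ℕ} (hl : l.Prime) (h2 : l ≠ 2) (h : ℤ × ℤ × ℤ → ℝ) (hh : Per3 l h) :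
    MV (l ^ 2) h = MV l h :=
  Pool.Agent.PENT.MV_dvd l (l ^ 2) ((hl.odd_of_ne_two h2).pow) (dvd_pow_self _ two_ne_zero) h hh

/-- NL3 (helper8's `MV_sq`, block `ya`) -/
theorem MV_sq' {l : ℕ} (hl : l.Prime) (h4 : l % 4 = 1) (u : ℤ × ℤ)
    (hu : ¬ ((l : ℤ) ∣ u.1 ∧ (l : ℤ) ∣ u.2)) :
    MV (l ^ 2) (fun q => if ((l : ℤ) ^ 2) ∣ fv q u then 1 else 0) ≤ 4 / (l : ℝ) ^ 2 :=
  Pool.Agent.PENT.MV_sq_pr hl h4 u hu

/-- the triples with `l² ∣ a`, `l ∣ c` -/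
noncomputable def nl3_bad (l : ℕ) : Finset (ℤ × ℤ × ℤ) :=
  (V3 (l ^ 2)).filter (fun q => ((l : ℤ) ^ 2) ∣ q.1 ∧ (l : ℤ) ∣ q.2.2)

/-- the triples with `l ∣ a`, `l² ∣ c` -/
noncomputable def nl3_bad' (l : ℕ) : Finset (ℤ × ℤ × ℤ) :=
  (V3 (l ^ 2)).filter (fun q => (l : ℤ) ∣ q.1 ∧ ((l : ℤ) ^ 2) ∣ q.2.2)

theorem nl3_card {l : ℕ} (hl : l.Prime) (h4 : l % 4 = 1) : (nl3_bad l).card ≤ l * 2 := by
  classical
  have hl0 : (0 : ℤ) < l := by exact_mod_cast hl.pos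
  have hcard : (nl3_bad l).card ≤ ((Ico (0 : ℤ) l) ×ˢ (ya_rt l)).card := by
    apply Finset.card_le_card_of_injOn (fun q => (q.2.2 / (l : ℤ), q.2.1))
    · intro q hq
      have hq' : q ∈ nl3_bad l := hq
      unfold nl3_bad V3 at hq'
      rw [mem_filter, mem_filter, mem_product, mem_product, mem_Ico, mem_Ico, mem_Ico] at hq'
      obtain ⟨⟨⟨h1, h2, h3⟩, hdet⟩, hq1, hq2⟩ := hq'
      have hgoal : (q.2.2 / (l : ℤ), q.2.1) ∈ (Ico (0 : ℤ) l) ×ˢ (ya_rt l) := by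
        rw [mem_product]
        constructor
        · rw [mem_Ico]
          refine ⟨Int.ediv_nonneg h3.1 hl0.le, ?_⟩
          apply Int.ediv_lt_of_lt_mul hl0
          have := h3.2
          push_cast at this
          nlinarith
        · unfold ya_rt
          rw [mem_filter, mem_Ico]
          refine ⟨h2, ?_⟩
          have hdet' : ((l ^ 2 : ℕ) : ℤ) ∣ q.1 * q.2.2 - q.2.1 ^ 2 - 1 := hdet
          have e : q.2.1 ^ 2 + 1 = q.1 * q.2.2 - (q.1 * q.2.2 - q.2.1 ^ 2 - 1) := by ring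
          change ((l ^ 2 : ℕ) : ℤ) ∣ q.2.1 ^ 2 + 1
          rw [e]
          refine dvd_sub ?_ hdet'
          push_cast
          exact hq1.mul_right _
      exact hgoal
    · intro q hq w hw heq
      have hq' : q ∈ nl3_bad l := hq
      have hw' : w ∈ nl3_bad l := hw
      unfold nl3_bad V3 at hq' hw'
      rw [mem_filter, mem_filter, mem_product, mem_product, mem_Ico, mem_Ico, mem_Ico] at hq' hw'
      obtain ⟨⟨⟨h1, h2, h3⟩, hdet⟩, hq1, hq2⟩ := hq'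
      obtain ⟨⟨⟨k1, k2, k3⟩, kdet⟩, kq1, kq2⟩ := hw'
      have heq' : (q.2.2 / (l : ℤ), q.2.1) = (w.2.2 / (l : ℤ), w.2.1) := heq
      rw [Prod.mk.injEq] at heq'
      have e1 : q.1 = 0 := by
        have := h1.2
        push_cast at this
        exact Int.eq_zero_of_dvd_of_nonneg_of_lt h1.1 this hq1
      have e2 : w.1 = 0 := by
        have := k1.2
        push_cast at this
        exact Int.eq_zero_of_dvd_of_nonneg_of_lt k1.1 this kq1
      have e3 : q.2.2 = w.2.2 := by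
        rw [← Int.ediv_mul_cancel hq2, ← Int.ediv_mul_cancel kq2, heq'.1]
      exact Prod.ext (e1.trans e2.symm) (Prod.ext heq'.2 e3)
  refine hcard.trans ?_
  rw [card_product, Int.card_Ico, sub_zero, Int.toNat_natCast]
  exact Nat.mul_le_mul_left _ (ya_rt_card hl h4)

theorem nl3_swap (l : ℕ) : (nl3_bad' l).card ≤ (nl3_bad l).card := by
  apply Finset.card_le_card_of_injOn (fun q => (q.2.2, q.2.1, q.1))
  · intro q hq
    have hq' : q ∈ nl3_bad' l := hq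
    have hgoal : (q.2.2, q.2.1, q.1) ∈ nl3_bad l := by
      unfold nl3_bad' V3 at hq'
      unfold nl3_bad V3
      rw [mem_filter, mem_filter, mem_product, mem_product] at hq' ⊢
      obtain ⟨⟨⟨h1, h2, h3⟩, hdet⟩, hq1, hq2⟩ := hq'
      refine ⟨⟨⟨h3, h2, h1⟩, ?_⟩, hq2, hq1⟩
      have e : q.2.2 * q.1 - q.2.1 ^ 2 - 1 = q.1 * q.2.2 - q.2.1 ^ 2 - 1 := by ring
      change _ ∣ q.2.2 * q.1 - q.2.1 ^ 2 - 1
      rw [e]; exact hdet
    exact hgoal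
  · intro q _ w _ heq
    have heq' : (q.2.2, q.2.1, q.1) = (w.2.2, w.2.1, w.1) := heq
    rw [Prod.mk.injEq, Prod.mk.injEq] at heq'
    exact Prod.ext heq'.2.2 (Prod.ext heq'.2.1 heq'.1)

theorem nl3_le {l : ℕ} (hl : l.Prime) {n : ℕ} (hn : n ≤ l * 2) :
    (n : ℝ) / ((V3 (l ^ 2)).card : ℝ) ≤ 4 / (l : ℝ) ^ 3 := by
  have hV := ya_V3_card hl
  have hp2 : (2 : ℝ) ≤ l := by exact_mod_cast hl.two_le
  have hp0 : (0 : ℝ) < l := by linarith
  have hVr : (l : ℝ) ^ 2 * (l * (l - 1)) ≤ ((V3 (l ^ 2)).card : ℝ) := by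
    have h1 : 1 ≤ l := hl.one_lt.le
    have := (Nat.cast_le (α := ℝ)).2 hV
    push_cast [Nat.cast_sub h1] at this
    exact this
  have hVpos : (0 : ℝ) < (l : ℝ) ^ 2 * (l * (l - 1)) := by
    have : (0 : ℝ) < l - 1 := by linarith
    positivity
  have hnr : (n : ℝ) ≤ l * 2 := by exact_mod_cast hn
  calc (n : ℝ) / ((V3 (l ^ 2)).card : ℝ)
      ≤ (l * 2) / ((l : ℝ) ^ 2 * (l * (l - 1))) := by
        apply div_le_div₀ (by positivity) hnr hVpos hVr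
    _ ≤ 4 / (l : ℝ) ^ 3 := by
        rw [div_le_div_iff₀ hVpos (by positivity)]
        nlinarith [pow_pos hp0 2, pow_pos hp0 3, pow_pos hp0 4,
          mul_nonneg (pow_pos hp0 3).le (by linarith : (0 : ℝ) ≤ l - 2)]

/-- NL3: direct count: `a = 0 mod l²`, `b² = -1 mod l²` (at most 2 values), `c = 0 mod l` (`l`
values): at most `2 l` triples; `V3 (l²)` has at least `l² (l² - l) ≥ l⁴ / 2` elements -/
theorem MV_sq2 {l : ℕ} (hl : l.Prime) (h4 : l % 4 = 1) :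
    MV (l ^ 2) (fun q => if ((l : ℤ) ^ 2) ∣ q.1 ∧ (l : ℤ) ∣ q.2.2 then 1 else 0) ≤
      4 / (l : ℝ) ^ 3 ∧
    MV (l ^ 2) (fun q => if (l : ℤ) ∣ q.1 ∧ ((l : ℤ) ^ 2) ∣ q.2.2 then 1 else 0) ≤
      4 / (l : ℝ) ^ 3 := by
  classical
  constructor
  · unfold MV
    have hs : (∑ q ∈ V3 (l ^ 2), if ((l : ℤ) ^ 2) ∣ q.1 ∧ (l : ℤ) ∣ q.2.2 then (1 : ℝ) else 0) =
        ((nl3_bad l).card : ℝ) := by
      rw [Finset.sum_boole]
      unfold nl3_bad
      congr!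
    rw [hs]
    exact nl3_le hl (nl3_card hl h4)
  · unfold MV
    have hs : (∑ q ∈ V3 (l ^ 2), if (l : ℤ) ∣ q.1 ∧ ((l : ℤ) ^ 2) ∣ q.2.2 then (1 : ℝ) else 0) =
        ((nl3_bad' l).card : ℝ) := by
      rw [Finset.sum_boole]
      unfold nl3_bad'
      congr!
    rw [hs]
    exact nl3_le hl ((nl3_swap l).trans (nl3_card hl h4))

end Pool.Agent.PATH.NC
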