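import Pool.Agent.Lib_helper88.NC.Defs
import Pool.Agent.Lib_helper23.BG4F.MER
import Pool.Agent.Lib_helper88.NCF.NL2
import Pool.Agent.Lib_helper88.NC.Pr4

/-!
# NC, block NE3: large end factors on average (helper82)
-/

set_option autoImplicit false

namespace Pool.Agent.PATH.NC

open Finset Pool.Agent.PENT Pool.Agent.PENT.EQ

variable {k : ℕ}

theorem ne3_fv1 (q : ℤ × ℤ × ℤ) : fv q (1, 0) = q.1 := by
  unfold fv qf; ring

theorem ne3_fv2 (q : ℤ × ℤ × ℤ) : fv q (0, 1) = q.2.2 := by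
  unfold fv qf; ring

/-- one prime, one end -/
theorem ne3_one {O : Finset (ℤ × ℤ × ℤ)} {D R : ℝ} (hO : EqFam O (fun v => v) D R) {l : ℕ}
    (hl : l.Prime) (h4 : l % 4 = 1) (hD : (l : ℝ) ≤ D) (v : ℤ × ℤ)
    (hv : ¬ ((l : ℤ) ∣ v.1 ∧ (l : ℤ) ∣ v.2)) :
    ∑ q ∈ O, (if (l : ℤ) ∣ fv q v then (1 : ℝ) else 0) ≤
      (O.card : ℝ) * (2 / ((l : ℝ) + 1)) + R := by
  have hper : Per3 l (fun q => if (l : ℤ) ∣ fv q v then (1 : ℝ) else 0) := by
    intro a b h1 h2 h3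
    have e : (l : ℤ) ∣ fv a v ↔ (l : ℤ) ∣ fv b v := by
      have hd : (l : ℤ) ∣ fv a v - fv b v := by
        have e1 : fv a v - fv b v = (a.1 - b.1) * v.1 ^ 2 + (a.2.1 - b.2.1) * (2 * v.1 * v.2) +
            (a.2.2 - b.2.2) * v.2 ^ 2 := by
          unfold fv qf; ring
        rw [e1]
        exact dvd_add (dvd_add (Dvd.dvd.mul_right h1 _) (Dvd.dvd.mul_right h2 _))
          (Dvd.dvd.mul_right h3 _)
      constructor
      · intro h
        have := dvd_sub h hd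
        simpa using this
      · intro h
        have := dvd_add hd h
        simpa using this
    simp only [e]
  have h := hO {l} (by
      intro m hm
      rw [mem_singleton] at hm
      subst hm
      rw [Nat.odd_iff]; omega) (by
      intro m hm m' hm' hne
      rw [mem_singleton] at hm hm'
      exact absurd (hm.trans hm'.symm) hne) (by simpa using hD)
    (fun _ => fun q => if (l : ℤ) ∣ fv q v then (1 : ℝ) else 0) (by
      intro m hm
      rw [mem_singleton] at hm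
      subst hm
      exact hper) (by
      intro m _ w
      split_ifs <;> norm_num)
  simp only [prod_singleton] at h
  rw [MV_line hl h4 v hv] at h
  have := (abs_le.mp h).2
  linarith

/-- Mertens, upper bound, over `pr4` -/
theorem ne3_mertens : ∃ C0 : ℝ, 0 ≤ C0 ∧ ∀ A B : ℝ, 1 ≤ B →
    ∑ l ∈ pr4 A B, Real.log l / l ≤ Real.log B + C0 := by
  obtain ⟨C0, hC0⟩ := Pool.Agent.BG4.mertens_one
  refine ⟨|C0|, abs_nonneg _, fun A B hB => ?_⟩
  have hn : 1 ≤ ⌊B⌋₊ := Nat.le_floor (by simpa using hB)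
  have h1 := hC0 ⌊B⌋₊ hn
  have h2 : ∑ l ∈ pr4 A B, Real.log l / l ≤
      ∑ p ∈ (Icc 1 ⌊B⌋₊).filter Nat.Prime, Real.log p / p := by
    apply sum_le_sum_of_subset_of_nonneg
    · intro l hl
      unfold pr4 at hl
      rw [mem_filter] at hl
      rw [mem_filter]
      exact ⟨hl.1, hl.2.1⟩
    · intro l _ _
      exact div_nonneg (Real.log_natCast_nonneg l) (Nat.cast_nonneg l)
  have h3 : Real.log (⌊B⌋₊ : ℝ) ≤ Real.log B :=
    Real.log_le_log (by exact_mod_cast hn) (Nat.floor_le (by linarith))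
  have h4 := (abs_le.mp h1).2
  have h5 := le_abs_self C0
  linarith

/-- trivial bound for the sum of the logarithms -/
theorem ne3_logs {A B : ℝ} (hB : 1 ≤ B) : ∑ l ∈ pr4 A B, Real.log l ≤ B * Real.log B := by
  have hc : ((pr4 A B).card : ℝ) ≤ B := by
    have : (pr4 A B).card ≤ ⌊B⌋₊ := by
      unfold pr4
      refine (card_filter_le _ _).trans ?_
      simp
    exact (by exact_mod_cast this : ((pr4 A B).card : ℝ) ≤ (⌊B⌋₊ : ℝ)).trans
      (Nat.floor_le (by linarith))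
  have hL : 0 ≤ Real.log B := Real.log_nonneg hB
  calc ∑ l ∈ pr4 A B, Real.log l ≤ ∑ _l ∈ pr4 A B, Real.log B := by
        apply sum_le_sum
        intro l hl
        unfold pr4 at hl
        rw [mem_filter, mem_Icc] at hl
        have h1 : (l : ℝ) ≤ B := (Nat.le_floor_iff (by linarith)).mp hl.1.2
        have h0 : (0 : ℝ) < l := by exact_mod_cast hl.1.1
        exact Real.log_le_log h0 h1
    _ = (pr4 A B).card * Real.log B := by rw [sum_const, nsmul_eq_mul]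
    _ ≤ B * Real.log B := mul_le_mul_of_nonneg_right hc hL

/-- NE3: large end factors on average: `∑_{l ≤ Y} (2/(l+1)) log l ≤ 2 log Y + C` (Mertens),
`log Y = ta log X`; `C` is absolute -/
theorem end_big : ∃ C : ℝ, 0 < C ∧ ∀ (k : ℕ) (p : Prm k) (c C₂ : ℝ), 0 < c → 0 < C₂ → 0 < p.ta →
    p.ta ≤ c / 4 → 0 < p.ep → ∃ X₀ : ℕ, ∀ X ≥ X₀, ∀ O : Finset (ℤ × ℤ × ℤ),
    (O.card : ℝ) ≤ C₂ * X → EqFam O (fun v => v) ((X : ℝ) ^ c) ((X : ℝ) ^ (1 - c)) →
    ∑ q ∈ O, (∑ l ∈ pr4 (PP X) (p.Y X), ((if (l : ℤ) ∣ q.1 then Real.log l else 0) +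
        (if (l : ℤ) ∣ q.2.2 then Real.log l else 0))) / (p.ep * Real.log X) ≤
      C * C₂ * (p.ta / p.ep) * X := by
  obtain ⟨C0, hC0, hM⟩ := ne3_mertens
  refine ⟨6, by norm_num, ?_⟩
  intro k p c C₂ hc hC2 hta htac hep
  -- conditions on X
  have hlogX : Filter.Tendsto (fun X : ℕ => Real.log (X : ℝ)) Filter.atTop Filter.atTop :=
    Real.tendsto_log_atTop.comp tendsto_natCast_atTop_atTop
  have ev1 : ∀ᶠ X : ℕ in Filter.atTop, 4 * C0 / p.ta ≤ Real.log (X : ℝ) :=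
    hlogX.eventually_ge_atTop _
  have ev2 : ∀ᶠ X : ℕ in Filter.atTop, 2 / C₂ ≤ (X : ℝ) ^ (3 * c / 4) :=
    ((tendsto_rpow_atTop (by positivity)).comp tendsto_natCast_atTop_atTop).eventually_ge_atTop _
  obtain ⟨X₁, hX₁⟩ := Filter.eventually_atTop.mp (ev1.and ev2)
  refine ⟨max X₁ 3, fun X hX O hOc hO => ?_⟩
  obtain ⟨he1, he2⟩ := hX₁ X (le_trans (le_max_left _ _) hX)
  have hX3 : 3 ≤ X := le_trans (le_max_right _ _) hX
  have hX1 : (1 : ℝ) < X := by
    have : (3 : ℝ) ≤ X := by exact_mod_cast hX3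
    linarith
  have hX0 : (0 : ℝ) < X := by linarith
  have hL : 0 < Real.log (X : ℝ) := Real.log_pos hX1
  have hY1 : 1 ≤ p.Y X := Real.one_le_rpow hX1.le hta.le
  have hlY : Real.log (p.Y X) = p.ta * Real.log X := Real.log_rpow hX0 _
  set L := Real.log (X : ℝ) with hLd
  set S := pr4 (PP X) (p.Y X) with hS
  set R := (X : ℝ) ^ (1 - c) with hR
  have hR0 : 0 ≤ R := Real.rpow_nonneg hX0.le _
  -- swap the sums
  have hswap : ∑ q ∈ O, (∑ l ∈ S, ((if (l : ℤ) ∣ q.1 then Real.log l else 0) +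
        (if (l : ℤ) ∣ q.2.2 then Real.log l else 0))) / (p.ep * L) =
      (∑ l ∈ S, Real.log l * (∑ q ∈ O, (if (l : ℤ) ∣ fv q (1, 0) then (1 : ℝ) else 0) +
        ∑ q ∈ O, (if (l : ℤ) ∣ fv q (0, 1) then (1 : ℝ) else 0))) / (p.ep * L) := by
    rw [← sum_div]
    congr 1
    rw [sum_comm]
    apply sum_congr rfl
    intro l _
    rw [← sum_add_distrib, mul_sum]
    apply sum_congr rfl
    intro q _
    rw [ne3_fv1, ne3_fv2]
    split_ifs <;> ring
  rw [hswap]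
  have hl1 : ∀ l ∈ S, l.Prime ∧ l % 4 = 1 ∧ (l : ℝ) ≤ p.Y X := by
    intro l hl
    rw [hS] at hl
    unfold pr4 at hl
    rw [mem_filter, mem_Icc] at hl
    exact ⟨hl.2.1, hl.2.2.1, (Nat.le_floor_iff (by linarith)).mp hl.1.2⟩
  have hterm : ∀ l ∈ S, Real.log l * (∑ q ∈ O, (if (l : ℤ) ∣ fv q (1, 0) then (1 : ℝ) else 0) +
        ∑ q ∈ O, (if (l : ℤ) ∣ fv q (0, 1) then (1 : ℝ) else 0)) ≤
      4 * C₂ * X * (Real.log l / l) + 2 * R * Real.log l := by
    intro l hl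
    obtain ⟨hlp, hl4, hlY'⟩ := hl1 l hl
    have hl0 : (0 : ℝ) < l := by exact_mod_cast hlp.pos
    have hlD : (l : ℝ) ≤ (X : ℝ) ^ c := by
      refine hlY'.trans ?_
      exact Real.rpow_le_rpow_of_exponent_le hX1.le (by linarith)
    have hl1' : ¬ (l : ℤ) ∣ 1 := by
      intro h
      have := Int.natAbs_dvd_natAbs.mpr h
      simp at this
      exact hlp.one_lt.ne' this
    have b1 := ne3_one hO hlp hl4 hlD (1, 0) (by rintro ⟨h, _⟩; exact hl1' h)
    have b2 := ne3_one hO hlp hl4 hlD (0, 1) (by rintro ⟨_, h⟩; exact hl1' h)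
    have hlog : 0 ≤ Real.log (l : ℝ) := Real.log_natCast_nonneg l
    have b3 : (O.card : ℝ) * (2 / ((l : ℝ) + 1)) ≤ C₂ * X * (2 / l) := by
      apply mul_le_mul hOc _ (by positivity) (by positivity)
      apply div_le_div_of_nonneg_left (by norm_num) hl0 (by linarith)
    calc Real.log l * (∑ q ∈ O, (if (l : ℤ) ∣ fv q (1, 0) then (1 : ℝ) else 0) +
          ∑ q ∈ O, (if (l : ℤ) ∣ fv q (0, 1) then (1 : ℝ) else 0))
        ≤ Real.log l * (2 * (C₂ * X * (2 / l)) + 2 * R) := by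
          apply mul_le_mul_of_nonneg_left _ hlog
          linarith
      _ = 4 * C₂ * X * (Real.log l / l) + 2 * R * Real.log l := by
          field_simp
          ring
  have hsum : ∑ l ∈ S, Real.log l * (∑ q ∈ O, (if (l : ℤ) ∣ fv q (1, 0) then (1 : ℝ) else 0) +
        ∑ q ∈ O, (if (l : ℤ) ∣ fv q (0, 1) then (1 : ℝ) else 0)) ≤
      4 * C₂ * X * (p.ta * L + C0) + 2 * R * (p.Y X * (p.ta * L)) := by
    refine (sum_le_sum hterm).trans ?_
    rw [sum_add_distrib, ← mul_sum, ← mul_sum]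
    have c1 := hM (PP X) (p.Y X) hY1
    have c2 := ne3_logs (A := PP X) hY1
    rw [hlY] at c1 c2
    exact add_le_add (mul_le_mul_of_nonneg_left c1 (by positivity))
      (mul_le_mul_of_nonneg_left c2 (by positivity))
  -- `4 C0 ≤ ta L`
  have d1 : 4 * C0 ≤ p.ta * L := by
    rw [div_le_iff₀ hta] at he1
    linarith
  -- `2 R Y ≤ C₂ X`
  have d2 : 2 * (R * p.Y X) ≤ C₂ * X := by
    have e1 : R * p.Y X ≤ (X : ℝ) ^ (1 - 3 * c / 4) := by
      rw [hR]
      unfold Prm.Y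
      rw [← Real.rpow_add hX0]
      exact Real.rpow_le_rpow_of_exponent_le hX1.le (by linarith)
    have e2 : (X : ℝ) ^ (1 - 3 * c / 4) * (X : ℝ) ^ (3 * c / 4) = X := by
      rw [← Real.rpow_add hX0]
      have : 1 - 3 * c / 4 + 3 * c / 4 = 1 := by ring
      rw [this, Real.rpow_one]
    have e3 : 2 ≤ C₂ * (X : ℝ) ^ (3 * c / 4) := by
      rw [div_le_iff₀ hC2] at he2
      linarith
    have e4 : 0 ≤ (X : ℝ) ^ (1 - 3 * c / 4) := Real.rpow_nonneg hX0.le _
    calc 2 * (R * p.Y X) ≤ 2 * (X : ℝ) ^ (1 - 3 * c / 4) := by linarith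
      _ ≤ (C₂ * (X : ℝ) ^ (3 * c / 4)) * (X : ℝ) ^ (1 - 3 * c / 4) :=
          mul_le_mul_of_nonneg_right e3 e4
      _ = C₂ * ((X : ℝ) ^ (1 - 3 * c / 4) * (X : ℝ) ^ (3 * c / 4)) := by ring
      _ = C₂ * X := by rw [e2]
  have htL : 0 < p.ta * L := mul_pos hta hL
  have hfin : ∑ l ∈ S, Real.log l * (∑ q ∈ O, (if (l : ℤ) ∣ fv q (1, 0) then (1 : ℝ) else 0) +
        ∑ q ∈ O, (if (l : ℤ) ∣ fv q (0, 1) then (1 : ℝ) else 0)) ≤
      6 * C₂ * X * (p.ta * L) := by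
    refine hsum.trans ?_
    have f1 : 4 * C₂ * X * (p.ta * L + C0) ≤ 5 * C₂ * X * (p.ta * L) := by
      have : 0 ≤ C₂ * X := by positivity
      nlinarith [mul_le_mul_of_nonneg_left d1 this]
    have f2 : 2 * R * (p.Y X * (p.ta * L)) ≤ C₂ * X * (p.ta * L) := by
      calc 2 * R * (p.Y X * (p.ta * L)) = (2 * (R * p.Y X)) * (p.ta * L) := by ring
        _ ≤ C₂ * X * (p.ta * L) := mul_le_mul_of_nonneg_right d2 htL.le
    linarith
  rw [div_le_iff₀ (mul_pos hep hL)]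
  refine hfin.trans (le_of_eq ?_)
  field_simp

end Pool.Agent.PATH.NC
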