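import Mathlib
import Pool.Agent.Lib_helper88.NC.Defs
import Pool.Agent.Lib_helper88.NCF.NA1
import Pool.Agent.Lib_helper88.NCF.NA2
import Pool.Agent.Lib_helper88.NCF.NA4
import Pool.Agent.Lib_helper88.NCF.NA8
import Pool.Agent.Lib_helper88.NCF.NA9

set_option autoImplicit false

namespace Pool.Agent.PATH.NC

open Finset Pool.Agent.PENT Pool.Agent.PENT.EQ

variable {k : ℕ}

open Classical in
theorem ne6_core {α : Type} [DecidableEq α] (s : Finset α) (F Ft G : α → ℝ) (a : ℝ) (B : α → α → Prop)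
    (hG : ∀ u ∈ s, 0 ≤ G u) (hFt0 : ∀ u ∈ s, 0 ≤ Ft u) (hFt : ∀ u ∈ s, Ft u ≤ F u)
    (ha : ∑ u ∈ s, G u = a) (ha1 : a ≤ 1) :
    (∑ u ∈ s, Ft u - a) ^ 2 ≤
      (∑ u ∈ s, ∑ u' ∈ s.filter (fun u' => u' ≠ u ∧ B u u'),
        (F u * F u' - 2 * (F u * G u') + G u * G u')) +
      (∑ u ∈ s, ∑ u' ∈ s.filter (fun u' => u' ≠ u ∧ ¬ B u u'), F u * F u') +
      (∑ u ∈ s, ∑ u' ∈ s.filter (fun u' => ¬ (u' ≠ u ∧ B u u')), G u * G u') +
      (∑ u ∈ s, Ft u ^ 2 + 2 * ∑ u ∈ s, (F u - Ft u)) := by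
  have hF : ∀ u ∈ s, 0 ≤ F u := fun u hu => (hFt0 u hu).trans (hFt u hu)
  -- squares
  have h1 : (∑ u ∈ s, Ft u) ^ 2 ≤ ∑ u ∈ s, Ft u ^ 2 +
      ((∑ u ∈ s, ∑ u' ∈ s.filter (fun u' => u' ≠ u ∧ B u u'), F u * F u') +
      (∑ u ∈ s, ∑ u' ∈ s.filter (fun u' => u' ≠ u ∧ ¬ B u u'), F u * F u')) := by
    rw [sq, Finset.sum_mul_sum, ← Finset.sum_add_distrib, ← Finset.sum_add_distrib]
    apply Finset.sum_le_sum
    intro u hu
    have e1 : ∑ u' ∈ s, Ft u * Ft u' =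
        Ft u * Ft u + ∑ u' ∈ s.filter (fun u' => u' ≠ u), Ft u * Ft u' := by
      rw [← Finset.sum_filter_add_sum_filter_not s (fun u' => u' = u)]
      congr 1
      rw [Finset.filter_eq' s u, if_pos hu, Finset.sum_singleton]
    have e2 : ∑ u' ∈ s.filter (fun u' => u' ≠ u), Ft u * Ft u' ≤
        ∑ u' ∈ s.filter (fun u' => u' ≠ u), F u * F u' := by
      apply Finset.sum_le_sum
      intro v hv
      have hv' := (Finset.mem_filter.mp hv).1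
      exact mul_le_mul (hFt u hu) (hFt v hv') (hFt0 v hv') (hF u hu)
    have e3 : ∑ u' ∈ s.filter (fun u' => u' ≠ u), F u * F u' =
        ∑ u' ∈ s.filter (fun u' => u' ≠ u ∧ B u u'), F u * F u' +
        ∑ u' ∈ s.filter (fun u' => u' ≠ u ∧ ¬ B u u'), F u * F u' := by
      rw [← Finset.sum_filter_add_sum_filter_not (s.filter (fun u' => u' ≠ u)) (fun u' => B u u'),
        Finset.filter_filter, Finset.filter_filter]
    rw [e1]
    nlinarith [e2, e3]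
  -- mixed terms
  have h2 : ∑ u ∈ s, ∑ u' ∈ s.filter (fun u' => u' ≠ u ∧ B u u'), F u * G u' ≤
      (∑ u ∈ s, F u) * a := by
    rw [← ha, Finset.sum_mul_sum]
    apply Finset.sum_le_sum
    intro u hu
    apply Finset.sum_le_sum_of_subset_of_nonneg (Finset.filter_subset _ _)
    intro v hv _
    exact mul_nonneg (hF u hu) (hG v hv)
  -- G terms
  have h3 : a ^ 2 = (∑ u ∈ s, ∑ u' ∈ s.filter (fun u' => u' ≠ u ∧ B u u'), G u * G u') +
      (∑ u ∈ s, ∑ u' ∈ s.filter (fun u' => ¬ (u' ≠ u ∧ B u u')), G u * G u') := by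
    rw [← ha, sq, Finset.sum_mul_sum, ← Finset.sum_add_distrib]
    apply Finset.sum_congr rfl
    intro u hu
    rw [Finset.sum_filter_add_sum_filter_not]
  have ha0 : 0 ≤ a := by rw [← ha]; exact Finset.sum_nonneg hG
  have hD : 0 ≤ ∑ u ∈ s, (F u - Ft u) :=
    Finset.sum_nonneg (fun u hu => sub_nonneg.mpr (hFt u hu))
  have h4 : (∑ u ∈ s, F u) * a - (∑ u ∈ s, Ft u) * a ≤ ∑ u ∈ s, (F u - Ft u) := by
    rw [← sub_mul, ← Finset.sum_sub_distrib]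
    calc (∑ u ∈ s, (F u - Ft u)) * a ≤ (∑ u ∈ s, (F u - Ft u)) * 1 :=
          mul_le_mul_of_nonneg_left ha1 hD
      _ = _ := mul_one _
  have h5 : ∑ u ∈ s, ∑ u' ∈ s.filter (fun u' => u' ≠ u ∧ B u u'),
        (F u * F u' - 2 * (F u * G u') + G u * G u') =
      (∑ u ∈ s, ∑ u' ∈ s.filter (fun u' => u' ≠ u ∧ B u u'), F u * F u') -
      2 * (∑ u ∈ s, ∑ u' ∈ s.filter (fun u' => u' ≠ u ∧ B u u'), F u * G u') +
      (∑ u ∈ s, ∑ u' ∈ s.filter (fun u' => u' ≠ u ∧ B u u'), G u * G u') := by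
    simp only [Finset.sum_add_distrib, Finset.sum_sub_distrib, Finset.mul_sum]
  rw [h5]
  have h6 : (∑ u ∈ s, Ft u - a) ^ 2 = (∑ u ∈ s, Ft u) ^ 2 - 2 * ((∑ u ∈ s, Ft u) * a) + a ^ 2 := by
    ring
  rw [h6]
  linarith

open Classical in
theorem expand {p : Prm k} {X P00 : ℕ} (hc : 0 < p.c1) (hk : 4 ≤ k) (O : Finset (ℤ × ℤ × ℤ))
    (hO : ∀ q ∈ O, q.1 * q.2.2 - q.2.1 ^ 2 = 1)
    (hM : ∀ f ∈ Fac p X, ∀ q ∈ O, 0 < Mp p X P00 q f) (B : Vec k → Vec k → Prop) :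
    ∑ q ∈ O, (∑ u ∈ GS p X, Ft p X P00 q u - av p X q) ^ 2 ≤
      (∑ u ∈ GS p X, ∑ u' ∈ (GS p X).filter (fun u' => u' ≠ u ∧ B u u'),
        (∑ q ∈ O, Fn p X P00 q u * Fn p X P00 q u' - 2 * ∑ q ∈ O, Fn p X P00 q u * Gn p X P00 q u' +
          ∑ q ∈ O, Gn p X P00 q u * Gn p X P00 q u')) +
      (∑ u ∈ GS p X, ∑ u' ∈ (GS p X).filter (fun u' => u' ≠ u ∧ ¬ B u u'),
        ∑ q ∈ O, Fn p X P00 q u * Fn p X P00 q u') +
      (∑ u ∈ GS p X, ∑ u' ∈ (GS p X).filter (fun u' => ¬ (u' ≠ u ∧ B u u')),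
        ∑ q ∈ O, Gn p X P00 q u * Gn p X P00 q u') +
      (∑ q ∈ O, ∑ u ∈ GS p X, Ft p X P00 q u ^ 2 +
        2 * ∑ q ∈ O, ∑ u ∈ GS p X, (Fn p X P00 q u - Ft p X P00 q u)) := by
  have key : ∀ q ∈ O, (∑ u ∈ GS p X, Ft p X P00 q u - av p X q) ^ 2 ≤
      (∑ u ∈ GS p X, ∑ u' ∈ (GS p X).filter (fun u' => u' ≠ u ∧ B u u'),
        (Fn p X P00 q u * Fn p X P00 q u' - 2 * (Fn p X P00 q u * Gn p X P00 q u') +
          Gn p X P00 q u * Gn p X P00 q u')) +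
      (∑ u ∈ GS p X, ∑ u' ∈ (GS p X).filter (fun u' => u' ≠ u ∧ ¬ B u u'),
        Fn p X P00 q u * Fn p X P00 q u') +
      (∑ u ∈ GS p X, ∑ u' ∈ (GS p X).filter (fun u' => ¬ (u' ≠ u ∧ B u u')),
        Gn p X P00 q u * Gn p X P00 q u') +
      (∑ u ∈ GS p X, Ft p X P00 q u ^ 2 +
        2 * ∑ u ∈ GS p X, (Fn p X P00 q u - Ft p X P00 q u)) := by
    intro q hq
    have hMp : ∀ u ∈ GS p X, 0 < Mp p X P00 q (fE u) := fun u hu =>
      hM _ (GP.fE_mem ((mem_GS hc).mp hu) (by omega)) q hq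
    have hFn : ∀ u ∈ GS p X, 0 ≤ Fn p X P00 q u := fun u hu =>
      div_nonneg (W_01 p X q u).1 (hMp u hu).le
    refine ne6_core (GS p X) (fun u => Fn p X P00 q u) (fun u => Ft p X P00 q u)
      (fun u => Gn p X P00 q u) (av p X q) B ?_ ?_ ?_ ?_ ?_
    · intro u hu
      show 0 ≤ Gn p X P00 q u
      unfold Gn
      exact div_nonneg (mul_nonneg (wend_01 p X q _).1 (gk_01 p X P00 q u).1) (hMp u hu).le
    · intro u hu
      show 0 ≤ Ft p X P00 q u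
      unfold Ft
      split_ifs
      · exact hFn u hu
      · exact le_rfl
    · intro u hu
      show Ft p X P00 q u ≤ Fn p X P00 q u
      unfold Ft
      split_ifs
      · exact le_rfl
      · exact hFn u hu
    · exact sum_Gn hc hk (fun f hf => hM f hf q hq)
    · exact (av_le_one (hO q hq)).2
  refine (Finset.sum_le_sum key).trans (le_of_eq ?_)
  have comm2 : ∀ (t : Vec k → Finset (Vec k)) (H : Vec k → Vec k → ℤ × ℤ × ℤ → ℝ),
      ∑ q ∈ O, ∑ u ∈ GS p X, ∑ u' ∈ t u, H u u' q =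
      ∑ u ∈ GS p X, ∑ u' ∈ t u, ∑ q ∈ O, H u u' q := by
    intro t H
    rw [Finset.sum_comm]
    exact Finset.sum_congr rfl (fun u _ => Finset.sum_comm)
  simp only [Finset.sum_add_distrib (s := O), ← Finset.mul_sum O]
  rw [comm2, comm2, comm2]
  simp only [Finset.sum_add_distrib, Finset.sum_sub_distrib, Finset.mul_sum]

end Pool.Agent.PATH.NC
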