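import Pool.Agent.Lib_helper88.NC.Defs
import Pool.Agent.Lib_helper88.NCF.NA2
import Pool.Agent.Lib_helper88.NCF.NA4
import Pool.Agent.Lib_helper88.NCF.NL0
import Pool.Agent.Lib_helper88.NCF.NL1
import Pool.Agent.Lib_helper88.NCF.NL4
import Pool.Agent.Lib_helper88.NCF.NL5

/-! Block `NL6` (project NC), helper42. -/

set_option autoImplicit false

namespace Pool.Agent.PATH.NC

open Finset Pool.Agent.PENT Pool.Agent.PENT.EQ

variable {k : ℕ}

theorem nl6_mem {j : Fin (k + 1)} : j ∈ ivx k ↔ 1 ≤ j.val ∧ j.val + 1 ≤ k := by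
  unfold ivx
  simp

theorem nl6_dE {u : Vec k} {i : ℕ} (h1 : 1 ≤ i) (h2 : i ≤ k) : dE u i ∣ Dall u := by
  unfold Dall
  exact Finset.dvd_prod_of_mem _ (Finset.mem_Icc.2 ⟨h1, h2⟩)

theorem nl6_two (hk4 : 4 ≤ k) {p : Prm k} {X : ℕ} {u : Vec k} (hu : GP p X u) {l : ℕ}
    (h : ¬ l ∣ Dall u) {j : Fin (k + 1)} (hj : j ∈ ivx k) (hd : (l : ℤ) ∣ (u j).2) :
    2 ≤ j.val := by
  rw [nl6_mem] at hj
  by_contra hlt
  have hj1 : j.val = 1 := by omega
  apply h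
  refine dvd_trans ?_ (nl6_dE (u := u) (i := 1) (le_refl 1) (by omega))
  unfold dE
  rw [dif_pos ⟨le_refl 1, by omega⟩]
  have e0 : (⟨1 - 1, by omega⟩ : Fin (k + 1)) = 0 := by ext; simp
  have e1 : (⟨1, by omega⟩ : Fin (k + 1)) = j := by ext; exact hj1.symm
  rw [e0, e1, hu.first]
  apply Int.natCast_dvd.1
  unfold dt
  simpa using hd

theorem nl6_one (hk4 : 4 ≤ k) {p : Prm k} {X : ℕ} {u : Vec k} (hu : GP p X u) {l : ℕ}
    (h : ¬ l ∣ Dall u) {j : Fin (k + 1)} (hj : j ∈ ivx k) (hd : (l : ℤ) ∣ (u j).1) :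
    j.val + 2 ≤ k := by
  rw [nl6_mem] at hj
  by_contra hlt
  have hj1 : j.val = k - 1 := by omega
  apply h
  refine dvd_trans ?_ (nl6_dE (u := u) (i := k) (by omega) (le_refl k))
  unfold dE
  rw [dif_pos ⟨by omega, le_refl k⟩]
  have e0 : (⟨k - 1, by omega⟩ : Fin (k + 1)) = j := by ext; exact hj1.symm
  have e1 : (⟨k, by omega⟩ : Fin (k + 1)) = Fin.last k := rfl
  rw [e0, e1, hu.last]
  apply Int.natCast_dvd.1
  unfold dt
  simpa using hd

/-- the two end vectors -/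
def nl6_v : Bool → ℤ × ℤ := fun i => if i then ((1, 0) : ℤ × ℤ) else (0, 1)

theorem nl6_v_ne {l : ℕ} (hl : l.Prime) (i : Bool) :
    ¬ ((l : ℤ) ∣ (nl6_v i).1 ∧ (l : ℤ) ∣ (nl6_v i).2) := by
  have h1 : ¬ (l : ℤ) ∣ 1 := by
    intro h
    have h2 : l ∣ 1 := by exact_mod_cast h
    exact hl.one_lt.ne' (Nat.dvd_one.1 h2)
  unfold nl6_v
  cases i
  · simpa using h1
  · simpa using h1

theorem nl6_prim {p : Prm k} {X : ℕ} {u : Vec k} (hu : GP p X u) (hk : 2 ≤ k) {l : ℕ}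
    (hl : l.Prime) (j : Fin (k + 1)) : ¬ ((l : ℤ) ∣ (u j).1 ∧ (l : ℤ) ∣ (u j).2) := by
  rintro ⟨h1, h2⟩
  obtain ⟨a, b, hab⟩ := hu.prim hk j
  have h3 : (l : ℤ) ∣ 1 := by
    rw [← hab]
    exact dvd_add (Dvd.dvd.mul_left h1 a) (Dvd.dvd.mul_left h2 b)
  have h4 : l ∣ 1 := by exact_mod_cast h3
  exact hl.one_lt.ne' (Nat.dvd_one.1 h4)

/-- a coincidence of an end vector with a vertex -/
theorem nl6_end (hk4 : 4 ≤ k) {p : Prm k} {X : ℕ} {u : Vec k} (hu : GP p X u) {l : ℕ}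
    (h : ¬ l ∣ Dall u) {i : Bool} {j : Fin (k + 1)} (hj : j ∈ ivx k)
    (hd : (l : ℤ) ∣ dt (nl6_v i) (u j)) :
    (2 ≤ j.val ∧ j.val + 1 ≤ k ∧ (l : ℤ) ∣ (u j).2) ∨
      (1 ≤ j.val ∧ j.val + 2 ≤ k ∧ (l : ℤ) ∣ (u j).1) := by
  have hj' := nl6_mem.1 hj
  cases i
  · right
    have h1 : (l : ℤ) ∣ (u j).1 := by
      unfold nl6_v dt at hd
      simpa using hd
    exact ⟨hj'.1, nl6_one hk4 hu h hj h1, h1⟩
  · left
    have h1 : (l : ℤ) ∣ (u j).2 := by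
      unfold nl6_v dt at hd
      simpa using hd
    exact ⟨nl6_two hk4 hu h hj h1, hj'.2, h1⟩

theorem nl6_card : ((ivx k).card : ℝ) ≤ k + 1 := by
  have h1 : (ivx k).card ≤ (univ : Finset (Fin (k + 1))).card := Finset.card_filter_le _ _
  rw [Finset.card_univ, Fintype.card_fin] at h1
  exact_mod_cast h1

/-- the arithmetic at the end -/
theorem nl6_arith {a b c G x y t : ℝ} (ha : 0 ≤ a) (ha1 : a ≤ 1) (hb : 0 ≤ b) (hb1 : b ≤ 1)
    (hc : 0 ≤ c) (hc1 : c ≤ 1) (hG : G = a * (b * c)) (hG2 : 1 / 2 ≤ G) {E : ℝ}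
    (hx : |x - y * c| ≤ E) (hy : |y - a * b| ≤ E) (ht : 4 * E ≤ t) :
    x ≤ (1 + t) * G ∧ (1 - t) * G ≤ y * c := by
  have hE : 0 ≤ E := (abs_nonneg _).trans hx
  have h1 := abs_le.1 hx
  have h2 := abs_le.1 hy
  have h3 : y * c ≤ G + E := by
    rw [hG]
    nlinarith
  have h4 : G - E ≤ y * c := by
    rw [hG]
    nlinarith
  constructor
  · nlinarith
  · nlinarith

theorem loc_out (hk : Even k) (hk4 : 4 ≤ k) : ∃ C : ℝ, 0 < C ∧ ∀ (p : Prm k) (X P00 : ℕ),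
    100 * (k + 1) ^ 2 ≤ P00 → (P00 : ℝ) ≤ PP X → ∀ u u' : Vec k, GP p X u → GP p X u' →
    ∀ l ∈ Sall p X P00 u u', ¬ l ∣ Dall u * Dall u' →
      0 < GLo p X u u' l ∧ GLo p X u u' l ≤ 1 ∧
      MV l (fun q => Lf p X u l q * Lf p X u' l q) ≤ (1 + tl C u u' l) * GLo p X u u' l ∧
      (1 - tl C u u' l) * GLo p X u u' l ≤
        MV l (fun q => Lf p X u l q * Ef p X (fE u') l q) * gl p X u' l := by
  classical
  refine ⟨24 * ((k : ℝ) + 5) ^ 2, by positivity, ?_⟩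
  intro p X P00 hP00 hPP u u' hu hu' l hl hnd
  -- the prime `l`
  have hlS : l ∈ Spr P00 (p.Y X) := by
    unfold Sall at hl
    rcases Finset.mem_union.1 hl with h | h
    · exact h
    · exact absurd (Nat.dvd_of_mem_primeFactors h) hnd
  unfold Spr at hlS
  rw [Finset.mem_filter, Finset.mem_Ioc] at hlS
  obtain ⟨⟨hlP, _⟩, hlp, hl4⟩ := hlS
  have hl2 : l ≠ 2 := by
    rintro rfl
    omega
  have hnu : ¬ l ∣ Dall u := fun h => hnd (Dvd.dvd.mul_right h _)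
  have hnu' : ¬ l ∣ Dall u' := fun h => hnd (Dvd.dvd.mul_left h _)
  have hDu := (hu.Dall_eq (by omega)).1
  have hDu' := (hu'.Dall_eq (by omega)).1
  have hniu : ¬ l ∣ Dint u := fun h => hnu (by rw [hDu]; exact Dvd.dvd.mul_left h _)
  have hniu' : ¬ l ∣ Dint u' := fun h => hnu' (by rw [hDu']; exact Dvd.dvd.mul_left h _)
  have hfe : ¬ l ∣ (fE u).1 * (fE u).2 := fun h => hnu (by
    rw [hDu]; exact Dvd.dvd.mul_right h _)
  have hfe' : ¬ l ∣ (fE u').1 * (fE u').2 := fun h => hnu' (by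
    rw [hDu']; exact Dvd.dvd.mul_right h _)
  -- the factors
  have hgl : gl p X u l = MV l (Iv p X u l) := by
    unfold gl
    rw [if_neg hniu, if_neg hnu]
  have hgl' : gl p X u' l = MV l (Iv p X u' l) := by
    unfold gl
    rw [if_neg hniu', if_neg hnu']
  have hEf : ∀ q, Ef p X (fE u) l q = Ev p X l q := fun q => Ef_out p X (fE u) hfe hlp q
  have hEf' : ∀ q, Ef p X (fE u') l q = Ev p X l q := fun q => Ef_out p X (fE u') hfe' hlp q
  have hLf : ∀ q, Lf p X u l q = Ev p X l q * Iv p X u l q := fun q =>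
    Lf_out' hk hk4 p X hu hlp hl2 hnu q
  have hLf' : ∀ q, Lf p X u' l q = Ev p X l q * Iv p X u' l q := fun q =>
    Lf_out' hk hk4 p X hu' hlp hl2 hnu' q
  -- the products
  let be : Bool → ℝ := fun _ => wyV k (PP X) (p.Y X) 0 l
  let bi : Fin (k + 1) → ℝ := fun j => wyV k (PP X) (p.Y X) j.val l
  have hbe : ∀ i, 0 ≤ be i ∧ be i ≤ 1 := fun i => wyV_01 _ _ _ _ _
  have hbi : ∀ i, 0 ≤ bi i ∧ bi i ≤ 1 := fun i => wyV_01 _ _ _ _ _
  have eEv : ∀ q, Ev p X l q = PW (univ : Finset Bool) nl6_v be l q := fun q => rfl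
  have eIv : ∀ (w : Vec k) q, Iv p X w l q = PW (ivx k) w bi l q := fun w q => rfl
  let s2 : Finset (Bool ⊕ Bool) := (univ : Finset Bool).disjSum univ
  let v2 : Bool ⊕ Bool → ℤ × ℤ := Sum.elim nl6_v nl6_v
  let b2 : Bool ⊕ Bool → ℝ := Sum.elim be be
  let s3 : Finset ((Bool ⊕ Bool) ⊕ Fin (k + 1)) := s2.disjSum (ivx k)
  let v3 : (Bool ⊕ Bool) ⊕ Fin (k + 1) → ℤ × ℤ := Sum.elim v2 u
  let b3 : (Bool ⊕ Bool) ⊕ Fin (k + 1) → ℝ := Sum.elim b2 bi
  have e2 : ∀ q, Ev p X l q * Ev p X l q = PW s2 v2 b2 l q := fun q => by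
    rw [eEv q]
    exact PW_mul _ _ _ _ _ _ l q
  have e3 : ∀ q, Ev p X l q * Ev p X l q * Iv p X u l q = PW s3 v3 b3 l q := fun q => by
    rw [e2, eIv]
    exact PW_mul _ _ _ _ _ _ l q
  have hb2 : ∀ i ∈ s2, 0 ≤ b2 i ∧ b2 i ≤ 1 := by
    rintro (i | i) _
    · exact hbe i
    · exact hbe i
  have hb3 : ∀ i ∈ s3, 0 ≤ b3 i ∧ b3 i ≤ 1 := by
    rintro (i | i) hi
    · exact hb2 i (Finset.inl_mem_disjSum.1 hi)
    · exact hbi i
  have hv2 : ∀ i ∈ s2, ¬ ((l : ℤ) ∣ (v2 i).1 ∧ (l : ℤ) ∣ (v2 i).2) := by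
    rintro (i | i) _
    · exact nl6_v_ne hlp i
    · exact nl6_v_ne hlp i
  have hv3 : ∀ i ∈ s3, ¬ ((l : ℤ) ∣ (v3 i).1 ∧ (l : ℤ) ∣ (v3 i).2) := by
    rintro (i | i) hi
    · exact hv2 i (Finset.inl_mem_disjSum.1 hi)
    · exact nl6_prim hu (by omega) hlp i
  have hvi : ∀ i ∈ ivx k, ¬ ((l : ℤ) ∣ (u i).1 ∧ (l : ℤ) ∣ (u i).2) := fun i _ =>
    nl6_prim hu (by omega) hlp i
  have hvi' : ∀ i ∈ ivx k, ¬ ((l : ℤ) ∣ (u' i).1 ∧ (l : ℤ) ∣ (u' i).2) := fun i _ =>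
    nl6_prim hu' (by omega) hlp i
  -- sizes
  have hl0 : (0 : ℝ) < l := by exact_mod_cast hlp.pos
  have hlbig : 100 * ((k : ℝ) + 1) ^ 2 ≤ l := by
    have h1 : ((100 * (k + 1) ^ 2 : ℕ) : ℝ) ≤ (l : ℝ) := by
      exact_mod_cast hP00.trans hlP.le
    push_cast at h1
    exact h1
  have hk1 : (5 : ℝ) ≤ (k : ℝ) + 1 := by
    have : (4 : ℝ) ≤ k := by exact_mod_cast hk4
    linarith
  have hs2c : (s2.card : ℝ) = 4 := by
    have : s2.card = 4 := by
      simp [s2, Finset.card_disjSum]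
    rw [this]
    norm_num
  have hs3c : (s3.card : ℝ) ≤ k + 5 := by
    have : s3.card = s2.card + (ivx k).card := Finset.card_disjSum _ _
    rw [this]
    push_cast
    rw [hs2c]
    linarith [nl6_card (k := k)]
  have hic := nl6_card (k := k)
  have hN1 : (s3.card : ℝ) * ((ivx k).card : ℝ) ≤ ((k : ℝ) + 5) ^ 2 := by
    have h0 : (0 : ℝ) ≤ (ivx k).card := by positivity
    nlinarith
  have hN2 : (s2.card : ℝ) * ((ivx k).card : ℝ) ≤ ((k : ℝ) + 5) ^ 2 := by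
    rw [hs2c]
    nlinarith
  -- the means
  have hA := PW_ge s2 v2 b2 hb2 hlp hl4 hv2
  have hB := PW_ge (ivx k) u bi (fun i _ => hbi i) hlp hl4 hvi
  have hB' := PW_ge (ivx k) u' bi (fun i _ => hbi i) hlp hl4 hvi'
  set a : ℝ := MV l (PW s2 v2 b2 l) with ha
  set b : ℝ := MV l (PW (ivx k) u bi l) with hb
  set c : ℝ := MV l (PW (ivx k) u' bi l) with hc
  have ha01 := MV_01 (m := l) (h := PW s2 v2 b2 l) (fun q => PW_01 _ _ _ hb2 _ _)
  have hb01 := MV_01 (m := l) (h := PW (ivx k) u bi l) (fun q => PW_01 _ _ _ (fun i _ => hbi i) _ _)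
  have hc01 := MV_01 (m := l) (h := PW (ivx k) u' bi l)
    (fun q => PW_01 _ _ _ (fun i _ => hbi i) _ _)
  rw [← ha] at ha01
  rw [← hb] at hb01
  rw [← hc] at hc01
  have hfrac1 : 2 * (s2.card : ℝ) / l ≤ 1 / 50 := by
    rw [hs2c, div_le_div_iff₀ hl0 (by norm_num)]
    nlinarith
  have hfrac2 : 2 * ((ivx k).card : ℝ) / l ≤ 1 / 50 := by
    rw [div_le_div_iff₀ hl0 (by norm_num)]
    nlinarith
  have ha2 : 49 / 50 ≤ a := by linarith
  have hb2' : 49 / 50 ≤ b := by linarith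
  have hc2 : 49 / 50 ≤ c := by linarith
  have hbc2 : (49 / 50) * (49 / 50) ≤ b * c :=
    mul_le_mul hb2' hc2 (by norm_num) hb01.1
  have habc : (49 / 50) * ((49 / 50) * (49 / 50)) ≤ a * (b * c) :=
    mul_le_mul ha2 hbc2 (by norm_num) ha01.1
  have hbc1 : b * c ≤ 1 := mul_le_one₀ hb01.2 hc01.1 hc01.2
  have hGLo : GLo p X u u' l = a * (b * c) := by
    unfold GLo
    rw [hgl, hgl']
    have h1 : (fun q => Ef p X (fE u) l q * Ef p X (fE u') l q) = PW s2 v2 b2 l := by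
      funext q
      rw [hEf, hEf', e2]
    rw [h1]
    rfl
  have hGL2 : 1 / 2 ≤ GLo p X u u' l := by
    rw [hGLo]
    norm_num at habc ⊢
    linarith
  -- the covariances
  have cov1 := PW_cov s3 (ivx k) v3 u' b3 bi hb3 (fun i _ => hbi i) hlp hl4 hv3 hvi'
  have cov2 := PW_cov s2 (ivx k) v2 u b2 bi hb2 (fun i _ => hbi i) hlp hl4 hv2 hvi
  have f1 : (fun q => PW s3 v3 b3 l q * PW (ivx k) u' bi l q) =
      fun q => Lf p X u l q * Lf p X u' l q := by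
    funext q
    rw [hLf, hLf', ← e3, ← eIv]
    ring
  have f2 : (fun q => PW s2 v2 b2 l q * PW (ivx k) u bi l q) =
      fun q => Lf p X u l q * Ef p X (fE u') l q := by
    funext q
    rw [hLf, hEf', ← e2, ← eIv]
    ring
  have f3 : PW s3 v3 b3 l = fun q => Lf p X u l q * Ef p X (fE u') l q := by
    funext q
    rw [hLf, hEf', ← e3]
    ring
  rw [f1, f3] at cov1
  rw [f2] at cov2
  set x : ℝ := MV l (fun q => Lf p X u l q * Lf p X u' l q) with hx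
  set y : ℝ := MV l (fun q => Lf p X u l q * Ef p X (fE u') l q) with hy
  -- the error
  have key : ∃ E : ℝ, |x - y * c| ≤ E ∧ |y - a * b| ≤ E ∧
      4 * E ≤ tl (24 * ((k : ℝ) + 5) ^ 2) u u' l := by
    set N : ℝ := ((k : ℝ) + 5) ^ 2 with hN
    have hN0 : 0 < N := by positivity
    have hl1 : (1 : ℝ) ≤ l := by exact_mod_cast hlp.one_lt.le
    have g1 : (s3.card : ℝ) * (ivx k).card * (6 / (l : ℝ) ^ 2) ≤ 6 * N / (l : ℝ) ^ 2 := by
      have := mul_le_mul_of_nonneg_right hN1 (show (0 : ℝ) ≤ 6 / (l : ℝ) ^ 2 by positivity)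
      refine this.trans (le_of_eq ?_)
      ring
    have g2 : (s2.card : ℝ) * (ivx k).card * (6 / (l : ℝ) ^ 2) ≤ 6 * N / (l : ℝ) ^ 2 := by
      have := mul_le_mul_of_nonneg_right hN2 (show (0 : ℝ) ≤ 6 / (l : ℝ) ^ 2 by positivity)
      refine this.trans (le_of_eq ?_)
      ring
    have g3 : (s3.card : ℝ) * (ivx k).card * (4 / (l : ℝ)) ≤ 6 * N / (l : ℝ) := by
      have := mul_le_mul_of_nonneg_right hN1 (show (0 : ℝ) ≤ 4 / (l : ℝ) by positivity)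
      refine this.trans ?_
      have : N * (4 / (l : ℝ)) = 4 * N / l := by ring
      rw [this]
      apply div_le_div_of_nonneg_right _ hl0.le
      linarith
    have g4 : (s2.card : ℝ) * (ivx k).card * (4 / (l : ℝ)) ≤ 6 * N / (l : ℝ) := by
      have := mul_le_mul_of_nonneg_right hN2 (show (0 : ℝ) ≤ 4 / (l : ℝ) by positivity)
      refine this.trans ?_
      have : N * (4 / (l : ℝ)) = 4 * N / l := by ring
      rw [this]
      apply div_le_div_of_nonneg_right _ hl0.le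
      linarith
    have g5 : 6 * N / (l : ℝ) ^ 2 ≤ 6 * N / (l : ℝ) := by
      apply div_le_div_of_nonneg_left (by positivity) hl0
      nlinarith
    by_cases hCo : Co u u' l
    · refine ⟨6 * N / l, ?_, ?_, ?_⟩
      · rcases cov1 with h | ⟨_, h⟩
        · exact h.trans (g1.trans g5)
        · exact h.trans g3
      · rcases cov2 with h | ⟨_, h⟩
        · exact h.trans (g2.trans g5)
        · exact h.trans g4
      · unfold tl
        rw [if_pos (Or.inr hCo)]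
        have h1 : (0 : ℝ) ≤ 24 * N / (l : ℝ) ^ 2 := by positivity
        have h2 : 4 * (6 * N / (l : ℝ)) = 24 * N / l := by ring
        rw [h2]
        linarith
    · refine ⟨6 * N / (l : ℝ) ^ 2, ?_, ?_, ?_⟩
      · rcases cov1 with h | ⟨⟨i, hi, j, hj, hd⟩, _⟩
        · exact h.trans g1
        · exfalso
          apply hCo
          rcases i with (i | i) | i
          · rcases nl6_end hk4 hu' hnu' hj (i := i) hd with ⟨z1, z2, z3⟩ | ⟨z1, z2, z3⟩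
            · exact Or.inl ⟨j, z1, z2, Or.inr z3⟩
            · exact Or.inr (Or.inl ⟨j, z1, z2, Or.inr z3⟩)
          · rcases nl6_end hk4 hu' hnu' hj (i := i) hd with ⟨z1, z2, z3⟩ | ⟨z1, z2, z3⟩
            · exact Or.inl ⟨j, z1, z2, Or.inr z3⟩
            · exact Or.inr (Or.inl ⟨j, z1, z2, Or.inr z3⟩)
          · have hi' := nl6_mem.1 (Finset.inr_mem_disjSum.1 hi)
            have hj' := nl6_mem.1 hj
            exact Or.inr (Or.inr ⟨i, j, hi'.1, hi'.2, hj'.1, hj'.2, hd⟩)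
      · rcases cov2 with h | ⟨⟨i, hi, j, hj, hd⟩, _⟩
        · exact h.trans g2
        · exfalso
          apply hCo
          rcases i with i | i
          · rcases nl6_end hk4 hu hnu hj (i := i) hd with ⟨z1, z2, z3⟩ | ⟨z1, z2, z3⟩
            · exact Or.inl ⟨j, z1, z2, Or.inl z3⟩
            · exact Or.inr (Or.inl ⟨j, z1, z2, Or.inl z3⟩)
          · rcases nl6_end hk4 hu hnu hj (i := i) hd with ⟨z1, z2, z3⟩ | ⟨z1, z2, z3⟩
            · exact Or.inl ⟨j, z1, z2, Or.inl z3⟩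
            · exact Or.inr (Or.inl ⟨j, z1, z2, Or.inl z3⟩)
      · unfold tl
        rw [if_neg (by
          rintro (h | h)
          · exact hnd h
          · exact hCo h)]
        have h2 : 4 * (6 * N / (l : ℝ) ^ 2) = 24 * N / (l : ℝ) ^ 2 := by ring
        rw [h2, add_zero]
  obtain ⟨E, hE1, hE2, hE3⟩ := key
  have hfin := nl6_arith ha01.1 ha01.2 hb01.1 hb01.2 hc01.1 hc01.2 hGLo hGL2 hE1 hE2 hE3
  refine ⟨by linarith, ?_, hfin.1, ?_⟩
  · rw [hGLo]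
    exact mul_le_one₀ ha01.2 (mul_nonneg hb01.1 hc01.1) hbc1
  · rw [hgl']
    exact hfin.2

end Pool.Agent.PATH.NC
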