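import Pool.Agent.Lib_helper88.NC.Defs
import Pool.Agent.Lib_helper88.NCF.NA2
import Pool.Agent.Lib_helper88.NCF.NA4
import Pool.Agent.Lib_helper88.NCF.NL0
import Pool.Agent.Lib_helper88.NCF.NL1
import Pool.Agent.Lib_helper88.NCF.NL2
import Pool.Agent.Lib_helper88.NCF.NL4

/-!
# NC, block NL8: the local comparison at the primes of the ends
-/

set_option autoImplicit false

namespace Pool.Agent.PATH.NC

open Finset Pool.Agent.PENT Pool.Agent.PENT.EQ

variable {k : ℕ}

/-! ### weights -/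

theorem nl8_w0 {P Y : ℝ} {l : ℕ} (h2 : l ≠ 2) (hP : P < l) : wyV k P Y k l = wyV k P Y 0 l := by
  unfold wyV beV
  simp [h2, not_le.2 hP]

theorem nl8_w0_ge {P Y : ℝ} {l : ℕ} (h2 : l ≠ 2) (hP : P < l) : 5 / 8 ≤ wyV k P Y 0 l := by
  unfold wyV beV
  rw [if_neg h2, if_neg (not_le.2 hP)]
  by_cases h : (l : ℝ) ≤ Y
  · rw [if_pos h, if_pos (Or.inl rfl)]
  · rw [if_neg h]
    norm_num

theorem nl8_wd {Y : ℝ} {l : ℕ} : 3 / 8 ≤ wdE k Y 0 l ∧ wdE k Y 0 l ≤ 1 := by
  unfold wdE alE
  split_ifs with h h'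
  · constructor <;> norm_num
  · exact absurd (Or.inl rfl) h'
  · constructor <;> norm_num

theorem nl8_wdk (hk : 1 ≤ k) {Y : ℝ} {l : ℕ} : wdE k Y (k - 1) l = wdE k Y 0 l := by
  unfold wdE alE
  rw [if_pos (show k - 1 = 0 ∨ k - 1 + 1 = k from Or.inr (by omega)),
    if_pos (show (0 : ℕ) = 0 ∨ 0 + 1 = k from Or.inl rfl)]

theorem nl8_E1_01 {P Y : ℝ} {d l : ℕ} (a : ℤ) : 0 ≤ E1 k P Y d l a ∧ E1 k P Y d l a ≤ 1 := by
  have h1 := nl8_wd (k := k) (Y := Y) (l := l)
  have h2 := wyV_01 k P Y 0 l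
  unfold E1
  split_ifs
  · exact ⟨by linarith, h1.2⟩
  · exact ⟨le_rfl, zero_le_one⟩
  · exact h2
  · exact ⟨zero_le_one, le_rfl⟩

theorem nl8_E1_dvd {P Y : ℝ} {d l : ℕ} (h2 : l ≠ 2) (hP : P < l) {a : ℤ} (ha : (l : ℤ) ∣ a) :
    3 / 8 ≤ E1 k P Y d l a := by
  have h1 := nl8_wd (k := k) (Y := Y) (l := l)
  have h3 := nl8_w0_ge (k := k) (Y := Y) h2 hP
  unfold E1
  rw [if_pos ha, if_pos ha]
  split_ifs
  · exact h1.1
  · linarith

theorem nl8_E1_not {P Y : ℝ} {d l : ℕ} (h2 : l ≠ 2) (hP : P < l) (hd : ¬ l ∣ d) (a : ℤ) :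
    5 / 8 ≤ E1 k P Y d l a := by
  have h3 := nl8_w0_ge (k := k) (Y := Y) h2 hP
  unfold E1
  rw [if_neg hd]
  split_ifs
  · exact h3
  · norm_num

theorem nl8_E1_zero {P Y : ℝ} {d l : ℕ} (hd : l ∣ d) {a : ℤ} (ha : ¬ (l : ℤ) ∣ a) :
    E1 k P Y d l a = 0 := by
  unfold E1
  rw [if_pos hd, if_neg ha]

theorem nl8_fv1 (q : ℤ × ℤ × ℤ) : fv q (1, 0) = q.1 := by
  unfold fv qf
  simp

theorem nl8_fv2 (q : ℤ × ℤ × ℤ) : fv q (0, 1) = q.2.2 := by
  unfold fv qf
  simp

/-! ### the divisors -/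

theorem nl8_dE0 (u : Vec k) : dE u 0 = 1 := by
  unfold dE
  rw [dif_neg (by omega)]

theorem nl8_dEk1 (u : Vec k) : dE u (k + 1) = 1 := by
  unfold dE
  rw [dif_neg (by omega)]

theorem nl8_dvd_Dall {u : Vec k} {i l : ℕ} (h1 : 1 ≤ i) (h2 : i ≤ k) (h : l ∣ dE u i) :
    l ∣ Dall u := by
  unfold Dall
  exact h.trans (Finset.dvd_prod_of_mem _ (Finset.mem_Icc.2 ⟨h1, h2⟩))

theorem nl8_unique {p : Prm k} {X : ℕ} {u : Vec k} (hu : GP p X u) {l : ℕ} (hl : l.Prime)
    {i j : ℕ} (hi1 : 1 ≤ i) (hi2 : i ≤ k) (hj1 : 1 ≤ j) (hj2 : j ≤ k) (hi : l ∣ dE u i)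
    (hj : l ∣ dE u j) : i = j := by
  have key : ∀ i j, 1 ≤ i → i < j → j ≤ k → l ∣ dE u i → l ∣ dE u j → False := by
    intro i j h1 h2 h3 h4 h5
    have h6 := Nat.dvd_gcd h4 h5
    rw [hu.cop i j h1 h2 h3] at h6
    exact hl.one_lt.ne' (Nat.dvd_one.1 h6)
  rcases lt_trichotomy i j with h | h | h
  · exact (key i j hi1 h hj2 hi hj).elim
  · exact h
  · exact (key j i hj1 h hi2 hj hi).elim

open Classical in
/-- the local factor at a prime of `dE u i0` -/
theorem nl8_gen {p : Prm k} {X : ℕ} {u : Vec k} (hu : GP p X u) {l : ℕ} (hl : l.Prime)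
    {i0 : ℕ} (hi1 : 1 ≤ i0) (hi2 : i0 ≤ k) (hi : l ∣ dE u i0) (q : ℤ × ℤ × ℤ) :
    Lf p X u l q = (if (l : ℤ) ∣ fv q (u ⟨i0 - 1, by omega⟩) then 1 else 0) *
      wdE k (p.Y X) (i0 - 1) l * ∏ j : Fin (k + 1), (if j.val = i0 - 1 ∨ j.val = i0 then 1 else
        if (l : ℤ) ∣ fv q (u j) then wyV k (PP X) (p.Y X) j.val l else 1) := by
  have hD : l ∣ Dall u := nl8_dvd_Dall hi1 hi2 hi
  have hex : ∃ j : Fin k, l ∣ dE u (j.val + 1) := ⟨⟨i0 - 1, by omega⟩, by
    show l ∣ dE u (i0 - 1 + 1)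
    rw [Nat.sub_add_cancel hi1]
    exact hi⟩
  have hch : ∀ j : Fin k, l ∣ dE u (j.val + 1) → j.val = i0 - 1 := by
    intro j hj
    have := nl8_unique hu hl (i := j.val + 1) (j := i0) (by omega) (by omega) hi1 hi2 hj hi
    omega
  have hLv : Lv u l = u ⟨i0 - 1, by omega⟩ := by
    unfold Lv
    rw [dif_pos hex]
    congr 1
    apply Fin.ext
    exact hch _ hex.choose_spec
  have hedge : (∏ j : Fin k, if l ∣ dE u (j.val + 1) then wdE k (p.Y X) j.val l else 1) =
      wdE k (p.Y X) (i0 - 1) l := by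
    rw [Fintype.prod_eq_single (⟨i0 - 1, by omega⟩ : Fin k)]
    · rw [if_pos]
      show l ∣ dE u (i0 - 1 + 1)
      rw [Nat.sub_add_cancel hi1]
      exact hi
    · intro j hj
      rw [if_neg]
      intro h
      apply hj
      apply Fin.ext
      exact hch j h
  have hvert : ∀ j : Fin (k + 1), (l ∣ dE u j.val * dE u (j.val + 1)) ↔
      (j.val = i0 - 1 ∨ j.val = i0) := by
    intro j
    constructor
    · intro h
      rcases (hl.dvd_mul).1 h with h | h
      · right
        rcases Nat.eq_zero_or_pos j.val with h0 | h0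
        · rw [h0, nl8_dE0] at h
          exact absurd (Nat.dvd_one.1 h) hl.one_lt.ne'
        · exact nl8_unique hu hl h0 (by omega) hi1 hi2 h hi
      · left
        rcases Nat.lt_or_ge j.val k with h0 | h0
        · have := nl8_unique hu hl (i := j.val + 1) (by omega) (by omega) hi1 hi2 h hi
          omega
        · have h3 : j.val = k := by omega
          rw [h3, nl8_dEk1] at h
          exact absurd (Nat.dvd_one.1 h) hl.one_lt.ne'
    · rintro (h | h)
      · apply Dvd.dvd.mul_left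
        rw [h, Nat.sub_add_cancel hi1]
        exact hi
      · apply Dvd.dvd.mul_right
        rw [h]
        exact hi
  unfold Lf
  rw [hLv, hedge]
  congr 1
  · congr 1
    by_cases h : (l : ℤ) ∣ fv q (u ⟨i0 - 1, by omega⟩)
    · rw [if_pos h, if_pos (fun _ => h)]
    · rw [if_neg h, if_neg (fun h' => h (h' hD))]
  · refine Finset.prod_congr rfl fun j _ => ?_
    by_cases h : j.val = i0 - 1 ∨ j.val = i0
    · rw [if_pos h, if_pos ((hvert j).2 h)]
    · rw [if_neg h, if_neg (fun h' => h ((hvert j).1 h'))]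

theorem nl8_univ (hk : 2 ≤ k) (F : Fin (k + 1) → ℝ) :
    ∏ j : Fin (k + 1), F j = F 0 * (F (Fin.last k) * ∏ j ∈ ivx k, F j) := by
  have h1 : (univ : Finset (Fin (k + 1))) = insert 0 (insert (Fin.last k) (ivx k)) := by
    ext j
    unfold ivx
    simp only [mem_univ, mem_insert, mem_filter, true_and, true_iff, Fin.ext_iff, Fin.val_zero,
      Fin.val_last]
    omega
  rw [h1, Finset.prod_insert, Finset.prod_insert]
  · unfold ivx
    simp only [mem_filter, mem_univ, true_and, Fin.val_last]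
    omega
  · unfold ivx
    simp only [mem_insert, mem_filter, mem_univ, true_and, Fin.ext_iff, Fin.val_last, Fin.val_zero]
    omega

/-- the local factor is the factor of the ends times a product over interior vertices -/
theorem nl8_Lf (hk : Even k) (hk4 : 4 ≤ k) {p : Prm k} {X : ℕ} {u : Vec k} (hu : GP p X u)
    {l : ℕ} (hl : l.Prime) (h2 : l ≠ 2) (hP : PP X < l) (hint : ¬ l ∣ Dint u) :
    ∃ s : Finset (Fin (k + 1)), s ⊆ ivx k ∧
      (∀ q, Lf p X u l q = Ef p X (fE u) l q *
        PW s u (fun j => wyV k (PP X) (p.Y X) j.val l) l q) ∧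
      (l ∣ dE u 1 → ∀ j ∈ s, ¬ (l : ℤ) ∣ (u j).2) ∧
      (l ∣ dE u k → ∀ j ∈ s, ¬ (l : ℤ) ∣ (u j).1) := by
  classical
  have hD := (hu.Dall_eq (by omega)).1
  by_cases hall : l ∣ Dall u
  · have hcase : l ∣ dE u 1 ∨ l ∣ dE u k := by
      rw [hD] at hall
      rcases (hl.dvd_mul).1 hall with h | h
      · exact (hl.dvd_mul).1 h
      · exact absurd h hint
    rcases hcase with h | h
    · -- the prime divides the first end
      have hnk : ¬ l ∣ dE u k := by
        intro h'
        have := nl8_unique hu hl (i := 1) (j := k) le_rfl (by omega) (by omega) le_rfl h h'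
        omega
      refine ⟨(ivx k).filter (fun j => 2 ≤ j.val), Finset.filter_subset _ _, fun q => ?_,
        fun _ j hj => ?_, fun h' => absurd h' hnk⟩
      · rw [nl8_gen hu hl (i0 := 1) le_rfl (by omega) h q, nl8_univ (by omega)]
        have hu0 : u ⟨1 - 1, by omega⟩ = (1, 0) := hu.first
        rw [hu0, nl8_fv1]
        rw [if_pos (show (0 : Fin (k + 1)).val = 1 - 1 ∨ (0 : Fin (k + 1)).val = 1 from Or.inl rfl),
          if_neg (show ¬ ((Fin.last k).val = 1 - 1 ∨ (Fin.last k).val = 1) from by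
            rw [Fin.val_last]; omega), hu.last, nl8_fv2, Fin.val_last, nl8_w0 h2 hP, one_mul]
        have hE : Ef p X (fE u) l q = (if (l : ℤ) ∣ q.1 then wdE k (p.Y X) 0 l else 0) *
            (if (l : ℤ) ∣ q.2.2 then wyV k (PP X) (p.Y X) 0 l else 1) := by
          unfold Ef E1 fE
          rw [if_pos h, if_neg hnk]
        rw [hE]
        unfold PW
        rw [Finset.prod_filter]
        have hp : ∀ j ∈ ivx k, (if j.val = 1 - 1 ∨ j.val = 1 then (1 : ℝ) else
            if (l : ℤ) ∣ fv q (u j) then wyV k (PP X) (p.Y X) j.val l else 1) =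
            if 2 ≤ j.val then (if (l : ℤ) ∣ fv q (u j) then wyV k (PP X) (p.Y X) j.val l else 1)
              else 1 := by
          intro j hj
          have hj1 : 1 ≤ j.val := (Finset.mem_filter.1 hj).2.1
          by_cases hj2 : 2 ≤ j.val
          · rw [if_pos hj2, if_neg (by omega)]
          · rw [if_neg hj2, if_pos (by omega)]
        rw [Finset.prod_congr rfl hp]
        by_cases ha : (l : ℤ) ∣ q.1
        · rw [if_pos ha, if_pos ha]
          ring
        · rw [if_neg ha, if_neg ha]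
          ring
      · rw [Finset.mem_filter] at hj
        intro hd
        have h3 := hu.nice ⟨0, by omega⟩ j (by
          intro he
          have h9 : j.val = 0 := congrArg Fin.val he
          omega) (by
          intro he
          have h9 : j.val = 0 + 1 := congrArg Fin.val he
          omega)
        have h4 : u (Fin.castSucc ⟨0, by omega⟩) = (1, 0) := hu.first
        rw [h4] at h3
        have h5 : (l : ℤ) ∣ dt (1, 0) (u j) := by
          unfold dt
          simpa using hd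
        have h6 := Nat.dvd_gcd h (Int.natCast_dvd.1 h5)
        rw [show dE u 1 = dE u ((⟨0, by omega⟩ : Fin k).val + 1) from rfl, h3] at h6
        exact hl.one_lt.ne' (Nat.dvd_one.1 h6)
    · -- the prime divides the last end
      have hn1 : ¬ l ∣ dE u 1 := by
        intro h'
        have := nl8_unique hu hl (i := 1) (j := k) le_rfl (by omega) (by omega) le_rfl h' h
        omega
      have hdk : (l : ℤ) ∣ (u ⟨k - 1, by omega⟩).1 := by
        have h3 : dE u k = (dt (u ⟨k - 1, by omega⟩) (u ⟨k, by omega⟩)).natAbs := by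
          unfold dE
          rw [dif_pos ⟨by omega, le_rfl⟩]
        have h4 : u ⟨k, by omega⟩ = (0, 1) := hu.last
        rw [h3, h4] at h
        have h5 := Int.natCast_dvd.2 h
        unfold dt at h5
        simpa using h5
      have hdk2 : ¬ (l : ℤ) ∣ (u ⟨k - 1, by omega⟩).2 := by
        intro h3
        obtain ⟨a, b, hab⟩ := hu.prim (by omega) ⟨k - 1, by omega⟩
        have h4 : (l : ℤ) ∣ 1 := by
          rw [← hab]
          exact dvd_add (Dvd.dvd.mul_left hdk a) (Dvd.dvd.mul_left h3 b)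
        have := Int.natCast_dvd.1 h4
        simp at this
        exact hl.one_lt.ne' this
      have hpl : Prime (l : ℤ) := Nat.prime_iff_prime_int.mp hl
      refine ⟨(ivx k).filter (fun j => j.val + 2 ≤ k), Finset.filter_subset _ _, fun q => ?_,
        fun h' => absurd h' hn1, fun _ j hj => ?_⟩
      · rw [nl8_gen hu hl (i0 := k) (by omega) le_rfl h q, nl8_univ (by omega)]
        have hcond : ((l : ℤ) ∣ fv q (u ⟨k - 1, by omega⟩)) ↔ (l : ℤ) ∣ q.2.2 := by
          set w := u ⟨k - 1, by omega⟩ with hw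
          obtain ⟨t, ht⟩ := hdk
          have h3 : fv q w = q.2.2 * w.2 ^ 2 +
              (l : ℤ) * (t * (q.1 * w.1 + 2 * q.2.1 * w.2)) := by
            unfold fv qf
            rw [show q.1 * w.1 ^ 2 + 2 * q.2.1 * w.1 * w.2 + q.2.2 * w.2 ^ 2 =
              q.2.2 * w.2 ^ 2 + w.1 * (q.1 * w.1 + 2 * q.2.1 * w.2) by ring]
            nth_rewrite 1 [ht]
            ring
          rw [h3, Int.dvd_add_left (Dvd.intro _ rfl)]
          constructor
          · intro h4
            rcases hpl.dvd_or_dvd h4 with h5 | h5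
            · exact h5
            · exact absurd (hpl.dvd_of_dvd_pow h5) hdk2
          · intro h4
            exact Dvd.dvd.mul_right h4 _
        rw [if_neg (show ¬ ((0 : Fin (k + 1)).val = k - 1 ∨ (0 : Fin (k + 1)).val = k) from by
            show ¬ ((0 : ℕ) = k - 1 ∨ (0 : ℕ) = k)
            omega),
          if_pos (show ((Fin.last k).val = k - 1 ∨ (Fin.last k).val = k) from
            Or.inr (Fin.val_last k)), hu.first, nl8_fv1, Fin.val_zero, nl8_wdk (by omega), one_mul]
        have hE : Ef p X (fE u) l q = (if (l : ℤ) ∣ q.1 then wyV k (PP X) (p.Y X) 0 l else 1) *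
            (if (l : ℤ) ∣ q.2.2 then wdE k (p.Y X) 0 l else 0) := by
          unfold Ef E1 fE
          rw [if_pos h, if_neg hn1]
        rw [hE]
        unfold PW
        rw [Finset.prod_filter]
        have hp : ∀ j ∈ ivx k, (if j.val = k - 1 ∨ j.val = k then (1 : ℝ) else
            if (l : ℤ) ∣ fv q (u j) then wyV k (PP X) (p.Y X) j.val l else 1) =
            if j.val + 2 ≤ k then (if (l : ℤ) ∣ fv q (u j) then wyV k (PP X) (p.Y X) j.val l else 1)
              else 1 := by
          intro j hj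
          have hj1 := (Finset.mem_filter.1 hj).2
          by_cases hj2 : j.val + 2 ≤ k
          · rw [if_pos hj2, if_neg (by omega)]
          · rw [if_neg hj2, if_pos (by omega)]
        rw [Finset.prod_congr rfl hp]
        by_cases ha : (l : ℤ) ∣ q.2.2
        · rw [if_pos (hcond.2 ha), if_pos ha]
          ring
        · rw [if_neg (fun h' => ha (hcond.1 h')), if_neg ha]
          ring
      · rw [Finset.mem_filter] at hj
        intro hd
        have h3 := hu.nice ⟨k - 1, by omega⟩ j (by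
          intro he
          have h9 : j.val = k - 1 := congrArg Fin.val he
          omega) (by
          intro he
          have h9 : j.val = k - 1 + 1 := congrArg Fin.val he
          omega)
        have h5 : (l : ℤ) ∣ dt (u (Fin.castSucc ⟨k - 1, by omega⟩)) (u j) := by
          unfold dt
          exact dvd_sub (Dvd.dvd.mul_right hdk _) (Dvd.dvd.mul_left hd _)
        have h7 : dE u k = dE u ((⟨k - 1, by omega⟩ : Fin k).val + 1) := by
          congr 1
          show k = k - 1 + 1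
          omega
        rw [h7] at h
        have h6 := Nat.dvd_gcd h (Int.natCast_dvd.1 h5)
        rw [h3] at h6
        exact hl.one_lt.ne' (Nat.dvd_one.1 h6)
  · refine ⟨ivx k, Finset.Subset.refl _, fun q => ?_, fun h => ?_, fun h => ?_⟩
    · rw [Lf_out' hk hk4 p X hu hl h2 hall q, Ef_out p X (fE u) _ hl q]
      · rfl
      · intro h
        rcases (hl.dvd_mul).1 h with h | h
        · exact hall (nl8_dvd_Dall le_rfl (by omega) h)
        · exact hall (nl8_dvd_Dall (by omega) le_rfl h)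
    · exact absurd (nl8_dvd_Dall le_rfl (by omega) h) hall
    · exact absurd (nl8_dvd_Dall (by omega) le_rfl h) hall

/-- Bernoulli -/
theorem nl8_bern {ι : Type} (s : Finset ι) (x : ι → ℝ) (hx : ∀ i ∈ s, 0 ≤ x i ∧ x i ≤ 1) :
    1 - ∑ i ∈ s, (1 - x i) ≤ ∏ i ∈ s, x i := by
  classical
  induction s using Finset.induction_on with
  | empty => simp
  | insert a s ha ih =>
    rw [Finset.sum_insert ha, Finset.prod_insert ha]
    have h1 := ih fun i hi => hx i (Finset.mem_insert_of_mem hi)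
    have h2 := hx a (Finset.mem_insert_self a s)
    have h3 : 0 ≤ ∏ i ∈ s, x i :=
      Finset.prod_nonneg fun i hi => (hx i (Finset.mem_insert_of_mem hi)).1
    have h4 : ∏ i ∈ s, x i ≤ 1 :=
      Finset.prod_le_one (fun i hi => (hx i (Finset.mem_insert_of_mem hi)).1)
        fun i hi => (hx i (Finset.mem_insert_of_mem hi)).2
    nlinarith

theorem nl8_PW_ge {ι : Type} (s : Finset ι) (v : ι → ℤ × ℤ) (b : ι → ℝ)
    (hb : ∀ i ∈ s, 0 ≤ b i ∧ b i ≤ 1) (l : ℕ) (q : ℤ × ℤ × ℤ) :
    1 - ∑ i ∈ s, (if (l : ℤ) ∣ fv q (v i) then (1 : ℝ) else 0) ≤ PW s v b l q := by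
  have h1 := nl8_bern s (fun i => if (l : ℤ) ∣ fv q (v i) then b i else 1) (fun i hi => by
    split_ifs
    · exact hb i hi
    · exact ⟨zero_le_one, le_rfl⟩)
  refine le_trans ?_ h1
  apply sub_le_sub_left
  refine Finset.sum_le_sum fun i hi => ?_
  split_ifs
  · linarith [(hb i hi).1]
  · simp

/-- the mean of a function on a line times a product over other lines -/
theorem nl8_line {ι : Type} (s : Finset ι) (w : ι → ℤ × ℤ) (b : ι → ℝ)
    (hb : ∀ i ∈ s, 0 ≤ b i ∧ b i ≤ 1) {l : ℕ} (hl : l.Prime) (h4 : l % 4 = 1) (v : ℤ × ℤ)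
    (hv : ¬ ((l : ℤ) ∣ v.1 ∧ (l : ℤ) ∣ v.2)) (hw : ∀ i ∈ s, ¬ (l : ℤ) ∣ dt v (w i))
    (h : ℤ × ℤ × ℤ → ℝ) {δ : ℝ} (hδ : 0 < δ)
    (h1 : ∀ q, δ * (if (l : ℤ) ∣ fv q v then 1 else 0) ≤ h q)
    (h2 : ∀ q, h q ≤ (if (l : ℤ) ∣ fv q v then 1 else 0)) :
    (1 - (s.card : ℝ) / (δ * l)) * MV l h ≤ MV l (fun q => h q * PW s w b l q) := by
  have hl0 : (0 : ℝ) < l := by exact_mod_cast hl.pos
  have hh0 : ∀ q, 0 ≤ h q := by
    intro q
    refine le_trans ?_ (h1 q)
    split_ifs
    · linarith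
    · simp
  have hline := MV_line hl h4 v hv
  have hM : δ * (2 / ((l : ℝ) + 1)) ≤ MV l h := by
    rw [← hline, ← MV_smul']
    exact MV_mono' h1
  have hpt : ∀ q, h q - ∑ i ∈ s, (if (l : ℤ) ∣ fv q v ∧ (l : ℤ) ∣ fv q (w i) then (1 : ℝ) else 0) ≤
      h q * PW s w b l q := by
    intro q
    have h3 := mul_le_mul_of_nonneg_left (nl8_PW_ge s w b hb l q) (hh0 q)
    refine le_trans ?_ h3
    rw [mul_sub, mul_one]
    apply sub_le_sub_left
    rw [Finset.mul_sum]
    refine Finset.sum_le_sum fun i _ => ?_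
    by_cases ha : (l : ℤ) ∣ fv q v
    · by_cases hb' : (l : ℤ) ∣ fv q (w i)
      · rw [if_pos hb', if_pos ⟨ha, hb'⟩, mul_one]
        have := h2 q
        rwa [if_pos ha] at this
      · rw [if_neg hb', mul_zero]
        split_ifs
        · exact zero_le_one
        · exact le_rfl
    · have h5 : h q ≤ 0 := by
        have := h2 q
        rwa [if_neg ha] at this
      have h6 : h q = 0 := le_antisymm h5 (hh0 q)
      rw [h6, zero_mul]
      split_ifs
      · exact zero_le_one
      · exact le_rfl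
  have hmv := MV_mono' (m := l) hpt
  rw [MV_sub' h (fun q => ∑ i ∈ s, (if (l : ℤ) ∣ fv q v ∧ (l : ℤ) ∣ fv q (w i) then (1 : ℝ) else 0)),
    MV_sum' s (fun i q => if (l : ℤ) ∣ fv q v ∧ (l : ℤ) ∣ fv q (w i) then (1 : ℝ) else 0)] at hmv
  have hsum : ∑ i ∈ s, MV l (fun q => if (l : ℤ) ∣ fv q v ∧ (l : ℤ) ∣ fv q (w i) then (1 : ℝ) else 0) =
      (s.card : ℝ) * (2 / ((l : ℝ) * (l + 1))) := by
    rw [Finset.sum_congr rfl fun i hi => MV_line2 hl h4 v (w i) (hw i hi), Finset.sum_const,
      nsmul_eq_mul]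
  rw [hsum] at hmv
  refine le_trans ?_ hmv
  have h7 : (s.card : ℝ) * (2 / ((l : ℝ) * (l + 1))) ≤ (s.card : ℝ) / (δ * l) * MV l h := by
    have h8 : (s.card : ℝ) * (2 / ((l : ℝ) * (l + 1))) =
        (s.card : ℝ) / (δ * l) * (δ * (2 / ((l : ℝ) + 1))) := by
      field_simp
    rw [h8]
    exact mul_le_mul_of_nonneg_left hM (by positivity)
  linarith

/-- the factors `g` -/
theorem nl8_gl (hk4 : 4 ≤ k) {p : Prm k} {X : ℕ} {u : Vec k} (hu : GP p X u) {l : ℕ}
    (hl : l.Prime) (h4 : l % 4 = 1) (hint : ¬ l ∣ Dint u) :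
    (l ∣ Dall u → gl p X u l = 1) ∧ 1 - 2 * ((k : ℝ) + 1) / l ≤ gl p X u l ∧ gl p X u l ≤ 1 := by
  have hl0 : (0 : ℝ) < l := by exact_mod_cast hl.pos
  have hx : 0 ≤ 2 * ((k : ℝ) + 1) / l := by positivity
  by_cases h : l ∣ Dall u
  · have h1 : gl p X u l = 1 := by
      unfold gl
      rw [if_neg hint, if_pos h]
    rw [h1]
    exact ⟨fun _ => rfl, by linarith, le_rfl⟩
  · have h1 : gl p X u l = MV l (Iv p X u l) := by
      unfold gl
      rw [if_neg hint, if_neg h]
    rw [h1]
    refine ⟨fun h' => absurd h' h, ?_, (MV_01 (Iv_01 p X u l)).2⟩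
    have h2 := PW_ge (ivx k) u (fun j => wyV k (PP X) (p.Y X) j.val l)
      (fun i _ => wyV_01 _ _ _ _ _) hl h4 (fun i _ hd => by
        obtain ⟨a, b, hab⟩ := hu.prim (by omega) i
        have h4 : (l : ℤ) ∣ 1 := by
          rw [← hab]
          exact dvd_add (Dvd.dvd.mul_left hd.1 a) (Dvd.dvd.mul_left hd.2 b)
        have := Int.natCast_dvd.1 h4
        simp at this
        exact hl.one_lt.ne' this)
    have h3 : ((ivx k).card : ℝ) ≤ (k : ℝ) + 1 := by
      have : (ivx k).card ≤ k + 1 := by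
        unfold ivx
        exact (Finset.card_filter_le _ _).trans (by simp)
      exact_mod_cast this
    have h5 : 2 * ((ivx k).card : ℝ) / l ≤ 2 * ((k : ℝ) + 1) / l :=
      div_le_div_of_nonneg_right (by linarith) hl0.le
    have h6 : MV l (Iv p X u l) = MV l (PW (ivx k) u (fun j => wyV k (PP X) (p.Y X) j.val l) l) :=
      rfl
    rw [h6]
    linarith

/-- NL8 -/
theorem loc_end (hk : Even k) (hk4 : 4 ≤ k) : ∃ C : ℝ, 0 < C ∧ ∀ (p : Prm k) (X P00 : ℕ),
    100 * (k + 1) ^ 2 ≤ P00 → (P00 : ℝ) ≤ PP X → ∀ u u' : Vec k, GP p X u → GP p X u' →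
    C0 u u' → ∀ l ∈ Sall p X P00 u u', l ∣ Dall u * Dall u' → ¬ l ∣ Dint u * Dint u' →
      0 < GLo p X u u' l ∧ GLo p X u u' l ≤ 1 ∧
      MV l (fun q => Lf p X u l q * Lf p X u' l q) ≤ (1 + tl C u u' l) * GLo p X u u' l ∧
      (¬ EC X u' u → ¬ EC X u u' → (1 - tl C u u' l) * GLo p X u u' l ≤
        MV l (fun q => Lf p X u l q * Ef p X (fE u') l q) * gl p X u' l) := by
  classical
  refine ⟨19 * ((k : ℝ) + 1), by positivity, ?_⟩
  intro p X P00 hP1 hP2 u u' hu hu' _ l hlS hlD hlI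
  have hk0 : (0 : ℝ) ≤ k := Nat.cast_nonneg k
  -- the prime
  have hl : l.Prime := by
    unfold Sall Spr at hlS
    rw [Finset.mem_union, Finset.mem_filter] at hlS
    rcases hlS with h | h
    · exact h.2.1
    · exact Nat.prime_of_mem_primeFactors h
  have hor : l ∣ Dall u ∨ l ∣ Dall u' := (hl.dvd_mul).1 hlD
  have hlP : l % 4 = 1 ∧ PP X < (l : ℝ) := by
    rcases hor with h | h
    · exact hu.prime_Dall hl h
    · exact hu'.prime_Dall hl h
  obtain ⟨h4, hP⟩ := hlP
  have h2 : l ≠ 2 := by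
    rintro rfl
    norm_num at h4
  have hl0 : (0 : ℝ) < l := by exact_mod_cast hl.pos
  have hlbig : 100 * ((k : ℝ) + 1) ^ 2 ≤ l := by
    have h5 : ((100 * (k + 1) ^ 2 : ℕ) : ℝ) ≤ (P00 : ℝ) := by exact_mod_cast hP1
    push_cast at h5
    linarith
  have hint : ¬ l ∣ Dint u := fun h => hlI (Dvd.dvd.mul_right h _)
  have hint' : ¬ l ∣ Dint u' := fun h => hlI (Dvd.dvd.mul_left h _)
  obtain ⟨s, hs, hLf, hs1, hs2⟩ := nl8_Lf hk hk4 hu hl h2 hP hint
  obtain ⟨s', hs', hLf', _, _⟩ := nl8_Lf hk hk4 hu' hl h2 hP hint'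
  obtain ⟨hg1, hg2, hg3⟩ := nl8_gl hk4 hu hl h4 hint
  obtain ⟨hg1', hg2', hg3'⟩ := nl8_gl hk4 hu' hl h4 hint'
  have hw : ∀ i : Fin (k + 1), 0 ≤ wyV k (PP X) (p.Y X) i.val l ∧ wyV k (PP X) (p.Y X) i.val l ≤ 1 :=
    fun i => wyV_01 _ _ _ _ _
  -- sizes
  set x : ℝ := 2 * ((k : ℝ) + 1) / l with hx
  have hx0 : 0 ≤ x := by positivity
  have hx1 : x ≤ 1 / 50 := by
    rw [hx, div_le_iff₀ hl0]
    nlinarith
  have hCl : 19 * ((k : ℝ) + 1) / l = 19 / 2 * x := by
    rw [hx]
    ring
  have htl : tl (19 * ((k : ℝ) + 1)) u u' l = 19 * ((k : ℝ) + 1) / (l : ℝ) ^ 2 + 19 / 2 * x := by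
    unfold tl
    rw [if_pos (Or.inl hlD), hCl]
  have hsq : 0 ≤ 19 * ((k : ℝ) + 1) / (l : ℝ) ^ 2 := by positivity
  -- the mean of the end factors
  set h : ℤ × ℤ × ℤ → ℝ := fun q => Ef p X (fE u) l q * Ef p X (fE u') l q with hh
  have hh01 : ∀ q, 0 ≤ h q ∧ h q ≤ 1 := by
    intro q
    have e1 := Ef_01 p X (fE u) l q
    have e2 := Ef_01 p X (fE u') l q
    exact ⟨mul_nonneg e1.1 e2.1, mul_le_one₀ e1.2 e2.1 e2.2⟩
  set M : ℝ := MV l h with hMdef
  have hM01 := MV_01 (m := l) hh01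
  have hdt : ¬ (l : ℤ) ∣ dt (1, 0) (0, 1) := by
    unfold dt
    simp only [mul_one, mul_zero, sub_zero]
    intro h5
    have := Int.natCast_dvd.1 h5
    simp at this
    exact hl.one_lt.ne' this
  have hMpos : 0 < M := by
    have h5 := MV_line2 hl h4 (1, 0) (0, 1) hdt
    have h6 : ∀ q : ℤ × ℤ × ℤ, (3 / 8 : ℝ) ^ 4 *
        (if (l : ℤ) ∣ fv q (1, 0) ∧ (l : ℤ) ∣ fv q (0, 1) then 1 else 0) ≤ h q := by
      intro q
      rw [nl8_fv1, nl8_fv2]
      split_ifs with h7
      · have a1 := nl8_E1_dvd (k := k) (Y := p.Y X) (d := (fE u).1) h2 hP h7.1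
        have a2 := nl8_E1_dvd (k := k) (Y := p.Y X) (d := (fE u).2) h2 hP h7.2
        have a3 := nl8_E1_dvd (k := k) (Y := p.Y X) (d := (fE u').1) h2 hP h7.1
        have a4 := nl8_E1_dvd (k := k) (Y := p.Y X) (d := (fE u').2) h2 hP h7.2
        have a5 : (3 / 8 : ℝ) * (3 / 8) ≤ Ef p X (fE u) l q :=
          mul_le_mul a1 a2 (by norm_num) (by linarith)
        have a6 : (3 / 8 : ℝ) * (3 / 8) ≤ Ef p X (fE u') l q :=
          mul_le_mul a3 a4 (by norm_num) (by linarith)
        have a7 : ((3 / 8 : ℝ) * (3 / 8)) * ((3 / 8) * (3 / 8)) ≤ h q :=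
          mul_le_mul a5 a6 (by norm_num) (Ef_01 p X (fE u) l q).1
        refine le_trans (le_of_eq ?_) a7
        ring
      · rw [mul_zero]
        exact (hh01 q).1
    have h7 := MV_mono' (m := l) h6
    rw [MV_smul', h5] at h7
    refine lt_of_lt_of_le ?_ h7
    positivity
  have hGL : GLo p X u u' l = M * (gl p X u l * gl p X u' l) := rfl
  have hgp : 0 < gl p X u l := by linarith
  have hgp' : 0 < gl p X u' l := by linarith
  have hgg : 1 - x ≤ gl p X u l * gl p X u' l := by
    rcases hor with h5 | h5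
    · rw [hg1 h5, one_mul]
      exact hg2'
    · rw [hg1' h5, mul_one]
      exact hg2
  refine ⟨?_, ?_, ?_, ?_⟩
  · rw [hGL]
    exact mul_pos hMpos (mul_pos hgp hgp')
  · rw [hGL]
    exact mul_le_one₀ hM01.2 (mul_pos hgp hgp').le (mul_le_one₀ hg3 hgp'.le hg3')
  · have h5 : MV l (fun q => Lf p X u l q * Lf p X u' l q) ≤ M := by
      apply MV_mono'
      intro q
      rw [hLf q, hLf' q]
      have a1 := PW_01 s u (fun j => wyV k (PP X) (p.Y X) j.val l) (fun i _ => hw i) l q
      have a2 := PW_01 s' u' (fun j => wyV k (PP X) (p.Y X) j.val l) (fun i _ => hw i) l q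
      have e1 := Ef_01 p X (fE u) l q
      have e2 := Ef_01 p X (fE u') l q
      exact mul_le_mul (mul_le_of_le_one_right e1.1 a1.2) (mul_le_of_le_one_right e2.1 a2.2)
        (mul_nonneg e2.1 a2.1) e1.1
    refine h5.trans ?_
    rw [hGL, htl]
    have h6 : 1 ≤ (1 + (19 * ((k : ℝ) + 1) / (l : ℝ) ^ 2 + 19 / 2 * x)) *
        (gl p X u l * gl p X u' l) := by
      have h7 : (1 + 19 / 2 * x) * (1 - x) ≤ (1 + (19 * ((k : ℝ) + 1) / (l : ℝ) ^ 2 + 19 / 2 * x)) *
          (gl p X u l * gl p X u' l) :=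
        mul_le_mul (by linarith) hgg (by linarith) (by linarith)
      refine le_trans ?_ h7
      nlinarith
    calc M = 1 * M := (one_mul M).symm
      _ ≤ ((1 + (19 * ((k : ℝ) + 1) / (l : ℝ) ^ 2 + 19 / 2 * x)) *
        (gl p X u l * gl p X u' l)) * M := mul_le_mul_of_nonneg_right h6 hM01.1
      _ = _ := by ring
  · intro hE1 hE2
    -- the line
    have hmain : (1 - 19 / 2 * x) * M ≤ MV l (fun q => h q *
        PW s u (fun j => wyV k (PP X) (p.Y X) j.val l) l q) := by
      have hcard : (s.card : ℝ) ≤ (k : ℝ) + 1 := by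
        have h5 : s.card ≤ k + 1 := (Finset.card_le_univ s).trans (by simp)
        exact_mod_cast h5
      have hfin : ∀ v : ℤ × ℤ, ¬ ((l : ℤ) ∣ v.1 ∧ (l : ℤ) ∣ v.2) →
          (∀ i ∈ s, ¬ (l : ℤ) ∣ dt v (u i)) →
          (∀ q, (225 / 4096 : ℝ) * (if (l : ℤ) ∣ fv q v then 1 else 0) ≤ h q) →
          (∀ q, h q ≤ (if (l : ℤ) ∣ fv q v then 1 else 0)) →
          (1 - 19 / 2 * x) * M ≤ MV l (fun q => h q *
            PW s u (fun j => wyV k (PP X) (p.Y X) j.val l) l q) := by
        intro v hv hvs a1 a2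
        have h5 := nl8_line s u (fun j => wyV k (PP X) (p.Y X) j.val l) (fun i _ => hw i) hl h4 v
          hv hvs h (δ := 225 / 4096) (by norm_num) a1 a2
        refine le_trans (mul_le_mul_of_nonneg_right ?_ hM01.1) h5
        apply sub_le_sub_left
        rw [← hCl, div_le_div_iff₀ (by positivity) hl0]
        nlinarith
      have hv1 : ¬ ((l : ℤ) ∣ ((1, 0) : ℤ × ℤ).1 ∧ (l : ℤ) ∣ ((1, 0) : ℤ × ℤ).2) := by
        rintro ⟨h5, _⟩
        have := Int.natCast_dvd.1 h5
        simp at this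
        exact hl.one_lt.ne' this
      have hv2 : ¬ ((l : ℤ) ∣ ((0, 1) : ℤ × ℤ).1 ∧ (l : ℤ) ∣ ((0, 1) : ℤ × ℤ).2) := by
        rintro ⟨_, h5⟩
        have := Int.natCast_dvd.1 h5
        simp at this
        exact hl.one_lt.ne' this
      -- one of the four ends
      have hends : (l ∣ dE u 1 ∨ l ∣ dE u' 1) ∨ (l ∣ dE u k ∨ l ∣ dE u' k) := by
        rcases hor with h5 | h5
        · rw [(hu.Dall_eq (by omega)).1] at h5
          rcases (hl.dvd_mul).1 h5 with h6 | h6
          · rcases (hl.dvd_mul).1 h6 with h7 | h7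
            · exact Or.inl (Or.inl h7)
            · exact Or.inr (Or.inl h7)
          · exact absurd h6 hint
        · rw [(hu'.Dall_eq (by omega)).1] at h5
          rcases (hl.dvd_mul).1 h5 with h6 | h6
          · rcases (hl.dvd_mul).1 h6 with h7 | h7
            · exact Or.inl (Or.inr h7)
            · exact Or.inr (Or.inr h7)
          · exact absurd h6 hint'
      have hun : ∀ {w : Vec k}, GP p X w → l ∣ dE w 1 → ¬ l ∣ dE w k := by
        intro w hw' h5 h6
        have := nl8_unique hw' hl (i := 1) (j := k) le_rfl (by omega) (by omega) le_rfl h5 h6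
        omega
      -- the coordinates of `u` if `l` divides an end of `u'` only
      have hcoor : ¬ l ∣ Dall u → l ∣ dE u' 1 * dE u' k → ∀ j ∈ s, ¬ (l : ℤ) ∣ (u j).1 * (u j).2 := by
        intro h5 h6 j hj h7
        apply hE1
        left
        have hj' := (Finset.mem_filter.1 (hs hj)).2
        exact ⟨l, hl, hP, h6, h5, j, hj'.1, hj'.2, h7⟩
      have hcase1 : (l ∣ dE u 1 ∨ l ∣ dE u' 1) → ¬ l ∣ dE u k ∧ ¬ l ∣ dE u' k := by
        rintro (h5 | h5)
        · exact ⟨hun hu h5, fun h6 => hE2 (Or.inr ⟨l, hl, hP, Or.inl ⟨h5, h6⟩⟩)⟩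
        · exact ⟨fun h6 => hE1 (Or.inr ⟨l, hl, hP, Or.inl ⟨h5, h6⟩⟩), hun hu' h5⟩
      by_cases hc : l ∣ dE u 1 ∨ l ∣ dE u' 1
      · obtain ⟨hn, hn'⟩ := hcase1 hc
        refine hfin (1, 0) hv1 (fun i hi hd => ?_) (fun q => ?_) (fun q => ?_)
        · have hd2 : (l : ℤ) ∣ (u i).2 := by
            unfold dt at hd
            simpa using hd
          by_cases h5 : l ∣ dE u 1
          · exact hs1 h5 i hi hd2
          · have h6 : l ∣ dE u' 1 := hc.resolve_left h5
            have h7 : ¬ l ∣ Dall u := by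
              rw [(hu.Dall_eq (by omega)).1]
              intro h8
              rcases (hl.dvd_mul).1 h8 with h9 | h9
              · rcases (hl.dvd_mul).1 h9 with h10 | h10
                · exact h5 h10
                · exact hn h10
              · exact hint h9
            exact hcoor h7 (Dvd.dvd.mul_right h6 _) i hi (Dvd.dvd.mul_left hd2 _)
        · rw [nl8_fv1]
          split_ifs with h7
          · have a1 := nl8_E1_dvd (k := k) (Y := p.Y X) (d := (fE u).1) h2 hP h7
            have a2 := nl8_E1_not (k := k) (Y := p.Y X) (d := (fE u).2) h2 hP hn q.2.2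
            have a3 := nl8_E1_dvd (k := k) (Y := p.Y X) (d := (fE u').1) h2 hP h7
            have a4 := nl8_E1_not (k := k) (Y := p.Y X) (d := (fE u').2) h2 hP hn' q.2.2
            have a5 : (3 / 8 : ℝ) * (5 / 8) ≤ Ef p X (fE u) l q :=
              mul_le_mul a1 a2 (by norm_num) (by linarith)
            have a6 : (3 / 8 : ℝ) * (5 / 8) ≤ Ef p X (fE u') l q :=
              mul_le_mul a3 a4 (by norm_num) (by linarith)
            have a7 : ((3 / 8 : ℝ) * (5 / 8)) * ((3 / 8) * (5 / 8)) ≤ h q :=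
              mul_le_mul a5 a6 (by norm_num) (Ef_01 p X (fE u) l q).1
            refine le_trans (le_of_eq ?_) a7
            norm_num
          · rw [mul_zero]
            exact (hh01 q).1
        · rw [nl8_fv1]
          split_ifs with h7
          · exact (hh01 q).2
          · apply le_of_eq
            rw [hh]
            simp only
            rcases hc with h5 | h5
            · have : E1 k (PP X) (p.Y X) (fE u).1 l q.1 = 0 := nl8_E1_zero h5 h7
              unfold Ef
              rw [this]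
              ring
            · have : E1 k (PP X) (p.Y X) (fE u').1 l q.1 = 0 := nl8_E1_zero h5 h7
              unfold Ef
              rw [this]
              ring
      · have hc2 : l ∣ dE u k ∨ l ∣ dE u' k := hends.resolve_left hc
        rw [not_or] at hc
        obtain ⟨hn, hn'⟩ := hc
        refine hfin (0, 1) hv2 (fun i hi hd => ?_) (fun q => ?_) (fun q => ?_)
        · have hd2 : (l : ℤ) ∣ (u i).1 := by
            unfold dt at hd
            simpa using hd
          by_cases h5 : l ∣ dE u k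
          · exact hs2 h5 i hi hd2
          · have h6 : l ∣ dE u' k := hc2.resolve_left h5
            have h7 : ¬ l ∣ Dall u := by
              rw [(hu.Dall_eq (by omega)).1]
              intro h8
              rcases (hl.dvd_mul).1 h8 with h9 | h9
              · rcases (hl.dvd_mul).1 h9 with h10 | h10
                · exact hn h10
                · exact h5 h10
              · exact hint h9
            exact hcoor h7 (Dvd.dvd.mul_left h6 _) i hi (Dvd.dvd.mul_right hd2 _)
        · rw [nl8_fv2]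
          split_ifs with h7
          · have a1 := nl8_E1_not (k := k) (Y := p.Y X) (d := (fE u).1) h2 hP hn q.1
            have a2 := nl8_E1_dvd (k := k) (Y := p.Y X) (d := (fE u).2) h2 hP h7
            have a3 := nl8_E1_not (k := k) (Y := p.Y X) (d := (fE u').1) h2 hP hn' q.1
            have a4 := nl8_E1_dvd (k := k) (Y := p.Y X) (d := (fE u').2) h2 hP h7
            have a5 : (5 / 8 : ℝ) * (3 / 8) ≤ Ef p X (fE u) l q :=
              mul_le_mul a1 a2 (by norm_num) (by linarith)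
            have a6 : (5 / 8 : ℝ) * (3 / 8) ≤ Ef p X (fE u') l q :=
              mul_le_mul a3 a4 (by norm_num) (by linarith)
            have a7 : ((5 / 8 : ℝ) * (3 / 8)) * ((5 / 8) * (3 / 8)) ≤ h q :=
              mul_le_mul a5 a6 (by norm_num) (Ef_01 p X (fE u) l q).1
            refine le_trans (le_of_eq ?_) a7
            norm_num
          · rw [mul_zero]
            exact (hh01 q).1
        · rw [nl8_fv2]
          split_ifs with h7
          · exact (hh01 q).2
          · apply le_of_eq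
            rw [hh]
            simp only
            rcases hc2 with h5 | h5
            · have : E1 k (PP X) (p.Y X) (fE u).2 l q.2.2 = 0 := nl8_E1_zero h5 h7
              unfold Ef
              rw [this]
              ring
            · have : E1 k (PP X) (p.Y X) (fE u').2 l q.2.2 = 0 := nl8_E1_zero h5 h7
              unfold Ef
              rw [this]
              ring
    have hfun : (fun q => Lf p X u l q * Ef p X (fE u') l q) = fun q => h q *
        PW s u (fun j => wyV k (PP X) (p.Y X) j.val l) l q := by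
      funext q
      rw [hLf q, hh]
      ring
    rw [hfun, hGL, htl]
    have h5 : (1 - (19 * ((k : ℝ) + 1) / (l : ℝ) ^ 2 + 19 / 2 * x)) *
        (M * (gl p X u l * gl p X u' l)) ≤ ((1 - 19 / 2 * x) * M) * gl p X u' l := by
      have h6 : (1 - (19 * ((k : ℝ) + 1) / (l : ℝ) ^ 2 + 19 / 2 * x)) *
          (M * (gl p X u l * gl p X u' l)) ≤ (1 - 19 / 2 * x) * (M * (gl p X u l * gl p X u' l)) :=
        mul_le_mul_of_nonneg_right (by linarith)
          (mul_nonneg hM01.1 (mul_pos hgp hgp').le)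
      refine h6.trans ?_
      have h7 : 0 ≤ 1 - 19 / 2 * x := by linarith
      calc (1 - 19 / 2 * x) * (M * (gl p X u l * gl p X u' l)) =
          ((1 - 19 / 2 * x) * M * gl p X u' l) * gl p X u l := by ring
        _ ≤ ((1 - 19 / 2 * x) * M * gl p X u' l) * 1 :=
          mul_le_mul_of_nonneg_left hg3 (mul_nonneg (mul_nonneg h7 hM01.1) hgp'.le)
        _ = _ := mul_one _
    exact h5.trans (mul_le_mul_of_nonneg_right hmain hgp'.le)

end Pool.Agent.PATH.NC
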