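import Pool.Agent.Lib_helper88.NC.Defs
import Pool.Agent.Lib_helper88.NCF.NA2
import Pool.Agent.Lib_helper88.NCF.NA4
import Pool.Agent.Lib_helper88.NCF.NL1
import Pool.Agent.Lib_helper88.NCF.NL2
import Pool.Agent.Lib_helper88.NCF.NL3

set_option autoImplicit false

namespace Pool.Agent.PATH.NC

open Finset Pool.Agent.PENT Pool.Agent.PENT.EQ

variable {k : ℕ}

theorem nl9_E1_ge (k : ℕ) (P Y : ℝ) (d l : ℕ) (a : ℤ) (h : l ∣ d → (l : ℤ) ∣ a) :
    3 / 8 ≤ E1 k P Y d l a := by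
  have hal : alE k 0 = 3 / 8 := by simp [alE]
  have hbe : beV k 0 = 5 / 8 := by simp [beV]
  have hbo : boV 0 = 1 := by simp [boV]
  unfold E1 wdE wyV
  rw [hal, hbe, hbo]
  by_cases h1 : l ∣ d
  · rw [if_pos h1, if_pos (h h1)]
    split_ifs <;> norm_num
  · rw [if_neg h1]
    split_ifs <;> norm_num

theorem nl9_E1_nn (k : ℕ) (P Y : ℝ) (d l : ℕ) (a : ℤ) : 0 ≤ E1 k P Y d l a := by
  have hal : alE k 0 = 3 / 8 := by simp [alE]
  have hbe : beV k 0 = 5 / 8 := by simp [beV]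
  have hbo : boV 0 = 1 := by simp [boV]
  unfold E1 wdE wyV
  rw [hal, hbe, hbo]
  split_ifs <;> norm_num

theorem nl9_E1_zero (k : ℕ) (P Y : ℝ) (d l : ℕ) (a : ℤ) (h : ¬ (l ∣ d → (l : ℤ) ∣ a)) :
    E1 k P Y d l a = 0 := by
  rw [Classical.not_imp] at h
  unfold E1
  rw [if_pos h.1, if_neg h.2]

theorem nl9_wdE (k : ℕ) (Y : ℝ) (j l : ℕ) : 1 / 4 ≤ wdE k Y j l := by
  unfold wdE alE
  split_ifs <;> norm_num

theorem nl9_wyV (k : ℕ) (P Y : ℝ) (j l : ℕ) (h : P < l) : 1 / 8 ≤ wyV k P Y j l := by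
  unfold wyV beV
  rw [if_neg (not_le.mpr h)]
  split_ifs <;> norm_num

theorem nl9_Lf_ge (p : Prm k) (X : ℕ) (u : Vec k) (l : ℕ) (q : ℤ × ℤ × ℤ) (hP : PP X < l)
    (h : l ∣ Dall u → (l : ℤ) ∣ fv q (Lv u l)) :
    (1 / 4 : ℝ) ^ k * (1 / 8) ^ (k + 1) ≤ Lf p X u l q := by
  have h1 : (1 / 4 : ℝ) ^ k ≤
      ∏ j : Fin k, if l ∣ dE u (j.val + 1) then wdE k (p.Y X) j.val l else 1 := by
    have e : (1 / 4 : ℝ) ^ k = ∏ _j : Fin k, (1 / 4 : ℝ) := by
      rw [Finset.prod_const, Finset.card_univ, Fintype.card_fin]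
    rw [e]
    refine Finset.prod_le_prod (fun j _ => by norm_num) (fun j _ => ?_)
    split_ifs
    · exact nl9_wdE _ _ _ _
    · norm_num
  have h2 : (1 / 8 : ℝ) ^ (k + 1) ≤
      ∏ j : Fin (k + 1), if l ∣ dE u j.val * dE u (j.val + 1) then (1 : ℝ)
      else if (l : ℤ) ∣ fv q (u j) then wyV k (PP X) (p.Y X) j.val l else 1 := by
    have e : (1 / 8 : ℝ) ^ (k + 1) = ∏ _j : Fin (k + 1), (1 / 8 : ℝ) := by
      rw [Finset.prod_const, Finset.card_univ, Fintype.card_fin]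
    rw [e]
    refine Finset.prod_le_prod (fun j _ => by norm_num) (fun j _ => ?_)
    split_ifs
    · norm_num
    · exact nl9_wyV _ _ _ _ _ hP
    · norm_num
  unfold Lf
  rw [if_pos h, one_mul]
  exact mul_le_mul h1 h2 (by positivity) (le_trans (by positivity) h1)

theorem nl9_fv10 (q : ℤ × ℤ × ℤ) : fv q (1, 0) = q.1 := by
  unfold fv qf
  ring

theorem nl9_fv01 (q : ℤ × ℤ × ℤ) : fv q (0, 1) = q.2.2 := by
  unfold fv qf
  ring

theorem nl9_one {l : ℕ} (hl : l.Prime) : ¬ ((l : ℤ) ∣ 1) := by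
  intro h1
  have h4 : l ∣ 1 := by exact_mod_cast h1
  exact hl.one_lt.ne' (Nat.dvd_one.mp h4)

theorem nl9_cop {l : ℕ} (hl : l.Prime) {v : ℤ × ℤ} (h : IsCoprime v.1 v.2) :
    ¬ ((l : ℤ) ∣ v.1 ∧ (l : ℤ) ∣ v.2) := by
  rintro ⟨h1, h2⟩
  obtain ⟨a, b, hab⟩ := h
  apply nl9_one hl
  rw [← hab]
  exact dvd_add (h1.mul_left _) (h2.mul_left _)

/-- the mean from below -/
theorem nl9_ge {l : ℕ} (hl : l.Prime) (h4 : l % 4 = 1) (w : ℤ × ℤ)
    (hw : ¬ ((l : ℤ) ∣ w.1 ∧ (l : ℤ) ∣ w.2)) (c : ℝ) (h : ℤ × ℤ × ℤ → ℝ)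
    (hh : ∀ q, c * (if (l : ℤ) ∣ fv q w then 1 else 0) ≤ h q) :
    c * (2 / ((l : ℝ) + 1)) ≤ MV l h := by
  have h1 := MV_mono' (m := l) hh
  rw [MV_smul', MV_line hl h4 w hw] at h1
  exact h1

/-- the square event from above -/
theorem nl9_ev {l : ℕ} (hl : l.Prime) (h4 : l % 4 = 1) (v : ℤ × ℤ)
    (hv : ¬ ((l : ℤ) ∣ v.1 ∧ (l : ℤ) ∣ v.2)) (h : ℤ × ℤ × ℤ → ℝ) (hh : ∀ q, h q ≤ 1) :
    MV (l ^ 2) (fun q => h q * (if ((l : ℤ) ^ 2) ∣ fv q v then 1 else 0)) ≤ 4 / (l : ℝ) ^ 2 := by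
  refine le_trans (MV_mono' (fun q => ?_)) (MV_sq' hl h4 v hv)
  split_ifs
  · rw [mul_one]
    exact hh q
  · rw [mul_zero]

/-- the two ends -/
theorem nl9_ends {l : ℕ} (hl : l.Prime) (h4 : l % 4 = 1) (A B : Prop) (h : ℤ × ℤ × ℤ → ℝ)
    {c : ℝ} (hc : 0 < c)
    (h1 : ∀ q : ℤ × ℤ × ℤ, (A → (l : ℤ) ∣ q.1) ∧ (B → (l : ℤ) ∣ q.2.2) → c ≤ h q)
    (h0 : ∀ q : ℤ × ℤ × ℤ, ¬ ((A → (l : ℤ) ∣ q.1) ∧ (B → (l : ℤ) ∣ q.2.2)) → h q = 0)
    (hle : ∀ q, h q ≤ 1) (hnn : ∀ q, 0 ≤ h q) (v : ℤ × ℤ) (hv : v = (1, 0) ∨ v = (0, 1)) :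
    MV (l ^ 2) (fun q => h q * (if ((l : ℤ) ^ 2) ∣ fv q v then 1 else 0)) ≤
      4 / c / l * MV l h := by
  have hl0 : (0 : ℝ) < l := by exact_mod_cast hl.pos
  have hl1 : (1 : ℝ) ≤ l := by exact_mod_cast hl.one_lt.le
  have hv' : ¬ ((l : ℤ) ∣ v.1 ∧ (l : ℤ) ∣ v.2) := by
    rintro ⟨a1, a2⟩
    rcases hv with hv | hv
    · rw [hv] at a1
      exact nl9_one hl a1
    · rw [hv] at a2
      exact nl9_one hl a2
  have h10 : ¬ ((l : ℤ) ∣ ((1 : ℤ), (0 : ℤ)).1 ∧ (l : ℤ) ∣ ((1 : ℤ), (0 : ℤ)).2) :=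
    fun a => nl9_one hl a.1
  have h01 : ¬ ((l : ℤ) ∣ ((0 : ℤ), (1 : ℤ)).1 ∧ (l : ℤ) ∣ ((0 : ℤ), (1 : ℤ)).2) :=
    fun a => nl9_one hl a.2
  have hone : ∀ {w : ℤ × ℤ}, ¬ ((l : ℤ) ∣ w.1 ∧ (l : ℤ) ∣ w.2) →
      (∀ q : ℤ × ℤ × ℤ, (l : ℤ) ∣ fv q w → c ≤ h q) →
      MV (l ^ 2) (fun q => h q * (if ((l : ℤ) ^ 2) ∣ fv q v then 1 else 0)) ≤
      4 / c / l * MV l h := by
    intro w hw hwq
    have a1 := nl9_ev hl h4 v hv' h hle
    have a2 := nl9_ge hl h4 w hw c h (fun q => by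
      split_ifs with a
      · rw [mul_one]
        exact hwq q a
      · rw [mul_zero]
        exact hnn q)
    refine a1.trans ?_
    have a3 : 4 / c / l * (c * (2 / ((l : ℝ) + 1))) ≤ 4 / c / l * MV l h :=
      mul_le_mul_of_nonneg_left a2 (by positivity)
    refine le_trans ?_ a3
    have e : 4 / c / l * (c * (2 / ((l : ℝ) + 1))) = 8 / ((l : ℝ) * (l + 1)) := by
      field_simp
      norm_num
    rw [e, div_le_div_iff₀ (by positivity) (by positivity)]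
    nlinarith
  by_cases hA : A
  · by_cases hB : B
    · -- both
      have a2 : c * (2 / ((l : ℝ) * (l + 1))) ≤ MV l h := by
        have hdt : ¬ (l : ℤ) ∣ dt ((1 : ℤ), (0 : ℤ)) ((0 : ℤ), (1 : ℤ)) := by
          have : dt ((1 : ℤ), (0 : ℤ)) ((0 : ℤ), (1 : ℤ)) = 1 := by
            unfold dt
            ring
          rw [this]
          exact nl9_one hl
        have b1 := MV_line2 hl h4 (1, 0) (0, 1) hdt
        rw [← b1, ← MV_smul']
        refine MV_mono' (fun q => ?_)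
        rw [nl9_fv10, nl9_fv01]
        split_ifs with a
        · rw [mul_one]
          exact h1 q ⟨fun _ => a.1, fun _ => a.2⟩
        · rw [mul_zero]
          exact hnn q
      have a1 : MV (l ^ 2) (fun q => h q * (if ((l : ℤ) ^ 2) ∣ fv q v then 1 else 0)) ≤
          4 / (l : ℝ) ^ 3 := by
        rcases hv with hv | hv
        · refine le_trans (MV_mono' (fun q => ?_)) (MV_sq2 hl h4).1
          rw [hv, nl9_fv10]
          by_cases a : (A → (l : ℤ) ∣ q.1) ∧ (B → (l : ℤ) ∣ q.2.2)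
          · by_cases b : ((l : ℤ) ^ 2) ∣ q.1
            · rw [if_pos b, if_pos ⟨b, a.2 hB⟩, mul_one]
              exact hle q
            · rw [if_neg b, mul_zero]
              split_ifs <;> norm_num
          · rw [h0 q a, zero_mul]
            split_ifs <;> norm_num
        · refine le_trans (MV_mono' (fun q => ?_)) (MV_sq2 hl h4).2
          rw [hv, nl9_fv01]
          by_cases a : (A → (l : ℤ) ∣ q.1) ∧ (B → (l : ℤ) ∣ q.2.2)
          · by_cases b : ((l : ℤ) ^ 2) ∣ q.2.2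
            · rw [if_pos b, if_pos ⟨a.1 hA, b⟩, mul_one]
              exact hle q
            · rw [if_neg b, mul_zero]
              split_ifs <;> norm_num
          · rw [h0 q a, zero_mul]
            split_ifs <;> norm_num
      refine a1.trans ?_
      have a3 : 4 / c / l * (c * (2 / ((l : ℝ) * (l + 1)))) ≤ 4 / c / l * MV l h :=
        mul_le_mul_of_nonneg_left a2 (by positivity)
      refine le_trans ?_ a3
      have e : 4 / c / l * (c * (2 / ((l : ℝ) * (l + 1)))) = 8 / ((l : ℝ) ^ 2 * (l + 1)) := by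
        field_simp
        norm_num
      rw [e, div_le_div_iff₀ (by positivity) (by positivity)]
      have : (0 : ℝ) < (l : ℝ) ^ 2 := by positivity
      nlinarith
    · exact hone h10 (fun q a => h1 q ⟨fun _ => by rwa [nl9_fv10] at a, fun b => absurd b hB⟩)
  · exact hone h01 (fun q a => h1 q ⟨fun b => absurd b hA, fun _ => by rwa [nl9_fv01] at a⟩)

theorem nl9_E1_le (k : ℕ) (P Y : ℝ) (d l : ℕ) (a : ℤ) : E1 k P Y d l a ≤ 1 := by
  have hal : alE k 0 = 3 / 8 := by simp [alE]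
  have hbe : beV k 0 = 5 / 8 := by simp [beV]
  have hbo : boV 0 = 1 := by simp [boV]
  unfold E1 wdE wyV
  rw [hal, hbe, hbo]
  split_ifs <;> norm_num

theorem nl9_Ef_ge (p : Prm k) (X : ℕ) (f : ℕ × ℕ) (l : ℕ) (q : ℤ × ℤ × ℤ)
    (h1 : l ∣ f.1 → (l : ℤ) ∣ q.1) (h2 : l ∣ f.2 → (l : ℤ) ∣ q.2.2) :
    (3 / 8 : ℝ) ^ 2 ≤ Ef p X f l q := by
  unfold Ef
  rw [sq]
  exact mul_le_mul (nl9_E1_ge _ _ _ _ _ _ h1) (nl9_E1_ge _ _ _ _ _ _ h2) (by norm_num)
    (nl9_E1_nn _ _ _ _ _ _)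

theorem nl9_Ef_zero (p : Prm k) (X : ℕ) (f : ℕ × ℕ) (l : ℕ) (q : ℤ × ℤ × ℤ)
    (h : ¬ ((l ∣ f.1 → (l : ℤ) ∣ q.1) ∧ (l ∣ f.2 → (l : ℤ) ∣ q.2.2))) :
    Ef p X f l q = 0 := by
  unfold Ef
  rw [not_and_or] at h
  rcases h with h | h
  · rw [nl9_E1_zero _ _ _ _ _ _ h, zero_mul]
  · rw [nl9_E1_zero _ _ _ _ _ _ h, mul_zero]

theorem nl9_dvd_Dall {u : Vec k} {l i : ℕ} (h1 : 1 ≤ i) (h2 : i ≤ k) (h : l ∣ dE u i) :
    l ∣ Dall u := by
  unfold Dall
  exact h.trans (Finset.dvd_prod_of_mem _ (Finset.mem_Icc.mpr ⟨h1, h2⟩))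

theorem nl9_exists {u : Vec k} {l : ℕ} (hl : l.Prime) (h : l ∣ Dall u) :
    ∃ j : Fin k, l ∣ dE u (j.val + 1) := by
  unfold Dall at h
  obtain ⟨i, hi, hd⟩ := (Prime.dvd_finsetProd_iff hl.prime _).mp h
  rw [Finset.mem_Icc] at hi
  refine ⟨⟨i - 1, by omega⟩, ?_⟩
  have : i - 1 + 1 = i := by omega
  simp only [this]
  exact hd

/-- the line of the pair -/
theorem nl9_line {p : Prm k} {X : ℕ} (hk4 : 4 ≤ k) {u u' : Vec k} (hu : GP p X u)
    (hu' : GP p X u') (hC : C0 u u') {l : ℕ} (hl : l.Prime) (hP : PP X < (l : ℝ))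
    (hE : ¬ EC X u u') : ∃ w : ℤ × ℤ, ¬ ((l : ℤ) ∣ w.1 ∧ (l : ℤ) ∣ w.2) ∧
      ∀ q : ℤ × ℤ × ℤ, (l : ℤ) ∣ fv q w → (l ∣ Dall u → (l : ℤ) ∣ fv q (Lv u l)) ∧
        (l ∣ dE u' 1 → (l : ℤ) ∣ q.1) ∧ (l ∣ dE u' k → (l : ℤ) ∣ q.2.2) := by
  have hk2 : 2 ≤ k := by omega
  have h10 : ¬ ((l : ℤ) ∣ ((1 : ℤ), (0 : ℤ)).1 ∧ (l : ℤ) ∣ ((1 : ℤ), (0 : ℤ)).2) :=
    fun a => nl9_one hl a.1
  have h01 : ¬ ((l : ℤ) ∣ ((0 : ℤ), (1 : ℤ)).1 ∧ (l : ℤ) ∣ ((0 : ℤ), (1 : ℤ)).2) :=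
    fun a => nl9_one hl a.2
  -- common primes of the two paths are at the ends
  have hend : l ∣ Dall u' → ∀ j : Fin k, l ∣ dE u (j.val + 1) → j.val = 0 ∨ j.val + 1 = k := by
    intro h1 j hj
    by_contra hcon
    rw [not_or] at hcon
    have h2 : l ∣ Dint u := by
      unfold Dint
      refine hj.trans (Finset.dvd_prod_of_mem (fun i => dE u i) ?_)
      rw [Finset.mem_Icc]
      have := j.isLt
      omega
    exact Nat.not_coprime_of_dvd_of_dvd hl.one_lt h2 h1 hC.1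
  by_cases h1 : l ∣ dE u' 1
  · refine ⟨(1, 0), h10, fun q hq => ⟨?_, ?_, ?_⟩⟩
    · intro hD
      have hex := nl9_exists hl hD
      unfold Lv
      rw [dif_pos hex]
      have hs := hex.choose_spec
      rcases hend (nl9_dvd_Dall le_rfl (by omega) h1) _ hs with h2 | h2
      · have h3 : hex.choose.castSucc = 0 := by
          apply Fin.ext
          exact h2
        rw [h3, hu.first]
        exact hq
      · exfalso
        apply hE
        right
        refine ⟨l, hl, hP, Or.inr ⟨?_, h1⟩⟩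
        rw [h2] at hs
        exact hs
    · intro _
      rwa [nl9_fv10] at hq
    · intro h2
      exact absurd (hu'.cop 1 k le_rfl (by omega) le_rfl)
        (Nat.not_coprime_of_dvd_of_dvd hl.one_lt h1 h2)
  · by_cases h2 : l ∣ dE u' k
    · refine ⟨(0, 1), h01, fun q hq => ⟨?_, fun a => absurd a h1, fun _ => by
        rwa [nl9_fv01] at hq⟩⟩
      intro hD
      have hex := nl9_exists hl hD
      unfold Lv
      rw [dif_pos hex]
      have hs := hex.choose_spec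
      rcases hend (nl9_dvd_Dall (by omega) le_rfl h2) _ hs with h3 | h3
      · exfalso
        apply hE
        right
        refine ⟨l, hl, hP, Or.inl ⟨?_, h2⟩⟩
        rw [h3] at hs
        exact hs
      · -- the last edge
        set j := hex.choose with hj
        have hdt : (l : ℤ) ∣ (u j.castSucc).1 := by
          rw [h3] at hs
          unfold dE at hs
          rw [dif_pos ⟨by omega, le_rfl⟩] at hs
          have e1 : (⟨k - 1, by omega⟩ : Fin (k + 1)) = j.castSucc := by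
            apply Fin.ext
            show k - 1 = j.val
            omega
          have e2 : (⟨k, by omega⟩ : Fin (k + 1)) = Fin.last k := rfl
          rw [e1, e2, hu.last] at hs
          have e3 : dt (u j.castSucc) ((0 : ℤ), (1 : ℤ)) = (u j.castSucc).1 := by
            unfold dt
            ring
          rw [e3] at hs
          exact Int.natCast_dvd.mpr hs
        rw [nl9_fv01] at hq
        have e : fv q (u j.castSucc) = (q.1 * (u j.castSucc).1 + 2 * q.2.1 * (u j.castSucc).2) *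
            (u j.castSucc).1 + q.2.2 * (u j.castSucc).2 ^ 2 := by
          unfold fv qf
          ring
        rw [e]
        exact dvd_add (hdt.mul_left _) (hq.mul_right _)
    · by_cases hD : l ∣ Dall u
      · refine ⟨Lv u l, ?_, fun q hq => ⟨fun _ => hq, fun a => absurd a h1,
          fun a => absurd a h2⟩⟩
        have hex := nl9_exists hl hD
        unfold Lv
        rw [dif_pos hex]
        exact nl9_cop hl (hu.prim hk2 _)
      · exact ⟨(1, 0), h10, fun q _ => ⟨fun a => absurd a hD, fun a => absurd a h1,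
          fun a => absurd a h2⟩⟩

theorem loc_sq (hk : Even k) (hk4 : 4 ≤ k) : ∃ C : ℝ, 0 < C ∧ ∀ (p : Prm k) (X P00 : ℕ),
    100 * (k + 1) ^ 2 ≤ P00 → (P00 : ℝ) ≤ PP X → ∀ u u' : Vec k, GP p X u → GP p X u' →
    C0 u u' → ∀ l ∈ Sall p X P00 u u', l ∣ Dall u * Dall u' →
      (∀ v : ℤ × ℤ, v = (1, 0) ∨ v = (0, 1) →
        MV (l ^ 2) (fun q => Ef p X (fE u) l q * Ef p X (fE u') l q *
          (if ((l : ℤ) ^ 2) ∣ fv q v then 1 else 0)) ≤
        C / l * MV l (fun q => Ef p X (fE u) l q * Ef p X (fE u') l q)) ∧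
      (¬ EC X u' u → ¬ EC X u u' → ∀ j : Fin (k + 1),
        MV (l ^ 2) (fun q => Lf p X u l q * Ef p X (fE u') l q *
          (if ((l : ℤ) ^ 2) ∣ fv q (u j) then 1 else 0)) ≤
        C / l * MV l (fun q => Lf p X u l q * Ef p X (fE u') l q)) := by
  have hk2 : 2 ≤ k := by omega
  set c : ℝ := ((1 / 4 : ℝ) ^ k * (1 / 8) ^ (k + 1)) * (3 / 8) ^ 2 with hc
  have hc0 : 0 < c := by positivity
  set c' : ℝ := (3 / 8 : ℝ) ^ 2 * (3 / 8) ^ 2 with hc'
  have hc'0 : 0 < c' := by positivity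
  refine ⟨4 / c + 4 / c', by positivity, ?_⟩
  intro p X P00 _ hPP u u' hu hu' hC l hlS hlD
  have hl : l.Prime := by
    unfold Sall at hlS
    rw [Finset.mem_union] at hlS
    rcases hlS with h | h
    · unfold Spr at h
      rw [Finset.mem_filter] at h
      exact h.2.1
    · exact Nat.prime_of_mem_primeFactors h
  have h4P : l % 4 = 1 ∧ PP X < (l : ℝ) := by
    rcases hl.dvd_mul.mp hlD with h | h
    · exact hu.prime_Dall hl h
    · exact hu'.prime_Dall hl h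
  obtain ⟨h4, hP⟩ := h4P
  have hl0 : (0 : ℝ) < l := by exact_mod_cast hl.pos
  have hl1 : (1 : ℝ) ≤ l := by exact_mod_cast hl.one_lt.le
  constructor
  · intro v hv
    have h1 := nl9_ends hl h4 (l ∣ (fE u).1 ∨ l ∣ (fE u').1) (l ∣ (fE u).2 ∨ l ∣ (fE u').2)
      (fun q => Ef p X (fE u) l q * Ef p X (fE u') l q) hc'0 (fun q hq => by
        exact mul_le_mul (nl9_Ef_ge p X _ l q (fun a => hq.1 (Or.inl a)) (fun a => hq.2 (Or.inl a)))
          (nl9_Ef_ge p X _ l q (fun a => hq.1 (Or.inr a)) (fun a => hq.2 (Or.inr a)))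
          (by positivity) (Ef_01 p X _ l q).1) (fun q hq => by
        by_cases a : (l ∣ (fE u).1 → (l : ℤ) ∣ q.1) ∧ (l ∣ (fE u).2 → (l : ℤ) ∣ q.2.2)
        · by_cases b : (l ∣ (fE u').1 → (l : ℤ) ∣ q.1) ∧ (l ∣ (fE u').2 → (l : ℤ) ∣ q.2.2)
          · exfalso
            apply hq
            refine ⟨fun h => ?_, fun h => ?_⟩
            · rcases h with h | h
              · exact a.1 h
              · exact b.1 h
            · rcases h with h | h
              · exact a.2 h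
              · exact b.2 h
          · show Ef p X (fE u) l q * Ef p X (fE u') l q = 0
            rw [nl9_Ef_zero p X _ l q b, mul_zero]
        · show Ef p X (fE u) l q * Ef p X (fE u') l q = 0
          rw [nl9_Ef_zero p X _ l q a, zero_mul]) (fun q =>
        mul_le_one₀ (Ef_01 p X _ l q).2 (Ef_01 p X _ l q).1 (Ef_01 p X _ l q).2) (fun q =>
        mul_nonneg (Ef_01 p X _ l q).1 (Ef_01 p X _ l q).1) v hv
    refine h1.trans ?_
    refine mul_le_mul_of_nonneg_right ?_ ?_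
    · exact div_le_div_of_nonneg_right (by
        have : 0 < 4 / c := by positivity
        linarith) hl0.le
    · exact (MV_01 (fun q => ⟨mul_nonneg (Ef_01 p X _ l q).1 (Ef_01 p X _ l q).1,
        mul_le_one₀ (Ef_01 p X _ l q).2 (Ef_01 p X _ l q).1 (Ef_01 p X _ l q).2⟩)).1
  · intro _ hEC j
    have h01 : ∀ q, 0 ≤ Lf p X u l q * Ef p X (fE u') l q ∧
        Lf p X u l q * Ef p X (fE u') l q ≤ 1 := fun q =>
      ⟨mul_nonneg (Lf_01 p X u l q).1 (Ef_01 p X _ l q).1,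
        mul_le_one₀ (Lf_01 p X u l q).2 (Ef_01 p X _ l q).1 (Ef_01 p X _ l q).2⟩
    obtain ⟨w, hw, hwq⟩ := nl9_line hk4 hu hu' hC hl hP hEC
    have a1 := nl9_ev hl h4 (u j) (nl9_cop hl (hu.prim hk2 j))
      (fun q => Lf p X u l q * Ef p X (fE u') l q) (fun q => (h01 q).2)
    have a2 := nl9_ge hl h4 w hw c (fun q => Lf p X u l q * Ef p X (fE u') l q) (fun q => by
      split_ifs with a
      · rw [mul_one]
        obtain ⟨b1, b2, b3⟩ := hwq q a
        exact mul_le_mul (nl9_Lf_ge p X u l q hP b1) (nl9_Ef_ge p X (fE u') l q b2 b3)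
          (by positivity) (Lf_01 p X u l q).1
      · rw [mul_zero]
        exact (h01 q).1)
    refine a1.trans ?_
    have a3 : 4 / c / l * (c * (2 / ((l : ℝ) + 1))) ≤
        4 / c / l * MV l (fun q => Lf p X u l q * Ef p X (fE u') l q) :=
      mul_le_mul_of_nonneg_left a2 (by positivity)
    have a4 : 4 / c / l * MV l (fun q => Lf p X u l q * Ef p X (fE u') l q) ≤
        (4 / c + 4 / c') / l * MV l (fun q => Lf p X u l q * Ef p X (fE u') l q) := by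
      refine mul_le_mul_of_nonneg_right ?_ (MV_01 h01).1
      exact div_le_div_of_nonneg_right (by
        have : 0 < 4 / c' := by positivity
        linarith) hl0.le
    refine le_trans ?_ (a3.trans a4)
    have e : 4 / c / l * (c * (2 / ((l : ℝ) + 1))) = 8 / ((l : ℝ) * (l + 1)) := by
      field_simp
      norm_num
    rw [e, div_le_div_iff₀ (by positivity) (by positivity)]
    nlinarith

end Pool.Agent.PATH.NC
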