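import Pool.Agent.Lib_helper88.NC.Defs
import Pool.Agent.Lib_helper88.NCF.NA4
import Pool.Agent.Lib_helper88.NCF.NL1
import Pool.Agent.Lib_helper88.NCF.NL6
import Pool.Agent.Lib_helper88.NCF.NL7
import Pool.Agent.Lib_helper88.NCF.NL8
import Pool.Agent.Lib_helper88.NCF.NL9

/-!
# NC, block NL10 (helper72)
-/

set_option autoImplicit false

namespace Pool.Agent.PATH.NC

open Finset Pool.Agent.PENT Pool.Agent.PENT.EQ

variable {k : ℕ}

theorem nl10_tl {C C' : ℝ} (h : C ≤ C') (u u' : Vec k) (l : ℕ) : tl C u u' l ≤ tl C' u u' l := by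
  unfold tl
  have h1 : C / (l : ℝ) ^ 2 ≤ C' / (l : ℝ) ^ 2 := div_le_div_of_nonneg_right h (by positivity)
  have h2 : C / (l : ℝ) ≤ C' / (l : ℝ) := div_le_div_of_nonneg_right h (by positivity)
  split_ifs
  · exact add_le_add h1 h2
  · linarith

theorem nl10_EE (p : Prm k) (X : ℕ) (f f' : ℕ × ℕ) (l : ℕ) :
    0 ≤ MV l (fun q => Ef p X f l q * Ef p X f' l q) := by
  apply (MV_01 _).1
  intro q
  have h1 := Ef_01 p X f l q
  have h2 := Ef_01 p X f' l q
  exact ⟨mul_nonneg h1.1 h2.1, mul_le_one₀ h1.2 h2.1 h2.2⟩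

theorem nl10_LE (p : Prm k) (X : ℕ) (u : Vec k) (f : ℕ × ℕ) (l : ℕ) :
    0 ≤ MV l (fun q => Lf p X u l q * Ef p X f l q) := by
  apply (MV_01 _).1
  intro q
  have h1 := Lf_01 p X u l q
  have h2 := Ef_01 p X f l q
  exact ⟨mul_nonneg h1.1 h2.1, mul_le_one₀ h1.2 h2.1 h2.2⟩

/-- NL10 -/
theorem loc_exists (hk : Even k) (hk4 : 4 ≤ k) : ∃ C : ℝ, Loc k C := by
  obtain ⟨C6, h6, H6⟩ := loc_out hk hk4
  obtain ⟨C7, h7, H7⟩ := loc_int hk hk4
  obtain ⟨C8, h8, H8⟩ := loc_end hk hk4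
  obtain ⟨C9, h9, H9⟩ := loc_sq hk hk4
  have e6 : C6 ≤ C6 + C7 + C8 + C9 := by linarith
  have e7 : C7 ≤ C6 + C7 + C8 + C9 := by linarith
  have e8 : C8 ≤ C6 + C7 + C8 + C9 := by linarith
  have e9 : C9 ≤ C6 + C7 + C8 + C9 := by linarith
  -- the comparison of the constants
  have up : ∀ {C : ℝ}, C ≤ C6 + C7 + C8 + C9 → ∀ (p : Prm k) (X : ℕ) (u u' : Vec k) (l : ℕ),
      0 < GLo p X u u' l → (1 + tl C u u' l) * GLo p X u u' l ≤
        (1 + tl (C6 + C7 + C8 + C9) u u' l) * GLo p X u u' l := by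
    intro C hC p X u u' l hG
    have := nl10_tl hC u u' l
    exact mul_le_mul_of_nonneg_right (by linarith) hG.le
  have dn : ∀ {C : ℝ}, C ≤ C6 + C7 + C8 + C9 → ∀ (p : Prm k) (X : ℕ) (u u' : Vec k) (l : ℕ),
      0 < GLo p X u u' l → (1 - tl (C6 + C7 + C8 + C9) u u' l) * GLo p X u u' l ≤
        (1 - tl C u u' l) * GLo p X u u' l := by
    intro C hC p X u u' l hG
    have := nl10_tl hC u u' l
    exact mul_le_mul_of_nonneg_right (by linarith) hG.le
  refine ⟨C6 + C7 + C8 + C9, ⟨by linarith, ?_, ?_, ?_, ?_, ?_⟩⟩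
  · intro p X P00 hP hPP u u' hu hu' hC l hl
    by_cases c1 : l ∣ Dall u * Dall u'
    · by_cases c2 : l ∣ Dint u * Dint u'
      · have := H7 p X P00 hP hPP u u' hu hu' hC l hl c2
        exact ⟨this.1, this.2.1⟩
      · have := H8 p X P00 hP hPP u u' hu hu' hC l hl c1 c2
        exact ⟨this.1, this.2.1⟩
    · have := H6 p X P00 hP hPP u u' hu hu' l hl c1
      exact ⟨this.1, this.2.1⟩
  · intro p X P00 hP hPP u u' hu hu' hC l hl
    by_cases c1 : l ∣ Dall u * Dall u'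
    · by_cases c2 : l ∣ Dint u * Dint u'
      · have := H7 p X P00 hP hPP u u' hu hu' hC l hl c2
        exact this.2.2.1.trans (up e7 p X u u' l this.1)
      · have := H8 p X P00 hP hPP u u' hu hu' hC l hl c1 c2
        exact this.2.2.1.trans (up e8 p X u u' l this.1)
    · have := H6 p X P00 hP hPP u u' hu hu' l hl c1
      exact this.2.2.1.trans (up e6 p X u u' l this.1)
  · intro p X P00 hP hPP u u' hu hu' hC hE hE' l hl
    by_cases c1 : l ∣ Dall u * Dall u'
    · by_cases c2 : l ∣ Dint u * Dint u'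
      · have := H7 p X P00 hP hPP u u' hu hu' hC l hl c2
        exact (dn e7 p X u u' l this.1).trans this.2.2.2
      · have := H8 p X P00 hP hPP u u' hu hu' hC l hl c1 c2
        exact (dn e8 p X u u' l this.1).trans (this.2.2.2 hE hE')
    · have := H6 p X P00 hP hPP u u' hu hu' l hl c1
      exact (dn e6 p X u u' l this.1).trans this.2.2.2
  · intro p X P00 hP hPP u u' hu hu' hC l hl c1 v hv
    have := (H9 p X P00 hP hPP u u' hu hu' hC l hl c1).1 v hv
    refine this.trans ?_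
    apply mul_le_mul_of_nonneg_right _ (nl10_EE p X _ _ l)
    exact div_le_div_of_nonneg_right e9 (by positivity)
  · intro p X P00 hP hPP u u' hu hu' hC hE hE' l hl c1 j
    have := (H9 p X P00 hP hPP u u' hu hu' hC l hl c1).2 hE hE' j
    refine this.trans ?_
    apply mul_le_mul_of_nonneg_right _ (nl10_LE p X u _ l)
    exact div_le_div_of_nonneg_right e9 (by positivity)

end Pool.Agent.PATH.NC
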