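import Pool.Agent.Lib_helper88.NC.Defs
import Pool.Agent.Lib_helper88.NCF.NA2
import Pool.Agent.Lib_helper88.NCF.NA4
import Pool.Agent.Lib_helper88.NCF.NA4b
import Pool.Agent.Lib_helper88.NCF.NA5
import Pool.Agent.Lib_helper88.NCF.NA9
import Pool.Agent.Lib_helper88.NCF.NL0
import Pool.Agent.Lib_helper88.NCF.NL1
import Pool.Agent.Lib_helper88.NCF.NL4
import Pool.Agent.Lib_helper88.NCF.NS1
import Pool.Agent.Lib_helper88.NCF.NS4

/-! NC, block NS5 (helper8): FF, upper bound -/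

set_option autoImplicit false

namespace Pool.Agent.PATH.NC

open Finset Pool.Agent.PENT Pool.Agent.PENT.EQ

variable {k : ℕ}

theorem ns5_R0_odd (P00 : ℕ) : Odd (R0 P00) := by
  unfold R0
  refine Finset.prod_induction _ Odd (fun a b ha hb => ha.mul hb) odd_one (fun l hl => ?_)
  have := (Finset.mem_filter.1 hl).2.2
  exact Nat.odd_iff.2 (by omega)

theorem ns5_R0_cop {P00 l : ℕ} (hl : l.Prime) (h : P00 < l) : Nat.Coprime (R0 P00) l := by
  unfold R0
  apply Nat.Coprime.prod_left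
  intro r hr
  rw [Finset.mem_filter, Finset.mem_Icc] at hr
  exact (Nat.coprime_primes hr.2.1 hl).2 (by omega)

theorem ns5_R0_pos (P00 : ℕ) : 0 < R0 P00 := (ns5_R0_odd P00).pos

/-- the union -/
theorem ns5_union (p : Prm k) (X P00 : ℕ) (u u' : Vec k) :
    (Dall u * Dall u').primeFactors ∪ (Spr P00 (p.Y X) \ (Dall u * Dall u').primeFactors) =
      Sall p X P00 u u' := by
  classical
  unfold Sall
  rw [Finset.union_sdiff_self_eq_union, Finset.union_comm]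

theorem ns5_Mp_nn (p : Prm k) (X P00 : ℕ) (q : ℤ × ℤ × ℤ) (f : ℕ × ℕ) : 0 ≤ Mp p X P00 q f := by
  unfold Mp
  exact Finset.sum_nonneg (fun u _ => (gk_01 p X P00 q u).1)

theorem ns5_okf_nn (P00 : ℕ) (u : Vec k) (q : ℤ × ℤ × ℤ) : 0 ≤ okf P00 u q := by
  unfold okf
  split_ifs
  · exact zero_le_one
  · exact le_rfl

theorem ns5_kap01 (p : Prm k) (X P00 : ℕ) (m : ℝ) (u u' : Vec k) (q : ℤ × ℤ × ℤ) :
    0 ≤ kap p X P00 m u u' q ∧ kap p X P00 m u u' q ≤ 1 := by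
  unfold kap
  refine ⟨le_min zero_le_one (mul_nonneg (sq_nonneg _) (div_nonneg (mul_nonneg
    (ns5_okf_nn _ _ _) (ns5_okf_nn _ _ _)) (mul_nonneg (ns5_Mp_nn _ _ _ _ _)
      (ns5_Mp_nn _ _ _ _ _)))), min_le_left _ _⟩

theorem ns5_dvd {u u' : Vec k} {l : ℕ} (hl : l.Prime) (h : l ∉ (Dall u * Dall u').primeFactors)
    (h0 : Dall u * Dall u' ≠ 0) : ¬ l ∣ Dall u ∧ ¬ l ∣ Dall u' := by
  constructor
  · intro hd
    exact h (Nat.mem_primeFactors.2 ⟨hl, hd.mul_right _, h0⟩)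
  · intro hd
    exact h (Nat.mem_primeFactors.2 ⟨hl, hd.mul_left _, h0⟩)

/-- the primes outside `D(u) D(u')` -/
theorem ns5_dens (hk4 : 4 ≤ k) {p : Prm k} {X P00 : ℕ} {u u' : Vec k} (hP : 100 * (k + 1) ^ 2 ≤ P00)
    (hu : GP p X u) (hu' : GP p X u') {l : ℕ} (hl : l ∈ Spr P00 (p.Y X))
    (hd : ¬ l ∣ Dall u) (hd' : ¬ l ∣ Dall u') :
    1 - MV l (fun q => Lf p X u l q * Lf p X u' l q) ≤ (4 * (k + 1) : ℝ) / l ∧
      1 - MV l (fun q => Lf p X u l q * Lf p X u' l q) ≤ 1 / 2 := by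
  unfold Spr at hl
  rw [Finset.mem_filter, Finset.mem_Ioc] at hl
  obtain ⟨⟨h1, h2⟩, h3, h4⟩ := hl
  have hprim : ∀ (w : Vec k), GP p X w → ∀ j : Fin (k + 1),
      ¬ ((l : ℤ) ∣ (w j).1 ∧ (l : ℤ) ∣ (w j).2) := by
    intro w hw j hh
    have hc := hw.prim (by omega) j
    have hu1 := hc.isUnit_of_dvd' hh.1 hh.2
    exact (Nat.prime_iff_prime_int.1 h3).not_isUnit hu1
  have hge := PW_ge ((univ : Finset (Fin (k + 1))).disjSum (univ : Finset (Fin (k + 1))))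
    (Sum.elim u u') (Sum.elim (fun j : Fin (k + 1) => wyV k (PP X) (p.Y X) j.val l)
      (fun j : Fin (k + 1) => wyV k (PP X) (p.Y X) j.val l)) (fun i _ => ?_) h3 h4 (fun i _ => ?_)
  · have he : (fun q => Lf p X u l q * Lf p X u' l q) =
        PW ((univ : Finset (Fin (k + 1))).disjSum (univ : Finset (Fin (k + 1))))
          (Sum.elim u u') (Sum.elim (fun j : Fin (k + 1) => wyV k (PP X) (p.Y X) j.val l)
          (fun j : Fin (k + 1) => wyV k (PP X) (p.Y X) j.val l)) l := by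
      funext q
      rw [Lf_out p X u h3 hd q, Lf_out p X u' h3 hd' q, PW_mul]
    rw [he]
    rw [Finset.card_disjSum, Finset.card_univ, Fintype.card_fin] at hge
    push_cast at hge
    have hlpos : (0 : ℝ) < l := by exact_mod_cast h3.pos
    have hkl : (100 : ℝ) * (k + 1) ≤ l := by
      have : 100 * (k + 1) ≤ l := by nlinarith
      exact_mod_cast this
    have hk0 : (0 : ℝ) ≤ (k : ℝ) := Nat.cast_nonneg _
    constructor
    · have e : (2 : ℝ) * ((k : ℝ) + 1 + (k + 1)) / l = 4 * (k + 1) / l := by ring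
      linarith
    · have e : (2 : ℝ) * ((k : ℝ) + 1 + (k + 1)) / l ≤ 1 / 2 := by
        rw [div_le_iff₀ hlpos]
        linarith
      linarith
  · rcases i with i | i
    · exact wyV_01 _ _ _ _ _
    · exact wyV_01 _ _ _ _ _
  · rcases i with i | i
    · exact hprim u hu i
    · exact hprim u' hu' i

/-- NS5: **FF**, upper bound.  `m² F_u F_u' = kap · W W' ... ≤ kap ∏_{Sall} Lf Lf'` (NA5, `kap_eq`);
NS1 with `Z` = the primes of `D(u) D(u')`, `S` = the others of `Sall`; the local bounds `Loc.ff` -/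
theorem FF_up (hk : Even k) (hk4 : 4 ≤ k) {C : ℝ} (hC : Loc k C) (c δ : ℝ) (hc : 0 < c)
    (hδ : 0 < δ) (hδ1 : δ ≤ 1) : ∃ τ₀ : ℝ, 0 < τ₀ ∧ ∀ p : Prm k, p.Ok τ₀ → ∀ P00 : ℕ,
    ∃ X₀ : ℕ, ∀ X ≥ X₀, ∀ (m : ℝ) (O : Finset (ℤ × ℤ × ℤ)), Sit p X P00 m c O →
    ∀ u u' : Vec k, GP p X u → GP p X u' → C0 u u' →
      m ^ 2 * ∑ q ∈ O, Fn p X P00 q u * Fn p X P00 q u' ≤
        (1 + δ) * Xi p X P00 C u u' * GM p X P00 m O u u' + (X : ℝ) ^ (1 - c / 2) := by
  classical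
  obtain ⟨ks, hks⟩ := sieve_q (4 * (k + 1)) δ (by positivity) hδ hδ1
  obtain ⟨τ₀, hτ0, -, hτ⟩ := levels hk4 c hc ks
  refine ⟨τ₀, hτ0, ?_⟩
  intro p hp P00
  obtain ⟨X₀, hX₀⟩ := hτ p hp P00
  refine ⟨max X₀ 1, ?_⟩
  intro X hX m O hS u u' hu hu' hC0
  have hX0 : X₀ ≤ X := (le_max_left _ _).trans hX
  have hX1 : 1 ≤ X := (le_max_right _ _).trans hX
  have hXr : (1 : ℝ) ≤ (X : ℝ) := by exact_mod_cast hX1
  obtain ⟨L1, L2, L3, L4, L5⟩ := hX₀ X hX0 u u' hu hu'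
  have hk2 : 2 ≤ k := by omega
  have hDu := (hu.Dall_eq hk2).2.2
  have hDu' := (hu'.Dall_eq hk2).2.2
  have hD0 : Dall u * Dall u' ≠ 0 := (Nat.mul_pos hDu hDu').ne'
  set Y : ℕ := ⌊p.Y X⌋₊ with hY
  have hY3 : 3 ≤ Y := Nat.le_floor (by exact_mod_cast L3)
  have hY1 : (1 : ℝ) ≤ (Y : ℝ) := by
    have : 1 ≤ Y := by omega
    exact_mod_cast this
  set Z : Finset ℕ := (Dall u * Dall u').primeFactors with hZ
  set S : Finset ℕ := Spr P00 (p.Y X) \ Z with hSdef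
  have hZS : Z ∪ S = Sall p X P00 u u' := ns5_union p X P00 u u'
  have hP00 : 2 < P00 := by
    have := hS.hP
    nlinarith [Nat.zero_le k]
  have hZp : ∀ l ∈ Z, l.Prime ∧ P00 < l := by
    intro l hl
    have h1 := Nat.mem_primeFactors.1 hl
    refine ⟨h1.1, ?_⟩
    have h2 : PP X < (l : ℝ) := by
      rcases (Nat.Prime.dvd_mul h1.1).1 h1.2.1 with h | h
      · exact (hu.prime_Dall h1.1 h).2
      · exact (hu'.prime_Dall h1.1 h).2
    have h3 := lt_of_le_of_lt hS.hPP h2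
    exact_mod_cast h3
  have hSp : ∀ l ∈ S, l.Prime ∧ P00 < l ∧ l ≤ Y ∧ l ∈ Spr P00 (p.Y X) ∧ l ∉ Z := by
    intro l hl
    rw [hSdef, Finset.mem_sdiff] at hl
    have h1 := hl.1
    unfold Spr at h1
    rw [Finset.mem_filter, Finset.mem_Ioc] at h1
    exact ⟨h1.2.1, h1.1.1, h1.1.2, hl.1, hl.2⟩
  have hall : ∀ l ∈ Z ∪ S, l.Prime ∧ P00 < l := by
    intro l hl
    rcases Finset.mem_union.1 hl with h | h
    · exact hZp l h
    · exact ⟨(hSp l h).1, (hSp l h).2.1⟩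
  have hpw : (X : ℝ) ^ (1 - c) ≥ 0 := Real.rpow_nonneg (Nat.cast_nonneg _) _
  have key := hks O ((X : ℝ) ^ c) ((X : ℝ) ^ (1 - c)) hS.eq hpw Y (R0 P00) Z S
    (kap p X P00 m u u') (fun l q => Lf p X u l q * Lf p X u' l q) (by omega) (ns5_R0_odd P00)
    (fun l hl => ⟨(hall l hl).1, by have := (hall l hl).2; omega,
      ns5_R0_cop (hall l hl).1 (hall l hl).2⟩)
    (fun l hl => (hSp l hl).2.2.1) Finset.disjoint_sdiff
    ?_ (per_kap p X P00 m u u') (ns5_kap01 p X P00 m u u')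
    (fun l hl => ⟨?_, fun v => ⟨mul_nonneg (Lf_01 p X u l v).1 (Lf_01 p X u' l v).1,
      mul_le_one₀ (Lf_01 p X u l v).2 (Lf_01 p X u' l v).1 (Lf_01 p X u' l v).2⟩⟩)
    (fun l hl => ?_)
  · rw [hZS] at key
    -- pointwise
    have hpt : m ^ 2 * ∑ q ∈ O, Fn p X P00 q u * Fn p X P00 q u' ≤
        ∑ q ∈ O, kap p X P00 m u u' q *
          ∏ l ∈ Sall p X P00 u u', (Lf p X u l q * Lf p X u' l q) := by
      rw [Finset.mul_sum]
      refine Finset.sum_le_sum (fun q hq => ?_)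
      have hdisc := hS.disc q hq
      have hM : ∀ f ∈ Fac p X, m ≤ Mp p X P00 q f := fun f hf => hS.hM f hf q hdisc
      rw [kap_eq hp.c10 hk4 hS.m0 hM hu hu', Finset.prod_mul_distrib]
      have w1 := W_le hk hk4 hS.hPP hu hdisc (Sall p X P00 u u') (by rw [← hZS]; exact hall)
      have w2 := W_le hk hk4 hS.hPP hu' hdisc (Sall p X P00 u u') (by rw [← hZS]; exact hall)
      have m1 := lt_of_lt_of_le hS.m0 (hM _ (hu.fE_mem hk2))
      have m2 := lt_of_lt_of_le hS.m0 (hM _ (hu'.fE_mem hk2))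
      have w3 : W p X q u * W p X q u' ≤ (okf P00 u q * ∏ l ∈ Sall p X P00 u u', Lf p X u l q) *
          (okf P00 u' q * ∏ l ∈ Sall p X P00 u u', Lf p X u' l q) :=
        mul_le_mul w1 w2 (W_01 p X q u').1 ((W_01 p X q u).1.trans w1)
      unfold Fn
      calc m ^ 2 * (W p X q u / Mp p X P00 q (fE u) * (W p X q u' / Mp p X P00 q (fE u')))
          = m ^ 2 * (1 / (Mp p X P00 q (fE u) * Mp p X P00 q (fE u'))) *
              (W p X q u * W p X q u') := by field_simp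
        _ ≤ m ^ 2 * (1 / (Mp p X P00 q (fE u) * Mp p X P00 q (fE u'))) *
              ((okf P00 u q * ∏ l ∈ Sall p X P00 u u', Lf p X u l q) *
          (okf P00 u' q * ∏ l ∈ Sall p X P00 u u', Lf p X u' l q)) := by
            apply mul_le_mul_of_nonneg_left w3
            positivity
        _ = _ := by field_simp
    -- the main term
    have hprod : ∏ l ∈ Sall p X P00 u u', MV l (fun q => Lf p X u l q * Lf p X u' l q) ≤
        Xi p X P00 C u u' * ∏ l ∈ Sall p X P00 u u', GLo p X u u' l := by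
      unfold Xi
      rw [← Finset.prod_mul_distrib]
      refine Finset.prod_le_prod (fun l hl => ?_) (fun l hl => ?_)
      · exact (MV_01 (fun v => ⟨mul_nonneg (Lf_01 p X u l v).1 (Lf_01 p X u' l v).1,
          mul_le_one₀ (Lf_01 p X u l v).2 (Lf_01 p X u' l v).1 (Lf_01 p X u' l v).2⟩)).1
      · exact hC.ff p X P00 hS.hP hS.hPP u u' hu hu' hC0 l hl
    have hA : 0 ≤ (O.card : ℝ) * MV (R0 P00) (kap p X P00 m u u') :=
      mul_nonneg (Nat.cast_nonneg _) (MV_01 (ns5_kap01 p X P00 m u u')).1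
    have hmain : (1 + δ) * ((O.card : ℝ) * MV (R0 P00) (kap p X P00 m u u') *
        ∏ l ∈ Sall p X P00 u u', MV l (fun q => Lf p X u l q * Lf p X u' l q)) ≤
        (1 + δ) * Xi p X P00 C u u' * GM p X P00 m O u u' := by
      unfold GM
      calc (1 + δ) * ((O.card : ℝ) * MV (R0 P00) (kap p X P00 m u u') *
          ∏ l ∈ Sall p X P00 u u', MV l (fun q => Lf p X u l q * Lf p X u' l q))
          ≤ (1 + δ) * ((O.card : ℝ) * MV (R0 P00) (kap p X P00 m u u') *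
          (Xi p X P00 C u u' * ∏ l ∈ Sall p X P00 u u', GLo p X u u' l)) := by
            apply mul_le_mul_of_nonneg_left _ (by linarith)
            exact mul_le_mul_of_nonneg_left hprod hA
        _ = _ := by ring
    have herr : (Y : ℝ) ^ ks * (X : ℝ) ^ (1 - c) ≤ (X : ℝ) ^ (1 - c / 2) := by
      have h1 : (Y : ℝ) ^ ks ≤ (Y : ℝ) ^ (ks + 2) := pow_le_pow_right₀ hY1 (by omega)
      have h2 := mul_le_mul_of_nonneg_right h1 hpw
      have h3 : (0 : ℝ) ≤ (X : ℝ) ^ (1 - c / 2) := Real.rpow_nonneg (Nat.cast_nonneg _) _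
      linarith
    have := (abs_le.1 key).2
    linarith
  · refine le_trans ?_ L1
    apply mul_le_mul_of_nonneg_left _ (Nat.cast_nonneg _)
    exact pow_le_pow_right₀ hY1 (by omega)
  · intro v w h1 h2 h3
    show Lf p X u l v * Lf p X u' l v = Lf p X u l w * Lf p X u' l w
    rw [per_Lf p X u l v w h1 h2 h3, per_Lf p X u' l v w h1 h2 h3]
  · obtain ⟨h1, h2⟩ := ns5_dvd (hSp l hl).1 (hSp l hl).2.2.2.2 hD0
    exact ns5_dens hk4 hS.hP hu hu' (hSp l hl).2.2.2.1 h1 h2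

end Pool.Agent.PATH.NC
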