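import Pool.Agent.Lib_helper88.NC.Defs
import Pool.Agent.Lib_helper88.NCF.NA2
import Pool.Agent.Lib_helper88.NCF.NA4
import Pool.Agent.Lib_helper88.NCF.NA4b
import Pool.Agent.Lib_helper88.NCF.NA7
import Pool.Agent.Lib_helper88.NCF.NA9
import Pool.Agent.Lib_helper88.NCF.NL0
import Pool.Agent.Lib_helper88.NCF.NL4
import Pool.Agent.Lib_helper88.NCF.NS1
import Pool.Agent.Lib_helper88.NCF.NS4

/-! Block `NS6` (project NC), helper42. -/

set_option autoImplicit false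

namespace Pool.Agent.PATH.NC

open Finset Pool.Agent.PENT Pool.Agent.PENT.EQ

variable {k : ℕ}

theorem ns6_MV_01 {m : ℕ} {h : ℤ × ℤ × ℤ → ℝ} (hh : ∀ v, 0 ≤ h v ∧ h v ≤ 1) :
    0 ≤ MV m h ∧ MV m h ≤ 1 := by
  unfold MV
  constructor
  · exact div_nonneg (Finset.sum_nonneg fun v _ => (hh v).1) (Nat.cast_nonneg _)
  · apply div_le_one_of_le₀ _ (Nat.cast_nonneg _)
    calc ∑ v ∈ V3 m, h v ≤ ∑ _v ∈ V3 m, (1 : ℝ) := Finset.sum_le_sum fun v _ => (hh v).2
      _ = ((V3 m).card : ℝ) := by simp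

theorem ns6_gl_01 (p : Prm k) (X : ℕ) (u : Vec k) {l : ℕ} (hl : l.Prime) :
    0 ≤ gl p X u l ∧ gl p X u l ≤ 1 := by
  have h1 : (1 : ℝ) ≤ l := by exact_mod_cast hl.one_lt.le
  have h2 : (0 : ℝ) ≤ 2 / ((l : ℝ) + 1) := by positivity
  have h3 : 2 / ((l : ℝ) + 1) ≤ 1 := by
    rw [div_le_one (by linarith)]
    linarith
  unfold gl
  by_cases hd : l ∣ Dint u
  · rw [if_pos hd]
    by_cases hy : (l : ℝ) ≤ p.Y X
    · rw [if_pos hy]
      constructor <;> nlinarith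
    · rw [if_neg hy]
      constructor <;> nlinarith
  · rw [if_neg hd]
    by_cases hd2 : l ∣ Dall u
    · rw [if_pos hd2]
      exact ⟨zero_le_one, le_refl _⟩
    · rw [if_neg hd2]
      exact ns6_MV_01 (fun q => Iv_01 p X u l q)

theorem ns6_Sall_comm (p : Prm k) (X P00 : ℕ) (u u' : Vec k) :
    Sall p X P00 u' u = Sall p X P00 u u' := by
  unfold Sall
  rw [mul_comm (Dall u') (Dall u)]

/-- the primes of `Sall` -/
theorem ns6_Sall {p : Prm k} {X P00 : ℕ} (hPP : (P00 : ℝ) ≤ PP X) {u u' : Vec k}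
    (hu : GP p X u) (hu' : GP p X u') {l : ℕ} (hl : l ∈ Sall p X P00 u u') :
    l.Prime ∧ P00 < l ∧ l % 4 = 1 := by
  unfold Sall at hl
  rcases Finset.mem_union.1 hl with h | h
  · unfold Spr at h
    have h1 := Finset.mem_filter.1 h
    exact ⟨h1.2.1, (Finset.mem_Ioc.1 h1.1).1, h1.2.2⟩
  · have hp := Nat.prime_of_mem_primeFactors h
    have hd := Nat.dvd_of_mem_primeFactors h
    have h2 : l % 4 = 1 ∧ PP X < (l : ℝ) := by
      rcases (Nat.Prime.dvd_mul hp).1 hd with h3 | h3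
      · exact hu.prime_Dall hp h3
      · exact hu'.prime_Dall hp h3
    refine ⟨hp, ?_, h2.1⟩
    have h4 : (P00 : ℝ) < l := lt_of_le_of_lt hPP h2.2
    exact_mod_cast h4

theorem ns6_R0_odd (P00 : ℕ) : Odd (R0 P00) := by
  unfold R0
  refine Finset.prod_induction _ Odd (fun a b ha hb => ha.mul hb) odd_one ?_
  intro l hl
  have h := (Finset.mem_filter.1 hl).2.2
  rw [Nat.odd_iff]
  omega

theorem ns6_R0_cop {P00 l : ℕ} (hl : l.Prime) (h : P00 < l) : Nat.Coprime (R0 P00) l := by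
  unfold R0
  refine Nat.Coprime.prod_left ?_
  intro i hi
  have h1 := Finset.mem_filter.1 hi
  have h2 := (Finset.mem_Icc.1 h1.1).2
  rw [Nat.coprime_primes h1.2.1 hl]
  omega

theorem ns6_okf (P00 : ℕ) (u : Vec k) (q : ℤ × ℤ × ℤ) : 0 ≤ okf P00 u q := by
  unfold okf
  split_ifs
  · exact zero_le_one
  · exact le_refl _

theorem ns6_Mp (p : Prm k) (X P00 : ℕ) (q : ℤ × ℤ × ℤ) (f : ℕ × ℕ) : 0 ≤ Mp p X P00 q f := by
  unfold Mp
  exact Finset.sum_nonneg fun u _ => (gk_01 p X P00 q u).1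

theorem ns6_kap (p : Prm k) (X P00 : ℕ) (m : ℝ) (u u' : Vec k) (q : ℤ × ℤ × ℤ) :
    0 ≤ kap p X P00 m u u' q ∧ kap p X P00 m u u' q ≤ 1 := by
  unfold kap
  constructor
  · refine le_min zero_le_one ?_
    have h1 := ns6_okf P00 u q
    have h2 := ns6_okf P00 u' q
    have h3 := ns6_Mp p X P00 q (fE u)
    have h4 := ns6_Mp p X P00 q (fE u')
    positivity
  · exact min_le_left _ _

theorem ns6_E {u : Vec k} (hk4 : 4 ≤ k) {l : ℕ} (hl : l.Prime) (h : ¬ l ∣ Dall u) :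
    ¬ l ∣ (fE u).1 * (fE u).2 := by
  intro hd
  rcases (Nat.Prime.dvd_mul hl).1 hd with h1 | h1
  · apply h
    refine dvd_trans h1 ?_
    unfold Dall fE
    exact Finset.dvd_prod_of_mem _ (Finset.mem_Icc.2 ⟨le_refl 1, by omega⟩)
  · apply h
    refine dvd_trans h1 ?_
    unfold Dall fE
    exact Finset.dvd_prod_of_mem _ (Finset.mem_Icc.2 ⟨by omega, le_refl k⟩)

/-- the local factor at a prime outside the `d_j` -/
theorem ns6_h (hk4 : 4 ≤ k) (p : Prm k) (X : ℕ) (u u' : Vec k) {l : ℕ} (hl : l.Prime)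
    (h4 : l % 4 = 1) (h : ¬ l ∣ Dall u * Dall u') :
    1 - MV l (fun q => Ef p X (fE u) l q * Ef p X (fE u') l q) ≤ 8 / (l : ℝ) := by
  have hu : ¬ l ∣ Dall u := fun hd => h (Dvd.dvd.mul_right hd _)
  have hu' : ¬ l ∣ Dall u' := fun hd => h (Dvd.dvd.mul_left hd _)
  have e : (fun q => Ef p X (fE u) l q * Ef p X (fE u') l q) =
      PW ((univ : Finset Bool).disjSum (univ : Finset Bool))
        (Sum.elim (fun i => if i then ((1, 0) : ℤ × ℤ) else (0, 1))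
          (fun i => if i then ((1, 0) : ℤ × ℤ) else (0, 1)))
        (Sum.elim (fun _ => wyV k (PP X) (p.Y X) 0 l) (fun _ => wyV k (PP X) (p.Y X) 0 l)) l := by
    funext q
    rw [Ef_out p X (fE u) (ns6_E hk4 hl hu) hl q, Ef_out p X (fE u') (ns6_E hk4 hl hu') hl q]
    unfold Ev
    exact PW_mul _ _ _ _ _ _ l q
  rw [e]
  have hnd : ¬ (l : ℤ) ∣ 1 := by
    intro h
    have h2 : l ∣ 1 := by exact_mod_cast h
    exact hl.one_lt.ne' (Nat.dvd_one.1 h2)
  have hv1 : ∀ i : Bool, ¬ ((l : ℤ) ∣ (if i then ((1, 0) : ℤ × ℤ) else (0, 1)).1 ∧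
      (l : ℤ) ∣ (if i then ((1, 0) : ℤ × ℤ) else (0, 1)).2) := by
    intro i
    cases i
    · simpa using hnd
    · simpa using hnd
  have hw := wyV_01 k (PP X) (p.Y X) 0 l
  have key := PW_ge ((univ : Finset Bool).disjSum (univ : Finset Bool))
    (Sum.elim (fun i => if i then ((1, 0) : ℤ × ℤ) else (0, 1))
      (fun i => if i then ((1, 0) : ℤ × ℤ) else (0, 1)))
    (Sum.elim (fun _ => wyV k (PP X) (p.Y X) 0 l) (fun _ => wyV k (PP X) (p.Y X) 0 l))
    (by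
      intro i _
      rcases i with i | i
      · exact hw
      · exact hw) hl h4
    (by
      intro i _
      rcases i with i | i
      · exact hv1 i
      · exact hv1 i)
  have hc : ((((univ : Finset Bool).disjSum (univ : Finset Bool)).card : ℕ) : ℝ) = 4 := by
    rw [Finset.card_disjSum]
    simp
  rw [hc] at key
  have e8 : (8 : ℝ) / l = 2 * 4 / l := by norm_num
  rw [e8]
  linarith

theorem GG_up (hk : Even k) (hk4 : 4 ≤ k) {C : ℝ} (hC : Loc k C) (c δ : ℝ) (hc : 0 < c)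
    (hδ : 0 < δ) (hδ1 : δ ≤ 1) : ∃ τ₀ : ℝ, 0 < τ₀ ∧ ∀ p : Prm k, p.Ok τ₀ → ∀ P00 : ℕ,
    ∃ X₀ : ℕ, ∀ X ≥ X₀, ∀ (m : ℝ) (O : Finset (ℤ × ℤ × ℤ)), Sit p X P00 m c O →
    ∀ u u' : Vec k, GP p X u → GP p X u' → C0 u u' →
      m ^ 2 * ∑ q ∈ O, Gn p X P00 q u * Gn p X P00 q u' ≤
        (1 + δ) * GM p X P00 m O u u' + (X : ℝ) ^ (1 - c / 2) := by
  obtain ⟨ks, hks⟩ := sieve_q 8 δ (by norm_num) hδ hδ1
  obtain ⟨τ₀, hτ0, hτ1, hlev⟩ := levels hk4 c hc ks
  refine ⟨τ₀, hτ0, fun p hp P00 => ?_⟩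
  obtain ⟨X₀, hX₀⟩ := hlev p hp P00
  refine ⟨X₀, fun X hX m O hS u u' hu hu' h0 => ?_⟩
  obtain ⟨hl1, hl2, hY3, hPY, hYX⟩ := hX₀ X hX u u' hu hu'
  have hP := hS.hP
  have hPP := hS.hPP
  have hm := hS.m0
  have hP2 : 2 ≤ P00 := by nlinarith
  have hP100 : 100 ≤ P00 := by nlinarith
  set Y : ℕ := ⌊p.Y X⌋₊ with hYdef
  have hY1 : 1 ≤ Y := by
    rw [hYdef]
    exact Nat.le_floor (by push_cast; linarith)
  have hY1' : (1 : ℝ) ≤ (Y : ℝ) := by exact_mod_cast hY1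
  set Z : Finset ℕ := (Dall u * Dall u').primeFactors with hZ
  set S : Finset ℕ := Spr P00 (p.Y X) \ Z with hSd
  have hZS : Z ∪ S = Sall p X P00 u u' := by
    unfold Sall
    rw [hSd, Finset.union_sdiff_self_eq_union, Finset.union_comm]
  have hR : (0 : ℝ) ≤ (X : ℝ) ^ (1 - c) := Real.rpow_nonneg (Nat.cast_nonneg _) _
  have hpp : ∀ l ∈ Z ∪ S, l.Prime ∧ P00 < l ∧ l % 4 = 1 := by
    intro l hl
    rw [hZS] at hl
    exact ns6_Sall hPP hu hu' hl
  have hpow : (Y : ℝ) ^ ks ≤ (Y : ℝ) ^ (ks + 2) := pow_le_pow_right₀ hY1' (by omega)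
  have hmem : ∀ l ∈ S, l ∈ Spr P00 (p.Y X) ∧ l ∉ Z := by
    intro l hl
    rw [hSd] at hl
    exact Finset.mem_sdiff.1 hl
  have hnd : ∀ l ∈ S, ¬ l ∣ Dall u * Dall u' := by
    intro l hl hd
    apply (hmem l hl).2
    rw [hZ]
    have hpos : Dall u * Dall u' ≠ 0 :=
      Nat.mul_ne_zero (hu.Dall_eq (by omega)).2.2.ne' (hu'.Dall_eq (by omega)).2.2.ne'
    exact Nat.mem_primeFactors.2 ⟨(hpp l (Finset.mem_union_right _ hl)).1, hd, hpos⟩
  have key := hks O ((X : ℝ) ^ c) ((X : ℝ) ^ (1 - c)) hS.eq hR Y (R0 P00) Z S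
    (kap p X P00 m u u') (fun l q => Ef p X (fE u) l q * Ef p X (fE u') l q) hY1
    (ns6_R0_odd P00)
    (by
      intro l hl
      obtain ⟨h1, h2, _⟩ := hpp l hl
      exact ⟨h1, by omega, ns6_R0_cop h1 h2⟩)
    (by
      intro l hl
      have h1 := (hmem l hl).1
      unfold Spr at h1
      exact (Finset.mem_Ioc.1 (Finset.mem_filter.1 h1).1).2)
    (by
      rw [hSd]
      exact Finset.disjoint_sdiff)
    (by
      refine le_trans ?_ hl1
      exact mul_le_mul_of_nonneg_left hpow (Nat.cast_nonneg _))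
    (per_kap p X P00 m u u')
    (fun v => ns6_kap p X P00 m u u' v)
    (by
      intro l _
      constructor
      · intro v w h1 h2 h3
        show Ef p X (fE u) l v * Ef p X (fE u') l v = Ef p X (fE u) l w * Ef p X (fE u') l w
        rw [per_Ef p X (fE u) l v w h1 h2 h3, per_Ef p X (fE u') l v w h1 h2 h3]
      · intro v
        have h1 := Ef_01 p X (fE u) l v
        have h2 := Ef_01 p X (fE u') l v
        exact ⟨mul_nonneg h1.1 h2.1, mul_le_one₀ h1.2 h2.1 h2.2⟩)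
    (by
      intro l hl
      obtain ⟨h1, h2, h3⟩ := hpp l (Finset.mem_union_right _ hl)
      have h4 := ns6_h hk4 p X u u' h1 h3 (hnd l hl)
      refine ⟨h4, le_trans h4 ?_⟩
      have h5 : (100 : ℝ) ≤ l := by exact_mod_cast (show 100 ≤ l by omega)
      rw [div_le_iff₀ (by linarith)]
      linarith)
  rw [hZS] at key
  -- the product of the `gl`
  set A : ℝ := ∏ l ∈ Sall p X P00 u u', (gl p X u l * gl p X u' l) with hA
  have hA0 : 0 ≤ A := by
    rw [hA]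
    refine Finset.prod_nonneg fun l hl => ?_
    have h1 := (ns6_Sall hPP hu hu' hl).1
    exact mul_nonneg (ns6_gl_01 p X u h1).1 (ns6_gl_01 p X u' h1).1
  have hA1 : A ≤ 1 := by
    rw [hA]
    refine Finset.prod_le_one (fun l hl => ?_) (fun l hl => ?_)
    · have h1 := (ns6_Sall hPP hu hu' hl).1
      exact mul_nonneg (ns6_gl_01 p X u h1).1 (ns6_gl_01 p X u' h1).1
    · have h1 := (ns6_Sall hPP hu hu' hl).1
      exact mul_le_one₀ (ns6_gl_01 p X u h1).2 (ns6_gl_01 p X u' h1).1 (ns6_gl_01 p X u' h1).2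
  -- pointwise
  have hpt : ∀ q ∈ O, m ^ 2 * (Gn p X P00 q u * Gn p X P00 q u') ≤
      A * (kap p X P00 m u u' q *
        ∏ l ∈ Sall p X P00 u u', (Ef p X (fE u) l q * Ef p X (fE u') l q)) := by
    intro q hq
    have hdet := hS.disc q hq
    have hMq : ∀ f ∈ Fac p X, m ≤ Mp p X P00 q f := fun f hf => hS.hM f hf q hdet
    have hc1 : 0 < p.c1 := hp.c10
    have hf := hu.fE_mem (by omega : 2 ≤ k)
    have hf' := hu'.fE_mem (by omega : 2 ≤ k)
    have hSS : ∀ l ∈ Sall p X P00 u u', l.Prime ∧ P00 < l := fun l hl =>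
      ⟨(ns6_Sall hPP hu hu' hl).1, (ns6_Sall hPP hu hu' hl).2.1⟩
    have hw := wend_le (p := p) (X := X) hPP hf hdet (Sall p X P00 u u') hSS
    have hw' := wend_le (p := p) (X := X) hPP hf' hdet (Sall p X P00 u u') hSS
    have hw0 := (wend_01 p X q (fE u)).1
    have hw0' := (wend_01 p X q (fE u')).1
    have hg := gk_eq (p := p) (X := X) (P00 := P00) hk4 hPP hP2 hu hu' q
    have hg' := gk_eq (p := p) (X := X) (P00 := P00) hk4 hPP hP2 hu' hu q
    rw [ns6_Sall_comm] at hg'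
    have hkap := kap_eq (p := p) (X := X) (P00 := P00) hc1 hk4 hm hMq hu hu'
    have hkap0 := (ns6_kap p X P00 m u u' q).1
    have hM1 : 0 < Mp p X P00 q (fE u) := lt_of_lt_of_le hm (hMq _ hf)
    have hM2 : 0 < Mp p X P00 q (fE u') := lt_of_lt_of_le hm (hMq _ hf')
    have e1 : m ^ 2 * (Gn p X P00 q u * Gn p X P00 q u') =
        A * (kap p X P00 m u u' q * (wend p X q (fE u) * wend p X q (fE u'))) := by
      rw [hkap, hA, Finset.prod_mul_distrib]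
      unfold Gn
      rw [hg, hg']
      field_simp
    rw [e1]
    refine mul_le_mul_of_nonneg_left ?_ hA0
    refine mul_le_mul_of_nonneg_left ?_ hkap0
    rw [Finset.prod_mul_distrib]
    exact mul_le_mul hw hw' hw0' (le_trans hw0 hw)
  have hsum : m ^ 2 * ∑ q ∈ O, Gn p X P00 q u * Gn p X P00 q u' ≤
      A * ∑ q ∈ O, kap p X P00 m u u' q *
        ∏ l ∈ Sall p X P00 u u', (Ef p X (fE u) l q * Ef p X (fE u') l q) := by
    rw [Finset.mul_sum, Finset.mul_sum]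
    exact Finset.sum_le_sum hpt
  -- the main term
  set M0 : ℝ := (O.card : ℝ) * MV (R0 P00) (kap p X P00 m u u') *
    ∏ l ∈ Sall p X P00 u u', MV l (fun q => Ef p X (fE u) l q * Ef p X (fE u') l q) with hM0
  have hGM : GM p X P00 m O u u' = A * M0 := by
    unfold GM GLo
    rw [Finset.prod_mul_distrib, hM0, hA]
    ring
  have hup := (abs_le.1 key).2
  have hup2 : ∑ q ∈ O, kap p X P00 m u u' q *
      ∏ l ∈ Sall p X P00 u u', (Ef p X (fE u) l q * Ef p X (fE u') l q) ≤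
      (1 + δ) * M0 + (Y : ℝ) ^ ks * (X : ℝ) ^ (1 - c) := by linarith
  have hE0 : 0 ≤ (Y : ℝ) ^ ks * (X : ℝ) ^ (1 - c) :=
    mul_nonneg (pow_nonneg (Nat.cast_nonneg _) _) hR
  have hE1 : (Y : ℝ) ^ ks * (X : ℝ) ^ (1 - c) ≤ 1 / 100 * (X : ℝ) ^ (1 - c / 2) :=
    le_trans (mul_le_mul_of_nonneg_right hpow hR) hl2
  have hX0 : (0 : ℝ) ≤ (X : ℝ) ^ (1 - c / 2) := Real.rpow_nonneg (Nat.cast_nonneg _) _
  calc m ^ 2 * ∑ q ∈ O, Gn p X P00 q u * Gn p X P00 q u'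
      ≤ A * ((1 + δ) * M0 + (Y : ℝ) ^ ks * (X : ℝ) ^ (1 - c)) :=
        le_trans hsum (mul_le_mul_of_nonneg_left hup2 hA0)
    _ = (1 + δ) * GM p X P00 m O u u' + A * ((Y : ℝ) ^ ks * (X : ℝ) ^ (1 - c)) := by
        rw [hGM]
        ring
    _ ≤ (1 + δ) * GM p X P00 m O u u' + (X : ℝ) ^ (1 - c / 2) := by
        have h1 : A * ((Y : ℝ) ^ ks * (X : ℝ) ^ (1 - c)) ≤ 1 * ((Y : ℝ) ^ ks * (X : ℝ) ^ (1 - c)) :=
          mul_le_mul_of_nonneg_right hA1 hE0
        linarith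

end Pool.Agent.PATH.NC
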