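import Mathlib
import Pool.Agent.Lib_helper88.NC.Defs
import Pool.Agent.Lib_helper88.NCF.NX3

set_option autoImplicit false

namespace Pool.Agent.PATH.NC

open Finset Pool.Agent.PENT Pool.Agent.PENT.EQ

variable {k : ℕ}

/-- NX3 with any decidability instances -/
theorem nx4_transfer {p : Prm k} {X P00 : ℕ} (hc : 0 < p.c1) (hk : 4 ≤ k) {q : ℤ × ℤ × ℤ}
    (hq : q.1 * q.2.2 - q.2.1 ^ 2 = 1) {m B : ℝ} (hm : 0 < m) (hB : 0 ≤ B)
    (hM : ∀ f ∈ Fac p X, m ≤ Mp p X P00 q f) (A : Vec k → Prop) [DecidablePred A]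
    (hA : ∀ f ∈ Fac p X, ∑ u ∈ (GS p X).filter (fun u => fE u = f ∧ A u), gk p X P00 q u ≤ B) :
    ∑ u ∈ (GS p X).filter A, Gn p X P00 q u ≤ B / m := by
  classical
  have h := Gn_transfer hc hk hq hm hB hM A (fun f hf => by
    refine le_trans (le_of_eq ?_) (hA f hf)
    refine Finset.sum_congr ?_ fun _ _ => rfl
    ext u
    simp only [mem_filter])
  refine le_trans (le_of_eq ?_) h
  refine Finset.sum_congr ?_ fun _ _ => rfl
  ext u
  simp only [mem_filter]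

/-- NX4: one vertex on a line modulo `l ≤ (log X)²` (LB, UB, NX3), one vertex given (LB, UB2, NX3) -/
theorem Gn_line {p : Prm k} (hp : p.Ok 1) (hk : 4 ≤ k) (h1 : LB p) (h2 : UB p) (h3 : UB2 p) :
    ∃ C : ℝ, 0 < C ∧ ∀ P00 : ℕ, 3 ≤ P00 → ∃ X₀ : ℕ, ∀ X ≥ X₀, ∀ q : ℤ × ℤ × ℤ,
    q.1 * q.2.2 - q.2.1 ^ 2 = 1 → ∀ i : Fin (k + 1), 1 ≤ i.val → i.val + 1 ≤ k →
      (∀ l : ℕ, l.Prime → P00 < l → (l : ℝ) ≤ Real.log X ^ 2 → ∀ v : ℤ × ℤ,
        ¬ ((l : ℤ) ∣ v.1 ∧ (l : ℤ) ∣ v.2) →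
        ∑ u ∈ (GS p X).filter (fun u => (l : ℤ) ∣ dt v (u i)), Gn p X P00 q u ≤
          C * Real.log P00 ^ C / l) ∧
      ∀ v : ℤ × ℤ, ∑ u ∈ (GS p X).filter (fun u => u i = v), Gn p X P00 q u ≤
        (X : ℝ) ^ (-(1 / C)) := by
  obtain ⟨c, C₂, hc, hC₂, hLB⟩ := h1
  obtain ⟨C, C₃, hC, hC₃, hUB⟩ := h2
  obtain ⟨c', hc', hUB2⟩ := h3
  set K : ℝ := C / c + (C₂ + C₃) + 2 / c' with hK
  have hK0 : 0 < K := by positivity
  have hK1 : C / c ≤ K := by
    have : 0 ≤ 2 / c' := by positivity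
    linarith
  have hK2 : C₂ + C₃ ≤ K := by
    have : 0 ≤ 2 / c' := by positivity
    have : 0 ≤ C / c := by positivity
    linarith
  have hK3 : 2 / c' ≤ K := by
    have : 0 ≤ C / c := by positivity
    linarith
  refine ⟨K, hK0, fun P00 hP => ?_⟩
  obtain ⟨X₁, hX₁⟩ := hLB P00 hP
  obtain ⟨X₂, hX₂⟩ := hUB P00 hP
  obtain ⟨X₃, hX₃⟩ := hUB2 P00 hP
  have hL1 : 1 ≤ Real.log P00 := by
    rw [← Real.log_exp 1]
    apply Real.log_le_log (Real.exp_pos _)
    have h3 : (3 : ℝ) ≤ P00 := by exact_mod_cast hP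
    have := Real.exp_one_lt_d9
    linarith
  have hL0 : 0 < Real.log P00 := by linarith
  -- the event for the second part
  have hε : 0 < c / Real.log P00 ^ C₂ := div_pos hc (Real.rpow_pos_of_pos hL0 _)
  have hev : ∀ᶠ X : ℕ in Filter.atTop, Real.log X ^ mE k ≤
      c / Real.log P00 ^ C₂ * (X : ℝ) ^ (c' / 2) := by
    have h4 := (isLittleO_log_rpow_rpow_atTop (mE k) (half_pos hc')).bound hε
    have h5 := (tendsto_natCast_atTop_atTop (R := ℝ)).eventually h4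
    filter_upwards [h5, Filter.eventually_ge_atTop 2] with X hX hX2
    have hX1 : (1 : ℝ) ≤ X := by
      have : 1 ≤ X := by omega
      exact_mod_cast this
    rw [Real.norm_of_nonneg (Real.rpow_nonneg (Real.log_nonneg hX1) _),
      Real.norm_of_nonneg (Real.rpow_nonneg (by linarith) _)] at hX
    exact hX
  obtain ⟨X₄, hX₄⟩ := Filter.eventually_atTop.mp (hev.and (Filter.eventually_ge_atTop 3))
  refine ⟨max (max X₁ X₂) (max X₃ X₄), fun X hX q hq i hi hi' => ?_⟩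
  have g1 : X₁ ≤ X := ((le_max_left _ _).trans (le_max_left _ _)).trans hX
  have g2 : X₂ ≤ X := ((le_max_right _ _).trans (le_max_left _ _)).trans hX
  have g3 : X₃ ≤ X := ((le_max_left _ _).trans (le_max_right _ _)).trans hX
  have g4 : X₄ ≤ X := ((le_max_right _ _).trans (le_max_right _ _)).trans hX
  obtain ⟨hlog, hX3⟩ := hX₄ X g4
  have hXr : (3 : ℝ) ≤ X := by exact_mod_cast hX3
  have hX0 : (0 : ℝ) < X := by linarith
  have hX1 : (1 : ℝ) ≤ X := by linarith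
  have hlX : 0 < Real.log X := Real.log_pos (by linarith)
  have hLX : 0 < Real.log X ^ (-mE k) := Real.rpow_pos_of_pos hlX _
  have hLP : 0 < Real.log P00 ^ (-C₂) := Real.rpow_pos_of_pos hL0 _
  have hm : 0 < c * Real.log P00 ^ (-C₂) * Real.log X ^ (-mE k) :=
    mul_pos (mul_pos hc hLP) hLX
  have hM : ∀ f ∈ Fac p X, c * Real.log P00 ^ (-C₂) * Real.log X ^ (-mE k) ≤
      Mp p X P00 q f := fun f hf => hX₁ X g1 f hf q hq
  constructor
  · intro l hl hPl hlX2 v hv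
    have hl0 : (0 : ℝ) < l := by exact_mod_cast hl.pos
    have hB : 0 ≤ C * Real.log P00 ^ C₃ / l * Real.log X ^ (-mE k) := by positivity
    have h5 := nx4_transfer hp.c10 hk hq hm hB hM (fun u : Vec k => (l : ℤ) ∣ dt v (u i))
      (fun f hf => hX₂ X g2 f hf q hq l hl hPl hlX2 i hi hi' v hv)
    refine h5.trans ?_
    have e1 : C * Real.log P00 ^ C₃ / l * Real.log X ^ (-mE k) /
        (c * Real.log P00 ^ (-C₂) * Real.log X ^ (-mE k)) =
        (C / c) * Real.log P00 ^ (C₂ + C₃) / l := by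
      rw [Real.rpow_add hL0, Real.rpow_neg hL0.le]
      have := hLX.ne'
      have := (Real.rpow_pos_of_pos hL0 C₂).ne'
      field_simp
    rw [e1]
    apply div_le_div_of_nonneg_right _ hl0.le
    exact mul_le_mul hK1 (Real.rpow_le_rpow_of_exponent_le hL1 hK2)
      (Real.rpow_nonneg hL0.le _) hK0.le
  · intro v
    have hB : 0 ≤ (X : ℝ) ^ (-c') := Real.rpow_nonneg hX0.le _
    have h5 := nx4_transfer hp.c10 hk hq hm hB hM (fun u : Vec k => u i = v)
      (fun f hf => hX₃ X g3 f hf q hq i hi hi' v)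
    refine h5.trans ?_
    have h6 : (X : ℝ) ^ (-c') / (c * Real.log P00 ^ (-C₂) * Real.log X ^ (-mE k)) ≤
        (X : ℝ) ^ (-(c' / 2)) := by
      rw [div_le_iff₀ hm]
      have e2 : (X : ℝ) ^ (-c') = (X : ℝ) ^ (-(c' / 2)) * (X : ℝ) ^ (-(c' / 2)) := by
        rw [← Real.rpow_add hX0]
        ring_nf
      rw [e2]
      apply mul_le_mul_of_nonneg_left _ (Real.rpow_nonneg hX0.le _)
      rw [Real.rpow_neg hX0.le, Real.rpow_neg hL0.le, Real.rpow_neg hlX.le]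
      have a1 : 0 < (X : ℝ) ^ (c' / 2) := Real.rpow_pos_of_pos hX0 _
      have a2 : 0 < Real.log P00 ^ C₂ := Real.rpow_pos_of_pos hL0 _
      have a3 : 0 < Real.log X ^ mE k := Real.rpow_pos_of_pos hlX _
      rw [← div_eq_mul_inv, ← div_eq_mul_inv, inv_eq_one_div, div_le_div_iff₀ a1 a3, one_mul]
      exact hlog
    refine h6.trans (Real.rpow_le_rpow_of_exponent_le hX1 ?_)
    rw [neg_le_neg_iff, one_div]
    rw [div_le_iff₀ hc'] at hK3
    rw [inv_le_comm₀ hK0 (by positivity)]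
    rw [inv_div]
    rw [div_le_iff₀ hc']
    linarith

end Pool.Agent.PATH.NC
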