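import Pool.Agent.Lib_helper88.NC.Defs
import Pool.Agent.Lib_helper88.NCF.NA1
import Pool.Agent.Lib_helper88.NCF.NA2
import Pool.Agent.Lib_helper88.NCF.NA3
import Pool.Agent.Lib_helper88.NCF.NA4
import Pool.Agent.Lib_helper88.NCF.NA8
import Pool.Agent.Lib_helper88.NCF.NX3

/-!
# NC, block NX6: the pairs which are not in `C0`
-/

set_option autoImplicit false

namespace Pool.Agent.PATH.NC

open Finset Pool.Agent.PENT Pool.Agent.PENT.EQ

variable {k : ℕ}

open Filter Topology in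
theorem nx6_lim (D c K : ℝ) (hc : 0 < c) (ε : ℝ) (hε : 0 < ε) : ∃ X₀ : ℕ, ∀ X : ℕ, X₀ ≤ X →
    K * (Real.log X ^ D * (1 / PP X + (X : ℝ) ^ (-c))) ≤ ε := by
  have hlog : Tendsto (fun X : ℕ => Real.log (X : ℝ)) atTop atTop :=
    Real.tendsto_log_atTop.comp tendsto_natCast_atTop_atTop
  have h1 : Tendsto (fun X : ℕ => Real.log X ^ D * (1 / PP X)) atTop (𝓝 0) := by
    have ha := tendsto_rpow_mul_exp_neg_mul_atTop_nhds_zero (100 * D) 1 one_pos
    have hb : Tendsto (fun t : ℝ => t ^ (1 / 100 : ℝ)) atTop atTop :=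
      tendsto_rpow_atTop (by norm_num)
    have hcc := (ha.comp hb).comp hlog
    refine hcc.congr' ?_
    filter_upwards [eventually_ge_atTop 1] with X hX
    have h0 : 0 ≤ Real.log (X : ℝ) := Real.log_natCast_nonneg X
    simp only [Function.comp, PP]
    rw [← Real.rpow_mul h0, show (1 / 100 : ℝ) * (100 * D) = D by ring, one_div (Real.exp _),
      ← Real.exp_neg, neg_one_mul]
  have h2 : Tendsto (fun X : ℕ => Real.log X ^ D * (X : ℝ) ^ (-c)) atTop (𝓝 0) := by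
    have ha := (tendsto_rpow_mul_exp_neg_mul_atTop_nhds_zero D c hc).comp hlog
    refine ha.congr' ?_
    filter_upwards [eventually_ge_atTop 1] with X hX
    have hX0 : (0 : ℝ) < X := by exact_mod_cast hX
    simp only [Function.comp]
    rw [Real.rpow_def_of_pos hX0 (-c)]
    congr 2
    ring
  have h3 : Tendsto (fun X : ℕ => K * (Real.log X ^ D * (1 / PP X + (X : ℝ) ^ (-c)))) atTop
      (𝓝 0) := by
    have h4 := (h1.add h2).const_mul K
    rw [add_zero, mul_zero] at h4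
    refine h4.congr fun X => ?_
    ring
  have h5 := h3.eventually (ge_mem_nhds hε)
  obtain ⟨X₀, hX₀⟩ := eventually_atTop.mp h5
  exact ⟨X₀, hX₀⟩

theorem nx6_Mp_nonneg (p : Prm k) (X P00 : ℕ) (q : ℤ × ℤ × ℤ) (f : ℕ × ℕ) :
    0 ≤ Mp p X P00 q f := sum_nonneg fun u _ => (gk_01 p X P00 q u).1

theorem nx6_Gn_nonneg (p : Prm k) (X P00 : ℕ) (q : ℤ × ℤ × ℤ) (u : Vec k) :
    0 ≤ Gn p X P00 q u :=
  div_nonneg (mul_nonneg (wend_01 p X q _).1 (gk_01 p X P00 q u).1) (nx6_Mp_nonneg p X P00 q _)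

theorem nx6_total {p : Prm k} (hp : p.Ok 1) (hk : 4 ≤ k) (X P00 : ℕ) {q : ℤ × ℤ × ℤ}
    (hq : q.1 * q.2.2 - q.2.1 ^ 2 = 1) : ∑ u ∈ GS p X, Gn p X P00 q u ≤ 1 := by
  classical
  have hmem : ∀ u ∈ GS p X, fE u ∈ Fac p X := fun u hu =>
    ((mem_GS hp.c10).mp hu).fE_mem (by omega)
  rw [← sum_fiberwise_of_maps_to hmem]
  refine le_trans ?_ (av_le_one (p := p) (X := X) hq).2
  rw [av]
  refine sum_le_sum fun f _ => ?_
  have h1 : ∑ u ∈ (GS p X).filter (fun u => fE u = f), Gn p X P00 q u =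
      wend p X q f * (Mp p X P00 q f / Mp p X P00 q f) := by
    rw [Mp, sum_div, mul_sum]
    refine sum_congr rfl fun u hu => ?_
    rw [Gn, (mem_filter.mp hu).2, Mp]
    ring
  rw [h1]
  have h2 : Mp p X P00 q f / Mp p X P00 q f ≤ 1 := div_self_le_one _
  calc wend p X q f * (Mp p X P00 q f / Mp p X P00 q f) ≤ wend p X q f * 1 :=
        mul_le_mul_of_nonneg_left h2 (wend_01 p X q f).1
    _ = _ := mul_one _

open Classical in
theorem nx6_not_C0 {u u' : Vec k} (h : ¬ C0 u u') :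
    (∃ l : ℕ, l.Prime ∧ l ∣ Dall u ∧ l ∣ Dint u') ∨
      (∃ l : ℕ, l.Prime ∧ l ∣ Dall u' ∧ l ∣ Dint u) := by
  rw [C0, not_and_or, Nat.Prime.not_coprime_iff_dvd, Nat.Prime.not_coprime_iff_dvd] at h
  rcases h with ⟨l, hl, h1, h2⟩ | ⟨l, hl, h1, h2⟩
  · exact Or.inr ⟨l, hl, h2, h1⟩
  · exact Or.inl ⟨l, hl, h1, h2⟩

open Classical in
/-- NX6: the pairs which are not in `C0` (LB, UB1, NX3; at most `log X` primes `l > PP X` of
`D(u')`) -/
theorem mean_C0 {p : Prm k} (hp : p.Ok 1) (hk : 4 ≤ k) (h1 : LB p) (h2 : UB1 p) (ε : ℝ)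
    (hε : 0 < ε) : ∀ P00 : ℕ, 3 ≤ P00 → ∃ X₀ : ℕ, ∀ X ≥ X₀, ∀ q : ℤ × ℤ × ℤ,
    q.1 * q.2.2 - q.2.1 ^ 2 = 1 →
      ∑ u ∈ GS p X, ∑ u' ∈ (GS p X).filter (fun u' => ¬ C0 u u'),
        Gn p X P00 q u * Gn p X P00 q u' ≤ ε := by
  intro P00 hP00
  obtain ⟨c₁, C₂, hc₁, hC₂, hLB⟩ := h1
  obtain ⟨X₁, hX₁⟩ := hLB P00 hP00
  obtain ⟨C, c, hc, hUB⟩ := h2
  obtain ⟨X₂, hX₂⟩ := hUB P00 hP00
  obtain ⟨X₃, hX₃⟩ := GP.sizes hp hk
  have hlP : 0 < Real.log P00 := Real.log_pos (by exact_mod_cast (by omega : 1 < P00))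
  have hA0 : 0 < c₁ * Real.log P00 ^ (-C₂) := mul_pos hc₁ (Real.rpow_pos_of_pos hlP _)
  obtain ⟨X₄, hX₄⟩ := nx6_lim (1 + C + mE k) c (2 * (c₁ * Real.log P00 ^ (-C₂))⁻¹) hc ε hε
  refine ⟨max (max X₁ X₂) (max X₃ (max X₄ 3)), fun X hX q hq => ?_⟩
  have hXa : X₁ ≤ X := le_trans (le_trans (le_max_left _ _) (le_max_left _ _)) hX
  have hXb : X₂ ≤ X := le_trans (le_trans (le_max_right _ _) (le_max_left _ _)) hX
  have hXc : X₃ ≤ X := le_trans (le_trans (le_max_left _ _) (le_max_right _ _)) hX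
  have hXd : X₄ ≤ X := le_trans (le_trans (le_trans (le_max_left _ _) (le_max_right _ _))
    (le_max_right _ _)) hX
  have hXe : 3 ≤ X := le_trans (le_trans (le_trans (le_max_right _ _) (le_max_right _ _))
    (le_max_right _ _)) hX
  have hXr : (0 : ℝ) < X := by exact_mod_cast (by omega : 0 < X)
  set t := Real.log X with ht
  have ht0 : 0 < t := Real.log_pos (by exact_mod_cast (by omega : 1 < X))
  set m := c₁ * Real.log P00 ^ (-C₂) * t ^ (-mE k) with hm
  have hm0 : 0 < m := mul_pos hA0 (Real.rpow_pos_of_pos ht0 _)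
  have hM : ∀ f ∈ Fac p X, m ≤ Mp p X P00 q f := fun f hf => hX₁ X hXa f hf q hq
  have hPP : 0 < PP X := Real.exp_pos _
  set B := t ^ C * (1 / PP X + (X : ℝ) ^ (-c)) with hB
  have hB0 : 0 ≤ B := by positivity
  have hG0 := nx6_Gn_nonneg p X P00 q
  have key : ∀ l : ℕ, l.Prime → PP X < (l : ℝ) →
      ∑ u' ∈ (GS p X).filter (fun u' => l ∣ Dint u'), Gn p X P00 q u' ≤ B / m := by
    intro l hl hlP
    have hgt : (∀ f ∈ Fac p X, ∑ u ∈ (GS p X).filter (fun u => fE u = f ∧ l ∣ Dint u),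
        gk p X P00 q u ≤ B) → ∑ u' ∈ (GS p X).filter (fun u' => l ∣ Dint u'),
        Gn p X P00 q u' ≤ B / m := by
      intro h
      have h' := Gn_transfer hp.c10 hk hq hm0 hB0 hM (fun u' => l ∣ Dint u') (by
        intro f hf
        convert h f hf)
      convert h'
    refine hgt fun f hf => ?_
    have h3 := hX₂ X hXb f hf q hq l hl hlP
    have h4 : t ^ C * (1 / (l : ℝ) + (X : ℝ) ^ (-c)) ≤ B := by
      rw [hB]
      have : 1 / (l : ℝ) ≤ 1 / PP X := one_div_le_one_div_of_le hPP hlP.le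
      have h5 : 0 ≤ t ^ C := Real.rpow_nonneg ht0.le _
      exact mul_le_mul_of_nonneg_left (by linarith) h5
    refine le_trans (le_trans ?_ h3) h4
    refine sum_le_sum_of_subset_of_nonneg ?_ fun u _ _ => (gk_01 p X P00 q u).1
    intro u hu
    rw [mem_filter] at hu ⊢
    exact ⟨hu.1, hu.2.1, Or.inl hu.2.2⟩
  have inner : ∀ u ∈ GS p X, ∑ u' ∈ GS p X,
      (if ∃ l : ℕ, l.Prime ∧ l ∣ Dall u ∧ l ∣ Dint u' then Gn p X P00 q u' else 0) ≤
        t * (B / m) := by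
    intro u hu
    have hgu := (mem_GS hp.c10).mp hu
    calc ∑ u' ∈ GS p X,
        (if ∃ l : ℕ, l.Prime ∧ l ∣ Dall u ∧ l ∣ Dint u' then Gn p X P00 q u' else 0)
        ≤ ∑ u' ∈ GS p X, ∑ l ∈ (Dall u).primeFactors,
            (if l ∣ Dint u' then Gn p X P00 q u' else 0) := by
          refine sum_le_sum fun u' _ => ?_
          split_ifs with h
          · obtain ⟨l, hl, h3, h4⟩ := h
            have hl' : l ∈ (Dall u).primeFactors :=
              Nat.mem_primeFactors.mpr ⟨hl, h3, (hgu.Dall_eq (by omega)).2.2.ne'⟩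
            calc Gn p X P00 q u' = if l ∣ Dint u' then Gn p X P00 q u' else 0 := by
                  rw [if_pos h4]
              _ ≤ _ := single_le_sum (f := fun l => if l ∣ Dint u' then Gn p X P00 q u' else 0)
                  (fun l _ => by
                    split_ifs
                    · exact hG0 u'
                    · exact le_rfl) hl'
          · exact sum_nonneg fun l _ => by
              split_ifs
              · exact hG0 u'
              · exact le_rfl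
      _ = ∑ l ∈ (Dall u).primeFactors, ∑ u' ∈ (GS p X).filter (fun u' => l ∣ Dint u'),
            Gn p X P00 q u' := by
          rw [sum_comm]
          exact sum_congr rfl fun l _ => (sum_filter _ _).symm
      _ ≤ ∑ l ∈ (Dall u).primeFactors, B / m := by
          refine sum_le_sum fun l hl => ?_
          obtain ⟨h3, h4, _⟩ := Nat.mem_primeFactors.mp hl
          exact key l h3 (hgu.prime_Dall h3 h4).2
      _ = (Dall u).primeFactors.card * (B / m) := by rw [sum_const, nsmul_eq_mul]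
      _ ≤ t * (B / m) := mul_le_mul_of_nonneg_right (hX₃ X hXc u hgu).2.2.1
          (div_nonneg hB0 hm0.le)
  have hS : ∑ u ∈ GS p X, ∑ u' ∈ GS p X, Gn p X P00 q u *
      (if ∃ l : ℕ, l.Prime ∧ l ∣ Dall u ∧ l ∣ Dint u' then Gn p X P00 q u' else 0) ≤
        t * (B / m) := by
    calc ∑ u ∈ GS p X, ∑ u' ∈ GS p X, Gn p X P00 q u *
        (if ∃ l : ℕ, l.Prime ∧ l ∣ Dall u ∧ l ∣ Dint u' then Gn p X P00 q u' else 0)
        = ∑ u ∈ GS p X, Gn p X P00 q u * ∑ u' ∈ GS p X,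
        (if ∃ l : ℕ, l.Prime ∧ l ∣ Dall u ∧ l ∣ Dint u' then Gn p X P00 q u' else 0) :=
          sum_congr rfl fun u _ => (mul_sum _ _ _).symm
      _ ≤ ∑ u ∈ GS p X, Gn p X P00 q u * (t * (B / m)) :=
          sum_le_sum fun u hu => mul_le_mul_of_nonneg_left (inner u hu) (hG0 u)
      _ = (∑ u ∈ GS p X, Gn p X P00 q u) * (t * (B / m)) := by rw [sum_mul]
      _ ≤ 1 * (t * (B / m)) := mul_le_mul_of_nonneg_right (nx6_total hp hk X P00 hq)
          (mul_nonneg ht0.le (div_nonneg hB0 hm0.le))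
      _ = _ := one_mul _
  have hS' : ∑ u ∈ GS p X, ∑ u' ∈ GS p X, Gn p X P00 q u' *
      (if ∃ l : ℕ, l.Prime ∧ l ∣ Dall u' ∧ l ∣ Dint u then Gn p X P00 q u else 0) ≤
        t * (B / m) := by
    rw [sum_comm]
    exact hS
  have hfin : ∑ u ∈ GS p X, ∑ u' ∈ (GS p X).filter (fun u' => ¬ C0 u u'),
      Gn p X P00 q u * Gn p X P00 q u' ≤ 2 * (t * (B / m)) := by
    have hle : ∑ u ∈ GS p X, ∑ u' ∈ (GS p X).filter (fun u' => ¬ C0 u u'),
        Gn p X P00 q u * Gn p X P00 q u' ≤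
        ∑ u ∈ GS p X, ∑ u' ∈ GS p X, (Gn p X P00 q u *
          (if ∃ l : ℕ, l.Prime ∧ l ∣ Dall u ∧ l ∣ Dint u' then Gn p X P00 q u' else 0) +
          Gn p X P00 q u' *
          (if ∃ l : ℕ, l.Prime ∧ l ∣ Dall u' ∧ l ∣ Dint u then Gn p X P00 q u else 0)) := by
      refine sum_le_sum fun u _ => ?_
      rw [sum_filter]
      refine sum_le_sum fun u' _ => ?_
      have ha := hG0 u
      have hb := hG0 u'
      have hab := mul_nonneg ha hb
      have hn1 : 0 ≤ Gn p X P00 q u *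
          (if ∃ l : ℕ, l.Prime ∧ l ∣ Dall u ∧ l ∣ Dint u' then Gn p X P00 q u' else 0) :=
        mul_nonneg ha (by split_ifs <;> first | exact hb | exact le_rfl)
      have hn2 : 0 ≤ Gn p X P00 q u' *
          (if ∃ l : ℕ, l.Prime ∧ l ∣ Dall u' ∧ l ∣ Dint u then Gn p X P00 q u else 0) :=
        mul_nonneg hb (by split_ifs <;> first | exact ha | exact le_rfl)
      by_cases h3 : ¬ C0 u u'
      · rw [if_pos h3]
        rcases nx6_not_C0 h3 with h4 | h4
        · rw [if_pos h4]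
          linarith
        · rw [if_pos h4, mul_comm (Gn p X P00 q u') (Gn p X P00 q u)]
          linarith
      · rw [if_neg h3]
        exact add_nonneg hn1 hn2
    refine hle.trans ?_
    have : ∑ u ∈ GS p X, ∑ u' ∈ GS p X, (Gn p X P00 q u *
          (if ∃ l : ℕ, l.Prime ∧ l ∣ Dall u ∧ l ∣ Dint u' then Gn p X P00 q u' else 0) +
          Gn p X P00 q u' *
          (if ∃ l : ℕ, l.Prime ∧ l ∣ Dall u' ∧ l ∣ Dint u then Gn p X P00 q u else 0)) =
        (∑ u ∈ GS p X, ∑ u' ∈ GS p X, Gn p X P00 q u *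
          (if ∃ l : ℕ, l.Prime ∧ l ∣ Dall u ∧ l ∣ Dint u' then Gn p X P00 q u' else 0)) +
        ∑ u ∈ GS p X, ∑ u' ∈ GS p X, Gn p X P00 q u' *
          (if ∃ l : ℕ, l.Prime ∧ l ∣ Dall u' ∧ l ∣ Dint u then Gn p X P00 q u else 0) := by
      rw [← sum_add_distrib]
      exact sum_congr rfl fun u _ => sum_add_distrib
    rw [this]
    linarith
  refine hfin.trans (le_trans (le_of_eq ?_) (hX₄ X hXd))
  have e1 : t ^ (1 + C + mE k) = t * t ^ C * t ^ mE k := by
    rw [Real.rpow_add ht0, Real.rpow_add ht0, Real.rpow_one]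
  rw [e1, hB, hm, Real.rpow_neg ht0.le]
  have e2 : t ^ mE k ≠ 0 := (Real.rpow_pos_of_pos ht0 _).ne'
  field_simp

end Pool.Agent.PATH.NC
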