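import Pool.Agent.Lib_helper88.NC.Defs
import Pool.Agent.Lib_helper88.NCF.NA1
import Pool.Agent.Lib_helper88.NCF.NA2
import Pool.Agent.Lib_helper88.NCF.NA4

/-! Block NX9 (uses NA2, NA4) -/

set_option autoImplicit false

namespace Pool.Agent.PATH.NC

open Finset Pool.Agent.PENT Pool.Agent.PENT.EQ

variable {k : ℕ}

theorem nx9_small (K a ε : ℝ) (ha : 0 < a) (hε : 0 < ε) :
    ∃ X₀ : ℕ, ∀ X : ℕ, X₀ ≤ X → K * Real.log X ^ (-a) ≤ ε := by
  have h1 : Filter.Tendsto (fun X : ℕ => Real.log (X : ℝ)) Filter.atTop Filter.atTop :=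
    Real.tendsto_log_atTop.comp tendsto_natCast_atTop_atTop
  have h2 : Filter.Tendsto (fun X : ℕ => Real.log (X : ℝ) ^ (-a)) Filter.atTop (nhds 0) :=
    (tendsto_rpow_neg_atTop ha).comp h1
  have h3 : Filter.Tendsto (fun X : ℕ => K * Real.log (X : ℝ) ^ (-a)) Filter.atTop
      (nhds (K * 0)) := h2.const_mul K
  rw [mul_zero] at h3
  have h4 := h3.eventually_le_const hε
  rw [Filter.eventually_atTop] at h4
  exact h4

/-- NX9: the typical part of the diagonal and the atypical part (DG, LB):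
`∑ Ft² ≤ Θ ∑ W / m²`, `∑ (Fn - Ft) ≤ Θ^(-η) ∑ W^(1+η) / m`, `Θ = (log X)^(-mE - 1/2)` -/
theorem diag_rest {p : Prm k} (hp : p.Ok 1) (hk : 4 ≤ k) (C1 : ℝ) (h1 : LB p) (h2 : DG p C1)
    (ε : ℝ) (hε : 0 < ε) : ∀ P00 : ℕ, 3 ≤ P00 → ∃ X₀ : ℕ, ∀ X ≥ X₀, ∀ O ⊆ AW C1 X,
      ∑ q ∈ O, ∑ u ∈ GS p X, Ft p X P00 q u ^ 2 ≤ ε * X ∧
      ∑ q ∈ O, ∑ u ∈ GS p X, (Fn p X P00 q u - Ft p X P00 q u) ≤ ε * X := by
  classical
  intro P00 hP
  obtain ⟨c, C₂, hc, hC₂, hLB⟩ := h1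
  obtain ⟨X1, hX1⟩ := hLB P00 hP
  obtain ⟨C, η, hη, hη1, X2, hX2⟩ := h2
  have hlP : 0 < Real.log P00 := Real.log_pos (by
    have : (3 : ℝ) ≤ P00 := by exact_mod_cast hP
    linarith)
  set B : ℝ := c * Real.log P00 ^ (-C₂) with hB
  have hB0 : 0 < B := mul_pos hc (Real.rpow_pos_of_pos hlP _)
  obtain ⟨X3, hX3⟩ := nx9_small (C / B ^ 2) (1 / 2) ε (by norm_num) hε
  obtain ⟨X4, hX4⟩ := nx9_small (C / B) (η / 4) ε (by positivity) hε
  refine ⟨max (max X1 X2) (max (max X3 X4) 3), ?_⟩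
  intro X hX O hO
  have hXa : X1 ≤ X := (le_max_left _ _).trans ((le_max_left _ _).trans hX)
  have hXb : X2 ≤ X := (le_max_right _ _).trans ((le_max_left _ _).trans hX)
  have hXc : X3 ≤ X := (le_max_left _ _).trans ((le_max_left _ _).trans ((le_max_right _ _).trans hX))
  have hXd : X4 ≤ X := (le_max_right _ _).trans ((le_max_left _ _).trans ((le_max_right _ _).trans hX))
  have hXe : 3 ≤ X := (le_max_right _ _).trans ((le_max_right _ _).trans hX)
  have hXr : (3 : ℝ) ≤ X := by exact_mod_cast hXe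
  have hX0 : (0 : ℝ) < X := by linarith
  have hL : 0 < Real.log X := Real.log_pos (by linarith)
  set L := Real.log (X : ℝ) with hLdef
  set m : ℝ := B * L ^ (-mE k) with hm
  have hm0 : 0 < m := mul_pos hB0 (Real.rpow_pos_of_pos hL _)
  set Θ : ℝ := L ^ (-mE k - 1 / 2) with hΘ
  have hΘ0 : 0 < Θ := Real.rpow_pos_of_pos hL _
  obtain ⟨hD1, hD2⟩ := hX2 X hXb
  have hdisc : ∀ q ∈ AW C1 X, q.1 * q.2.2 - q.2.1 ^ 2 = 1 := by
    intro q hq
    unfold AW at hq
    exact (mem_filter.mp hq).2.1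
  have hMp : ∀ q ∈ AW C1 X, ∀ u ∈ GS p X, m ≤ Mp p X P00 q (fE u) := by
    intro q hq u hu
    have hu' : GP p X u := (mem_GS hp.c10).mp hu
    exact hX1 X hXa (fE u) (hu'.fE_mem (by omega)) q (hdisc q hq)
  have hW : ∀ q (u : Vec k), 0 ≤ W p X q u := fun q u => (W_01 p X q u).1
  -- pointwise
  have hFn : ∀ q ∈ AW C1 X, ∀ u ∈ GS p X, 0 ≤ Fn p X P00 q u ∧ Fn p X P00 q u ≤ W p X q u / m := by
    intro q hq u hu
    have hM := hMp q hq u hu
    unfold Fn
    exact ⟨div_nonneg (hW q u) (hm0.le.trans hM), div_le_div_of_nonneg_left (hW q u) hm0 hM⟩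
  have hsub : ∀ (g : ℤ × ℤ × ℤ → Vec k → ℝ), (∀ q u, 0 ≤ g q u) →
      ∑ q ∈ O, ∑ u ∈ GS p X, g q u ≤ ∑ q ∈ AW C1 X, ∑ u ∈ GS p X, g q u := by
    intro g hg
    exact sum_le_sum_of_subset_of_nonneg hO (fun q _ _ => sum_nonneg (fun u _ => hg q u))
  constructor
  · have hpt : ∀ q ∈ O, ∀ u ∈ GS p X, Ft p X P00 q u ^ 2 ≤ (Θ / m ^ 2) * W p X q u := by
      intro q hq u hu
      obtain ⟨f0, f1⟩ := hFn q (hO hq) u hu
      unfold Ft
      split_ifs with hw
      · have e1 : Fn p X P00 q u ^ 2 ≤ (W p X q u / m) ^ 2 := pow_le_pow_left₀ f0 f1 2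
        have e2 : (W p X q u / m) ^ 2 = W p X q u * W p X q u / m ^ 2 := by
          rw [div_pow, sq]
        rw [e2] at e1
        have e3 : W p X q u * W p X q u / m ^ 2 ≤ Θ * W p X q u / m ^ 2 :=
          div_le_div_of_nonneg_right (mul_le_mul_of_nonneg_right hw (hW q u)) (by positivity)
        calc Fn p X P00 q u ^ 2 ≤ Θ * W p X q u / m ^ 2 := e1.trans e3
          _ = (Θ / m ^ 2) * W p X q u := by ring
      · have : (0 : ℝ) ≤ (Θ / m ^ 2) * W p X q u := mul_nonneg (by positivity) (hW q u)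
        simpa using this
    calc ∑ q ∈ O, ∑ u ∈ GS p X, Ft p X P00 q u ^ 2 ≤
          ∑ q ∈ O, ∑ u ∈ GS p X, (Θ / m ^ 2) * W p X q u :=
          sum_le_sum (fun q hq => sum_le_sum (fun u hu => hpt q hq u hu))
      _ ≤ ∑ q ∈ AW C1 X, ∑ u ∈ GS p X, (Θ / m ^ 2) * W p X q u :=
          hsub _ (fun q u => mul_nonneg (by positivity) (hW q u))
      _ = (Θ / m ^ 2) * ∑ q ∈ AW C1 X, ∑ u ∈ GS p X, W p X q u := by
          rw [mul_sum]
          refine sum_congr rfl (fun q _ => ?_)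
          rw [mul_sum]
      _ ≤ (Θ / m ^ 2) * (C * X * L ^ (-mE k)) := mul_le_mul_of_nonneg_left hD1 (by positivity)
      _ = (C / B ^ 2 * L ^ (-(1 / 2) : ℝ)) * X := by
          have e1 : m ^ 2 = B ^ 2 * L ^ (-mE k - mE k) := by
            rw [hm, mul_pow, sub_eq_add_neg, Real.rpow_add hL, sq (L ^ (-mE k))]
          have e2 : Θ * L ^ (-mE k) = L ^ (-(1 / 2) : ℝ) * L ^ (-mE k - mE k) := by
            rw [hΘ, ← Real.rpow_add hL, ← Real.rpow_add hL]
            congr 1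
            ring
          have hp2 : 0 < L ^ (-mE k - mE k) := Real.rpow_pos_of_pos hL _
          rw [e1]
          calc Θ / (B ^ 2 * L ^ (-mE k - mE k)) * (C * X * L ^ (-mE k)) =
                C * X * (Θ * L ^ (-mE k)) / (B ^ 2 * L ^ (-mE k - mE k)) := by ring
            _ = C * X * (L ^ (-(1 / 2) : ℝ) * L ^ (-mE k - mE k)) /
                (B ^ 2 * L ^ (-mE k - mE k)) := by rw [e2]
            _ = _ := by field_simp
      _ ≤ ε * X := mul_le_mul_of_nonneg_right (hX3 X hXc) hX0.le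
  · have hpt : ∀ q ∈ O, ∀ u ∈ GS p X, Fn p X P00 q u - Ft p X P00 q u ≤
        (Θ ^ (-η) / m) * W p X q u ^ (1 + η) := by
      intro q hq u hu
      obtain ⟨f0, f1⟩ := hFn q (hO hq) u hu
      have hWp : 0 ≤ W p X q u ^ (1 + η) := Real.rpow_nonneg (hW q u) _
      have hTp : 0 < Θ ^ (-η) := Real.rpow_pos_of_pos hΘ0 _
      unfold Ft
      split_ifs with hw
      · rw [sub_self]
        positivity
      · rw [sub_zero]
        have hlt : Θ < W p X q u := not_le.mp hw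
        have hW0 : 0 < W p X q u := hΘ0.trans hlt
        have e1 : W p X q u ^ (-η) ≤ Θ ^ (-η) :=
          Real.rpow_le_rpow_of_nonpos hΘ0 hlt.le (by linarith)
        have e2 : W p X q u = W p X q u ^ (-η) * W p X q u ^ (1 + η) := by
          rw [← Real.rpow_add hW0]
          have : -η + (1 + η) = 1 := by ring
          rw [this, Real.rpow_one]
        calc Fn p X P00 q u ≤ W p X q u / m := f1
          _ = (W p X q u ^ (-η) * W p X q u ^ (1 + η)) / m := by rw [← e2]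
          _ ≤ (Θ ^ (-η) * W p X q u ^ (1 + η)) / m :=
              div_le_div_of_nonneg_right (mul_le_mul_of_nonneg_right e1 hWp) hm0.le
          _ = _ := by ring
    have hTp : 0 < Θ ^ (-η) := Real.rpow_pos_of_pos hΘ0 _
    calc ∑ q ∈ O, ∑ u ∈ GS p X, (Fn p X P00 q u - Ft p X P00 q u) ≤
          ∑ q ∈ O, ∑ u ∈ GS p X, (Θ ^ (-η) / m) * W p X q u ^ (1 + η) :=
          sum_le_sum (fun q hq => sum_le_sum (fun u hu => hpt q hq u hu))
      _ ≤ ∑ q ∈ AW C1 X, ∑ u ∈ GS p X, (Θ ^ (-η) / m) * W p X q u ^ (1 + η) :=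
          hsub _ (fun q u => mul_nonneg (by positivity) (Real.rpow_nonneg (hW q u) _))
      _ = (Θ ^ (-η) / m) * ∑ q ∈ AW C1 X, ∑ u ∈ GS p X, W p X q u ^ (1 + η) := by
          rw [mul_sum]
          refine sum_congr rfl (fun q _ => ?_)
          rw [mul_sum]
      _ ≤ (Θ ^ (-η) / m) * (C * X * L ^ (-mE k * (1 + η) - 3 / 4 * η)) :=
          mul_le_mul_of_nonneg_left hD2 (by positivity)
      _ = (C / B * L ^ (-(η / 4))) * X := by
          have e1 : Θ ^ (-η) = L ^ ((-mE k - 1 / 2) * (-η)) := by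
            rw [hΘ, ← Real.rpow_mul hL.le]
          have e2 : L ^ ((-mE k - 1 / 2) * (-η)) * L ^ (-mE k * (1 + η) - 3 / 4 * η) =
              L ^ (-(η / 4)) * L ^ (-mE k) := by
            rw [← Real.rpow_add hL, ← Real.rpow_add hL]
            congr 1
            ring
          have hp2 : 0 < L ^ (-mE k) := Real.rpow_pos_of_pos hL _
          rw [e1, hm]
          calc L ^ ((-mE k - 1 / 2) * (-η)) / (B * L ^ (-mE k)) *
                (C * X * L ^ (-mE k * (1 + η) - 3 / 4 * η)) =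
                C * X * (L ^ ((-mE k - 1 / 2) * (-η)) * L ^ (-mE k * (1 + η) - 3 / 4 * η)) /
                  (B * L ^ (-mE k)) := by ring
            _ = C * X * (L ^ (-(η / 4)) * L ^ (-mE k)) / (B * L ^ (-mE k)) := by rw [e2]
            _ = _ := by field_simp
      _ ≤ ε * X := mul_le_mul_of_nonneg_right (hX4 X hXd) hX0.le

end Pool.Agent.PATH.NC
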